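import Pool.Agent.TH970.MDS.UpDefs

/-!
# Two denominators give the planar configuration (job 4037)
-/

set_option autoImplicit false

namespace Pool.Agent.TH443.J4037

open H372R3.MD Pool.Agent.TH970.MDS.Up

lemma nn_abs_int (q : ℤ) (x : ℝ) : nn ((|q| : ℤ) * x) = nn (q * x) := by
  rcases abs_choice q with h | h
  · rw [h]
  · rw [h]
    push_cast
    rw [neg_mul, nn_neg]

theorem t_Extract : Pool.Agent.TH970.MDS.Up.StExtract := by
  intro v K ξ ζ n hv hK hKn hq
  have hn1 : 1 ≤ n := by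
    have : (1 : ℤ) ≤ K := by exact_mod_cast hK
    linarith
  have hN0 : (0 : ℝ) < (n : ℝ) + 1 := by
    have : (1 : ℝ) ≤ n := by exact_mod_cast hn1
    linarith
  have hpos : ∀ q : ℤ, 1 ≤ q → q ≤ n → 0 < nn (q * ξ) := by
    intro q h1 h2
    have h := hq q h1 h2
    rcases (nn_nonneg (q * ξ)).eq_or_lt with h0 | h0
    · rw [← h0, zero_mul, mul_zero] at h
      linarith
    · exact h0
  -- the minimiser
  obtain ⟨a, ha, hmin⟩ := Finset.exists_min_image (Finset.Icc (1 : ℤ) n) (fun q : ℤ => nn (q * ξ))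
    ⟨1, Finset.mem_Icc.2 ⟨le_rfl, hn1⟩⟩
  obtain ⟨ha1, han⟩ := Finset.mem_Icc.1 ha
  have hmin' : ∀ q : ℤ, 1 ≤ q → q ≤ n → nn (a * ξ) ≤ nn (q * ξ) := fun q h1 h2 =>
    hmin q (Finset.mem_Icc.2 ⟨h1, h2⟩)
  set P : ℤ := round ((a : ℝ) * ξ) with hP
  set A : ℝ := (a : ℝ) * ξ - P with hA
  have hAabs : |A| = nn (a * ξ) := rfl
  have hApos : 0 < |A| := by rw [hAabs]; exact hpos a ha1 han
  have hAle : |A| ≤ 1 / ((n : ℝ) + 1) := by
    obtain ⟨k, hk0, hkn, hk⟩ := Real.exists_nat_abs_mul_sub_round_le ξ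
      (n := n.toNat) (by omega)
    have e : ((n.toNat : ℕ) : ℝ) = (n : ℝ) := by
      have : ((n.toNat : ℕ) : ℤ) = n := Int.toNat_of_nonneg (by omega)
      exact_mod_cast this
    rw [e] at hk
    refine le_trans ?_ hk
    rw [hAabs]
    have := hmin' (k : ℤ) (by omega) (by omega)
    simpa [nn] using this
  have hN1 : (n : ℝ) * |A| < 1 := by
    have h1 : ((n : ℝ) + 1) * |A| ≤ 1 := by
      calc ((n : ℝ) + 1) * |A| ≤ ((n : ℝ) + 1) * (1 / ((n : ℝ) + 1)) :=
            mul_le_mul_of_nonneg_left hAle hN0.le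
        _ = 1 := by field_simp
    linarith
  -- coprimality
  have hcop : IsCoprime a P := by
    rw [Int.isCoprime_iff_gcd_eq_one]
    by_contra hg
    have hg0 : Int.gcd a P ≠ 0 := by
      intro h0
      rw [Int.gcd_eq_zero_iff] at h0
      omega
    have hg2 : 2 ≤ Int.gcd a P := by omega
    obtain ⟨a', ha'⟩ : ((Int.gcd a P : ℕ) : ℤ) ∣ a := Int.gcd_dvd_left ..
    obtain ⟨P', hP'⟩ : ((Int.gcd a P : ℕ) : ℤ) ∣ P := Int.gcd_dvd_right ..
    set d : ℕ := Int.gcd a P with hd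
    have hd2 : (2 : ℤ) ≤ d := by exact_mod_cast hg2
    have ha'1 : 1 ≤ a' := by
      by_contra hlt
      push Not at hlt
      have : a' ≤ 0 := by omega
      have : (d : ℤ) * a' ≤ 0 := mul_nonpos_of_nonneg_of_nonpos (by omega) this
      omega
    have ha'n : a' ≤ n := by nlinarith
    have h1 := hmin' a' ha'1 ha'n
    have h2 : nn (a' * ξ) ≤ |(a' : ℝ) * ξ - P'| := nn_le _ _
    have h3 : A = (d : ℝ) * ((a' : ℝ) * ξ - P') := by
      have e1 : (a : ℝ) = (d : ℝ) * a' := by exact_mod_cast ha'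
      have e2 : (P : ℝ) = (d : ℝ) * P' := by exact_mod_cast hP'
      rw [hA, e2]
      nth_rewrite 1 [e1]
      ring
    have h4 : |A| = (d : ℝ) * |(a' : ℝ) * ξ - P'| := by
      rw [h3, abs_mul, Nat.abs_cast]
    have hd2' : (2 : ℝ) ≤ d := by exact_mod_cast hg2
    have h5 : 0 ≤ |(a' : ℝ) * ξ - P'| := abs_nonneg _
    rw [← hAabs] at h1
    nlinarith
  -- the sign
  obtain ⟨s, hs, hsA⟩ : ∃ s : ℤ, (s = 1 ∨ s = -1) ∧ (s : ℝ) * A = |A| := by
    rcases le_or_gt 0 A with h | h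
    · exact ⟨1, Or.inl rfl, by rw [abs_of_nonneg h]; push_cast; ring⟩
    · exact ⟨-1, Or.inr rfl, by rw [abs_of_neg h]; push_cast; ring⟩
  have hs2 : s * s = 1 := by rcases hs with h | h <;> subst h <;> norm_num
  have hs2' : (s : ℝ) * s = 1 := by exact_mod_cast hs2
  -- the second denominator
  obtain ⟨b, R, hbn, hban, hdet⟩ : ∃ b R : ℤ, b ≤ n ∧ n - a < b ∧ a * R - b * P = s := by
    obtain ⟨u, w, huw⟩ := hcop
    refine ⟨n - (n - (-s * w)) % a, s * u + P * ((n - (-s * w)) / a), ?_, ?_, ?_⟩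
    · have := Int.emod_nonneg (n - (-s * w)) (show a ≠ 0 by omega)
      omega
    · have := Int.emod_lt_of_pos (n - (-s * w)) (show 0 < a by omega)
      omega
    · have := Int.emod_add_mul_ediv (n - (-s * w)) a
      linear_combination s * huw + P * this
  have hb1 : 1 ≤ b := by omega
  set B : ℝ := (b : ℝ) * ξ - R with hB
  have hdet' : (a : ℝ) * R - b * P = s := by exact_mod_cast hdet
  have hAB : (a : ℝ) * (-(s : ℝ) * B) = 1 - b * |A| := by
    rw [← hsA, hA, hB]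
    linear_combination hs2' + (s : ℝ) * hdet'
  have ha0 : (0 : ℝ) < a := by exact_mod_cast (by omega : 0 < a)
  have hb0 : (0 : ℝ) < b := by exact_mod_cast (by omega : 0 < b)
  have hbn' : (b : ℝ) ≤ n := by exact_mod_cast hbn
  have han' : (a : ℝ) ≤ n := by exact_mod_cast han
  have hbA : (b : ℝ) * |A| < 1 := by nlinarith
  have hsBpos : 0 < -(s : ℝ) * B := by
    by_contra hle
    push Not at hle
    have : (a : ℝ) * (-(s : ℝ) * B) ≤ 0 := mul_nonpos_of_nonneg_of_nonpos ha0.le hle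
    linarith
  have hBabs : |B| = -(s : ℝ) * B := by
    have h1 : |-(s : ℝ) * B| = |B| := by
      rw [abs_mul]
      rcases hs with h | h <;> subst h <;> norm_num
    rw [← h1, abs_of_pos hsBpos]
  have hsum : (a : ℝ) * |B| + b * |A| = 1 := by
    rw [hBabs]; linarith
  have hABle : |A| ≤ |B| := by
    rw [hAabs]
    exact (hmin' b hb1 hbn).trans (nn_le _ _)
  have hab : n + 1 ≤ a + b := by omega
  have hgab : IsCoprime a b := by
    refine ⟨s * R, -(s * P), ?_⟩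
    linear_combination s * hdet + hs2
  -- the second coordinate
  set t : ℝ := (a : ℝ) * ζ - round ((a : ℝ) * ζ) with ht
  set u : ℝ := -((b : ℝ) * ζ - round ((b : ℝ) * ζ)) with hu
  have ht2 : |t| ≤ 1 / 2 := abs_sub_round _
  have hu2 : |u| ≤ 1 / 2 := by rw [hu, abs_neg]; exact abs_sub_round _
  -- the main inequality
  have hmain : ∀ (m k : ℕ) (j : ℤ), 1 ≤ m + k → m + k ≤ K →
      |(m : ℝ) * ((a : ℝ) / ((n : ℝ) + 1)) - k * ((b : ℝ) / ((n : ℝ) + 1))| < 1 →
      v < ((m : ℝ) * (((n : ℝ) + 1) * |A|) + k * (((n : ℝ) + 1) * |B|)) *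
        |(m : ℝ) * t + k * u - j| := by
    intro m k j hmk1 hmkK hlt
    set q0 : ℤ := m * a - k * b with hq0
    have hq0r : ((q0 : ℤ) : ℝ) = (m : ℝ) * a - k * b := by rw [hq0]; push_cast; ring
    have hq0lt : |q0| < n + 1 := by
      have h1 : (m : ℝ) * ((a : ℝ) / ((n : ℝ) + 1)) - k * ((b : ℝ) / ((n : ℝ) + 1)) =
          (q0 : ℝ) / ((n : ℝ) + 1) := by
        rw [hq0r]; field_simp
      rw [h1, abs_div, abs_of_pos hN0, div_lt_one hN0] at hlt
      exact_mod_cast hlt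
    have hq0ne : q0 ≠ 0 := by
      intro h0
      have h1 : (m : ℤ) * a = k * b := by omega
      have hak : a ∣ (k : ℤ) := hgab.dvd_of_dvd_mul_right ⟨m, by rw [← h1]; ring⟩
      have hbm : b ∣ (m : ℤ) := hgab.symm.dvd_of_dvd_mul_right ⟨k, by rw [h1]; ring⟩
      rcases Nat.eq_zero_or_pos k with hk | hk
      · rw [hk] at h1
        have : (m : ℤ) = 0 := by
          rcases mul_eq_zero.mp (show (m : ℤ) * a = 0 by rw [h1]; simp) with h | h
          · exact h
          · omega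
        omega
      · rcases Nat.eq_zero_or_pos m with hm | hm
        · rw [hm] at h1
          have : (k : ℤ) = 0 := by
            rcases mul_eq_zero.mp (show (k : ℤ) * b = 0 by rw [← h1]; simp) with h | h
            · exact h
            · omega
          omega
        · have h2 : a ≤ k := Int.le_of_dvd (by omega) hak
          have h3 : b ≤ m := Int.le_of_dvd (by omega) hbm
          omega
    have hq1 : 1 ≤ |q0| := Int.one_le_abs hq0ne
    have hv' := hq |q0| hq1 (by omega)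
    rw [nn_abs_int, nn_abs_int] at hv'
    have hx : nn (q0 * ξ) ≤ (m : ℝ) * |A| + k * |B| := by
      have h1 := nn_le (q0 * ξ) (m * P - k * R)
      have h2 : (q0 : ℝ) * ξ - ((m * P - k * R : ℤ) : ℝ) = (m : ℝ) * A - k * B := by
        rw [hq0r, hA, hB]; push_cast; ring
      rw [h2] at h1
      refine h1.trans ((abs_sub _ _).trans (le_of_eq ?_))
      rw [abs_mul, abs_mul, Nat.abs_cast, Nat.abs_cast]
    have hz : nn (q0 * ζ) ≤ |(m : ℝ) * t + k * u - j| := by
      have h1 := nn_le (q0 * ζ) (m * round ((a : ℝ) * ζ) - k * round ((b : ℝ) * ζ) + j)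
      have h2 : (q0 : ℝ) * ζ -
          ((m * round ((a : ℝ) * ζ) - k * round ((b : ℝ) * ζ) + j : ℤ) : ℝ) =
          (m : ℝ) * t + k * u - j := by
        rw [hq0r, ht, hu]; push_cast; ring
      rwa [h2] at h1
    have hxz : nn (q0 * ξ) * nn (q0 * ζ) ≤
        ((m : ℝ) * |A| + k * |B|) * |(m : ℝ) * t + k * u - j| :=
      mul_le_mul hx hz (nn_nonneg _) ((nn_nonneg _).trans hx)
    calc v < ((n : ℝ) + 1) * (nn (q0 * ξ) * nn (q0 * ζ)) := hv'
      _ ≤ ((n : ℝ) + 1) * (((m : ℝ) * |A| + k * |B|) * |(m : ℝ) * t + k * u - j|) :=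
        mul_le_mul_of_nonneg_left hxz hN0.le
      _ = _ := by ring
  have hcommon : 0 < (a : ℝ) / ((n : ℝ) + 1) ∧ (a : ℝ) / ((n : ℝ) + 1) < 1 ∧
      0 < (b : ℝ) / ((n : ℝ) + 1) ∧ (b : ℝ) / ((n : ℝ) + 1) < 1 ∧
      1 ≤ (a : ℝ) / ((n : ℝ) + 1) + (b : ℝ) / ((n : ℝ) + 1) ∧
      ((n : ℝ) + 1) * |A| ≤ ((n : ℝ) + 1) * |B| ∧ 0 < ((n : ℝ) + 1) * |A| ∧
      (a : ℝ) / ((n : ℝ) + 1) * (((n : ℝ) + 1) * |B|) +
        (b : ℝ) / ((n : ℝ) + 1) * (((n : ℝ) + 1) * |A|) = 1 := by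
    refine ⟨by positivity, ?_, by positivity, ?_, ?_, ?_, by positivity, ?_⟩
    · rw [div_lt_one hN0]; linarith
    · rw [div_lt_one hN0]; linarith
    · rw [← add_div, le_div_iff₀ hN0, one_mul]
      exact_mod_cast hab
    · exact mul_le_mul_of_nonneg_left hABle hN0.le
    · rw [← hsum]; field_simp
  obtain ⟨c1, c2, c3, c4, c5, c6, c7, c8⟩ := hcommon
  obtain ⟨ht3, ht4⟩ := abs_le.mp ht2
  obtain ⟨hu3, hu4⟩ := abs_le.mp hu2
  rcases le_or_gt 0 t with h | h
  · exact ⟨_, _, _, _, t, u, c1, c2, c3, c4, c5, c6, c7, c8, h, ht4, by linarith, hu4, hmain⟩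
  · refine ⟨_, _, _, _, -t, -u, c1, c2, c3, c4, c5, c6, c7, c8, by linarith, by linarith,
      by linarith, by linarith, ?_⟩
    intro m k j h1 h2 h3
    have h4 := hmain m k (-j) h1 h2 h3
    have h5 : |(m : ℝ) * -t + k * -u - j| = |(m : ℝ) * t + k * u - ((-j : ℤ) : ℝ)| := by
      rw [← abs_neg]
      congr 1
      push_cast
      ring
    rw [h5]
    exact h4

end Pool.Agent.TH443.J4037
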