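import Pool.Agent.TH37.SD.Defs
import Pool.Agent.TH95.NR.J3
import Pool.Agent.TH95.NR.J4

/-!
# Conjugacy of elements of the base of an HNN extension
-/

set_option autoImplicit false

namespace Pool.Agent.TH443.SDB1

open Pool.Agent.TH54.BU Pool.Agent.TH37.SD Pool.Agent.TH95.NR

theorem hconj : HconjStmt := by
  intro L _ U V ψ hMU hMV hS x x' y hx1 hy
  obtain ⟨P, h0, hw, hex, -, -⟩ := hnn_pl L U V ψ
  obtain ⟨w, hwy⟩ := hex y⁻¹
  have hyw : y = (w.prod ψ)⁻¹ := by rw [hwy, inv_inv]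
  have hg : P.len (HNNExtension.of x : HNNExtension L U V ψ) = 0 := (h0 _).2 ⟨x, rfl⟩
  have hgu : P.len ((w.prod ψ)⁻¹ * HNNExtension.of x * w.prod ψ) = 0 := by
    rw [hwy, inv_inv, hy]
    exact (h0 _).2 ⟨x', rfl⟩
  clear hwy hy
  subst hyw
  rcases w with ⟨x0, l, hl⟩
  match l, hl, hgu with
  | [], hl, hgu =>
    left
    refine ⟨x0⁻¹, ?_⟩
    simp [HNNExtension.NormalWord.ReducedWord.prod]
  | [(e1, x1)], hl, hgu =>
    let T1 : HNNExtension L U V ψ := HNNExtension.t ^ (e1 : ℤ)
    let v1 : HNNExtension.NormalWord.ReducedWord L U V := ⟨x0, [(e1, 1)], by simp⟩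
    let r1 : HNNExtension.NormalWord.ReducedWord L U V := ⟨x1, [], by simp⟩
    have p1 : v1.prod ψ = HNNExtension.of x0 * T1 := by
      simp [v1, T1, HNNExtension.NormalWord.ReducedWord.prod]
    have q1 : HNNExtension.NormalWord.ReducedWord.prod ψ ⟨x0, [(e1, x1)], hl⟩ =
        v1.prod ψ * r1.prod ψ := by
      simp [v1, r1, HNNExtension.NormalWord.ReducedWord.prod, mul_assoc]
    have s1 := J4.pref P _ _ _ _ q1 (by rw [hw, hw, hw]; simp [v1, r1]) hg hgu
    rw [p1] at s1
    have t1 : (HNNExtension.of x0 * T1)⁻¹ * HNNExtension.of x * (HNNExtension.of x0 * T1) =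
        (T1)⁻¹ * HNNExtension.of (x0⁻¹ * x * x0) * T1 := by
      simp [mul_assoc]
    rw [t1] at s1
    obtain ⟨k1, hk1, hk1a, hk1b⟩ := J4.conj_t P hw e1 _ s1
    rcases Int.units_eq_one_or e1 with h1 | h1
    · right; right
      obtain ⟨hx, -⟩ := hk1a h1
      refine ⟨x0⁻¹, x1⁻¹, ?_, ?_⟩
      · simpa using hx
      · subst h1
        simp [HNNExtension.NormalWord.ReducedWord.prod, mul_assoc]
    · right; left
      obtain ⟨hx, -⟩ := hk1b h1
      refine ⟨x0⁻¹, x1⁻¹, ?_, ?_⟩
      · simpa using hx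
      · subst h1
        simp [HNNExtension.NormalWord.ReducedWord.prod, mul_assoc]
  | (e1, x1) :: (e2, x2) :: l, hl, hgu =>
    exfalso
    have hl1 := List.isChain_cons_cons.1 hl
    have c12 : x1 ∈ HNNExtension.toSubgroup U V e1 → e1 = e2 := hl1.1
    let T1 : HNNExtension L U V ψ := HNNExtension.t ^ (e1 : ℤ)
    let T2 : HNNExtension L U V ψ := HNNExtension.t ^ (e2 : ℤ)
    let v1 : HNNExtension.NormalWord.ReducedWord L U V := ⟨x0, [(e1, 1)], by simp⟩
    let r1 : HNNExtension.NormalWord.ReducedWord L U V := ⟨x1, (e2, x2) :: l, hl1.2⟩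
    let v2 : HNNExtension.NormalWord.ReducedWord L U V := ⟨x0, [(e1, x1), (e2, 1)], by
      simp only [List.isChain_cons_cons, List.isChain_singleton, and_true]; exact c12⟩
    let r2 : HNNExtension.NormalWord.ReducedWord L U V := ⟨x2, l, hl1.2.tail⟩
    have p1 : v1.prod ψ = HNNExtension.of x0 * T1 := by
      simp [v1, T1, HNNExtension.NormalWord.ReducedWord.prod]
    have p2 : v2.prod ψ = HNNExtension.of x0 * T1 * HNNExtension.of x1 * T2 := by
      simp [v2, T1, T2, HNNExtension.NormalWord.ReducedWord.prod, mul_assoc]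
    have q1 : HNNExtension.NormalWord.ReducedWord.prod ψ ⟨x0, (e1, x1) :: (e2, x2) :: l,
        hl⟩ = v1.prod ψ * r1.prod ψ := by
      simp [v1, r1, HNNExtension.NormalWord.ReducedWord.prod, mul_assoc]
    have q2 : HNNExtension.NormalWord.ReducedWord.prod ψ ⟨x0, (e1, x1) :: (e2, x2) :: l,
        hl⟩ = v2.prod ψ * r2.prod ψ := by
      simp [v2, r2, HNNExtension.NormalWord.ReducedWord.prod, mul_assoc]
    have s1 := J4.pref P _ _ _ _ q1 (by rw [hw, hw, hw]; simp [v1, r1]; omega) hg hgu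
    have s2 := J4.pref P _ _ _ _ q2 (by rw [hw, hw, hw]; simp [v2, r2]; omega) hg hgu
    rw [p1] at s1
    rw [p2] at s2
    have t1 : (HNNExtension.of x0 * T1)⁻¹ * HNNExtension.of x * (HNNExtension.of x0 * T1) =
        (T1)⁻¹ * HNNExtension.of (x0⁻¹ * x * x0) * T1 := by
      simp [mul_assoc]
    rw [t1] at s1
    obtain ⟨k1, hk1, hk1a, hk1b⟩ := J4.conj_t P hw e1 _ s1
    have t2 : (HNNExtension.of x0 * T1 * HNNExtension.of x1 * T2)⁻¹ * HNNExtension.of x *
        (HNNExtension.of x0 * T1 * HNNExtension.of x1 * T2) =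
        (T2)⁻¹ * HNNExtension.of (x1⁻¹ * k1 * x1) * T2 := by
      rw [map_mul HNNExtension.of, map_mul HNNExtension.of, ← hk1]
      simp [mul_assoc, T1]
    rw [t2] at s2
    obtain ⟨k2, hk2, hk2a, hk2b⟩ := J4.conj_t P hw e2 _ s2
    have hk1n : k1 ≠ 1 := by
      intro h
      rw [h, map_one] at hk1
      have h' := t1.trans hk1
      have : (HNNExtension.of x : HNNExtension L U V ψ) = (HNNExtension.of x0 * T1) *
        ((HNNExtension.of x0 * T1)⁻¹ * HNNExtension.of x * (HNNExtension.of x0 * T1)) *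
        (HNNExtension.of x0 * T1)⁻¹ := by group
      rw [h'] at this
      have h3 : (HNNExtension.of x : HNNExtension L U V ψ) = HNNExtension.of 1 := by
        rw [this, map_one]; group
      exact hx1 (HNNExtension.of_injective _ h3)
    have m1A : e1 = 1 → k1 ∈ U := by
      intro h; obtain ⟨hx, e⟩ := hk1a h; rw [e]; exact SetLike.coe_mem _
    have m1B : e1 = -1 → k1 ∈ V := by
      intro h; obtain ⟨hx, e⟩ := hk1b h; rw [e]; exact SetLike.coe_mem _
    rcases Int.units_eq_one_or e1 with h1 | h1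
    · rcases Int.units_eq_one_or e2 with h2 | h2
      · obtain ⟨hx2, -⟩ := hk2a h2
        exact hS k1 (m1A h1) hk1n x1⁻¹ (by simpa using hx2)
      · obtain ⟨hx2, -⟩ := hk2b h2
        have hm := hMU k1 (m1A h1) hk1n x1⁻¹ (by simpa using hx2)
        have := c12 (by rw [h1]; exact inv_mem_iff.1 hm)
        rw [h1, h2] at this
        exact absurd this (by decide)
    · rcases Int.units_eq_one_or e2 with h2 | h2
      · obtain ⟨hx2, -⟩ := hk2a h2
        have hm := hMV k1 (m1B h1) hk1n x1⁻¹ (by simpa using hx2)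
        have := c12 (by rw [h1]; exact inv_mem_iff.1 hm)
        rw [h1, h2] at this
        exact absurd this (by decide)
      · obtain ⟨hx2, -⟩ := hk2b h2
        refine hS (x1⁻¹ * k1 * x1) hx2 ?_ x1 ?_
        · intro h
          apply hk1n
          have : k1 = x1 * (x1⁻¹ * k1 * x1) * x1⁻¹ := by group
          rw [this, h]; group
        · have : x1 * (x1⁻¹ * k1 * x1) * x1⁻¹ = k1 := by group
          rw [this]
          exact m1B h1

end Pool.Agent.TH443.SDB1
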