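import Pool.Agent.TH152.BB.Stm

/-!
# The expansion of the functions at a place (job 4280)
-/

set_option autoImplicit false
set_option linter.unusedSectionVars false

namespace Pool.Agent.TH443.J4280

open FF Pool.Agent.W603.LV Pool.Agent.TH152.BB

section ring

/-! An abstract expansion: a ring `O` with a residue map `a0 : O → k`, a section `k → O` and a
nonzerodivisor `t` such that `f - a0 f` is a multiple of `t`. -/

variable {k O : Type} [Field k] [CommRing O] [IsDomain O]

structure Exp (a0 : O →+* k) (i : k →+* O) (t : O) (σ : O → O) : Prop where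
  ht : t ≠ 0
  hi : ∀ c, a0 (i c) = c
  h0 : a0 t = 0
  hσ : ∀ f, t * σ f = f - i (a0 f)

variable {a0 : O →+* k} {i : k →+* O} {t : O} {σ : O → O} (h : Exp a0 i t σ)

include h

lemma sig_add (f g : O) : σ (f + g) = σ f + σ g := by
  apply mul_left_cancel₀ h.ht
  rw [mul_add, h.hσ, h.hσ, h.hσ, map_add, map_add]
  ring

lemma sig_mul (f g : O) : σ (f * g) = σ f * g + i (a0 f) * σ g := by
  apply mul_left_cancel₀ h.ht
  rw [mul_add, h.hσ, ← mul_assoc, h.hσ, mul_left_comm, h.hσ, map_mul, map_mul]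
  ring

lemma sig_const (c : k) : σ (i c) = 0 := by
  apply mul_left_cancel₀ h.ht
  rw [h.hσ, h.hi, mul_zero, sub_self]

lemma sig_smul (c : k) (f : O) : σ (i c * f) = i c * σ f := by
  rw [sig_mul h, sig_const h, zero_mul, zero_add, h.hi]

lemma sig_t : σ t = 1 := by
  apply mul_left_cancel₀ h.ht
  rw [h.hσ, h.h0, map_zero, sub_zero, mul_one]

lemma sig_zero : σ 0 = 0 := by
  have := sig_const h 0
  rwa [map_zero] at this

lemma it_add (n : ℕ) (f g : O) : σ^[n] (f + g) = σ^[n] f + σ^[n] g := by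
  induction n generalizing f g with
  | zero => rfl
  | succ n ih => rw [Function.iterate_succ_apply, Function.iterate_succ_apply,
      Function.iterate_succ_apply, sig_add h, ih]

lemma it_smul (n : ℕ) (c : k) (f : O) : σ^[n] (i c * f) = i c * σ^[n] f := by
  induction n generalizing f with
  | zero => rfl
  | succ n ih => rw [Function.iterate_succ_apply, Function.iterate_succ_apply, sig_smul h, ih]

lemma it_zero (n : ℕ) : σ^[n] (0 : O) = 0 := by
  induction n with
  | zero => rfl
  | succ n ih => rw [Function.iterate_succ_apply, sig_zero h, ih]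

omit h in
/-- the expansion -/
noncomputable def ps (a0 : O →+* k) (σ : O → O) (f : O) : PowerSeries k :=
  PowerSeries.mk fun n => a0 (σ^[n] f)

omit h in
lemma ps_rec (f : O) : ps a0 σ f = PowerSeries.C (a0 f) + PowerSeries.X * ps a0 σ (σ f) := by
  ext n
  cases n with
  | zero => simp [ps]
  | succ n =>
    rw [map_add, PowerSeries.coeff_succ_X_mul, PowerSeries.coeff_C, if_neg (Nat.succ_ne_zero n),
      zero_add]
    unfold ps
    rw [PowerSeries.coeff_mk, PowerSeries.coeff_mk, Function.iterate_succ_apply]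

lemma ps_add (f g : O) : ps a0 σ (f + g) = ps a0 σ f + ps a0 σ g := by
  ext n
  rw [map_add]
  unfold ps
  rw [PowerSeries.coeff_mk, PowerSeries.coeff_mk, PowerSeries.coeff_mk, it_add h, map_add]

lemma ps_smul (c : k) (f : O) : ps a0 σ (i c * f) = PowerSeries.C c * ps a0 σ f := by
  ext n
  rw [PowerSeries.coeff_C_mul]
  unfold ps
  rw [PowerSeries.coeff_mk, PowerSeries.coeff_mk, it_smul h, map_mul, h.hi]

lemma ps_zero : ps a0 σ 0 = 0 := by
  ext n
  unfold ps
  rw [PowerSeries.coeff_mk, it_zero h, map_zero, map_zero]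

lemma ps_const (c : k) : ps a0 σ (i c) = PowerSeries.C c := by
  rw [ps_rec, sig_const h, ps_zero h, mul_zero, add_zero, h.hi]

lemma ps_one : ps a0 σ 1 = 1 := by
  have := ps_const h 1
  rwa [map_one, map_one] at this

lemma ps_t : ps a0 σ t = PowerSeries.X := by
  rw [ps_rec, sig_t h, ps_one h, h.h0, map_zero, zero_add, mul_one]

lemma ps_mul (f g : O) : ps a0 σ (f * g) = ps a0 σ f * ps a0 σ g := by
  have key : ∀ f, ps a0 σ (f * g) - ps a0 σ f * ps a0 σ g =
      PowerSeries.X * (ps a0 σ (σ f * g) - ps a0 σ (σ f) * ps a0 σ g) := by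
    intro f
    have hg := ps_rec (a0 := a0) (σ := σ) g
    rw [ps_rec (f * g), sig_mul h, ps_add h, ps_smul h, ps_rec f, map_mul, map_mul]
    linear_combination (-(PowerSeries.C (a0 f))) * hg
  have hn : ∀ (n : ℕ) (f : O),
      PowerSeries.coeff n (ps a0 σ (f * g) - ps a0 σ f * ps a0 σ g) = 0 := by
    intro n
    induction n with
    | zero => intro f; rw [key]; simp
    | succ n ih => intro f; rw [key, PowerSeries.coeff_succ_X_mul]; exact ih (σ f)
  have : ps a0 σ (f * g) - ps a0 σ f * ps a0 σ g = 0 := by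
    ext n
    rw [hn, map_zero]
  exact sub_eq_zero.mp this

/-- the expansion as a ring homomorphism -/
noncomputable def psHom : O →+* PowerSeries k where
  toFun := ps a0 σ
  map_one' := ps_one h
  map_mul' := ps_mul h
  map_zero' := ps_zero h
  map_add' := ps_add h

lemma eq_pow_mul (f : O) (hf : ps a0 σ f = 0) (n : ℕ) : f = t ^ n * σ^[n] f := by
  induction n with
  | zero => simp
  | succ n ih =>
    rw [pow_succ, mul_assoc, Function.iterate_succ_apply', h.hσ]
    have : a0 (σ^[n] f) = 0 := by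
      have h1 := congrArg (PowerSeries.coeff n) hf
      unfold ps at h1
      rwa [PowerSeries.coeff_mk, map_zero] at h1
    rw [this, map_zero, sub_zero]
    exact ih

end ring

theorem comp_all : S_COMP := by
  intro k K _ _ _ _ _ _ P
  have hbij : Function.Bijective (algebraMap k P.RF) :=
    IsAlgClosed.algebraMap_bijective_of_isIntegral (k := k) (K := P.RF)
  let e : k ≃+* P.RF := RingEquiv.ofBijective (algebraMap k P.RF) hbij
  let a0 : P.O →+* k := (e.symm : P.RF →+* k).comp P.resHom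
  let i : k →+* P.O :=
    { toFun := fun c => ⟨algebraMap k K c, P.reg_const c⟩
      map_one' := Subtype.ext (map_one _)
      map_mul' := fun a b => Subtype.ext (map_mul _ a b)
      map_zero' := Subtype.ext (map_zero _)
      map_add' := fun a b => Subtype.ext (map_add _ a b) }
  obtain ⟨t, ht0, ht1⟩ := P.surj
  have htO : P.Reg t := Or.inr (by rw [ht1]; norm_num)
  have ha0i : ∀ c, a0 (i c) = c := by
    intro c
    show e.symm (P.resHom (i c)) = c
    rw [RingEquiv.symm_apply_eq]
    show P.resHom ⟨algebraMap k K c, P.reg_const c⟩ = algebraMap k P.RF c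
    rw [P.algebraMap_RF, P.red_of_reg (P.reg_const c)]
  have ha0 : ∀ f : P.O, a0 f = 0 ↔ ((f : K) = 0 ∨ 0 < P.ord (f : K)) := by
    intro f
    have h1 : a0 f = 0 ↔ P.resHom f = 0 := by
      show e.symm (P.resHom f) = 0 ↔ _
      rw [RingEquiv.symm_apply_eq, map_zero]
    rw [h1, ← P.red_eq_zero_iff f.2, P.red_of_reg f.2]
  have hdiv : ∀ f : P.O, ∃ g : P.O, (⟨t, htO⟩ : P.O) * g = f - i (a0 f) := by
    intro f
    have h1 : a0 (f - i (a0 f)) = 0 := by rw [map_sub, ha0i, sub_self]
    rw [ha0] at h1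
    have hreg : P.Reg (((f - i (a0 f) : P.O) : K) / t) := by
      by_cases h2 : ((f - i (a0 f) : P.O) : K) = 0
      · rw [h2, zero_div]; exact P.reg_zero
      · have h3 := h1.resolve_left h2
        right
        rw [P.ord_div h2 ht0, ht1]
        omega
    refine ⟨⟨((f - i (a0 f) : P.O) : K) / t, hreg⟩, Subtype.ext ?_⟩
    show t * (((f - i (a0 f) : P.O) : K) / t) = ((f - i (a0 f) : P.O) : K)
    field_simp
  choose σ hσ using hdiv
  have hE : Exp a0 i (⟨t, htO⟩ : P.O) σ :=
    { ht := fun h => ht0 (congrArg Subtype.val h)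
      hi := ha0i
      h0 := (ha0 _).2 (Or.inr (by show 0 < P.ord t; rw [ht1]; norm_num))
      hσ := hσ }
  have hinj : Function.Injective (psHom hE) := by
    rw [injective_iff_map_eq_zero]
    intro f hf
    by_contra hne
    have hfK : (f : K) ≠ 0 := fun h => hne (Subtype.ext h)
    have hord : 0 ≤ P.ord (f : K) := (P.reg_iff hfK).1 f.2
    obtain ⟨n, hn⟩ : ∃ n : ℕ, P.ord (f : K) < n := ⟨(P.ord (f : K)).toNat + 1, by omega⟩
    have h1 := eq_pow_mul hE f hf n
    have h2 : (f : K) = t ^ n * ((σ^[n] f : P.O) : K) := congrArg Subtype.val h1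
    have h3 : ((σ^[n] f : P.O) : K) ≠ 0 := by
      intro h4
      rw [h4, mul_zero] at h2
      exact hfK h2
    have h4 : 0 ≤ P.ord ((σ^[n] f : P.O) : K) := (P.reg_iff h3).1 (σ^[n] f).2
    have h5 : P.ord (f : K) = n + P.ord ((σ^[n] f : P.O) : K) := by
      rw [h2, P.ord_mul (pow_ne_zero n ht0) h3, P.ord_pow, ht1, mul_one]
    omega
  let ψ : P.O →+* LaurentSeries k := (HahnSeries.ofPowerSeries ℤ k).comp (psHom hE)
  have hψ : Function.Injective ψ := HahnSeries.ofPowerSeries_injective.comp hinj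
  let φ : K →+* LaurentSeries k := IsFractionRing.lift (A := P.O) (K := K) (g := ψ) hψ
  have hφ : ∀ f : P.O, φ (f : K) = ψ f := fun f =>
    IsFractionRing.lift_algebraMap (A := P.O) (K := K) hψ f
  have hφt : φ t = HahnSeries.single 1 1 := by
    have h1 := hφ ⟨t, htO⟩
    have h2 : ψ ⟨t, htO⟩ = HahnSeries.ofPowerSeries ℤ k (ps a0 σ ⟨t, htO⟩) := rfl
    rw [h2, ps_t hE, HahnSeries.ofPowerSeries_X] at h1
    exact h1
  have hφc : ∀ a, φ (algebraMap k K a) = HahnSeries.C a := by
    intro a
    have h1 := hφ (i a)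
    have h2 : ψ (i a) = HahnSeries.ofPowerSeries ℤ k (ps a0 σ (i a)) := rfl
    rw [h2, ps_const hE, HahnSeries.ofPowerSeries_C] at h1
    exact h1
  have hunit : ∀ u : P.O, (u : K) ≠ 0 → P.ord (u : K) = 0 → (φ (u : K)).order = 0 := by
    intro u hu0 hu1
    rw [hφ]
    have h1 : a0 u ≠ 0 := by
      intro h2
      rcases (ha0 u).1 h2 with h3 | h3
      · exact hu0 h3
      · omega
    have hc : ∀ n : ℤ, n < 0 → (ψ u).coeff n = 0 := by
      intro n hn
      have h2 : ψ u = ((ps a0 σ u : PowerSeries k) : LaurentSeries k) := rfl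
      rw [h2]
      rw [PowerSeries.coeff_coe, if_pos hn]
    have h0 : (ψ u).coeff 0 = a0 u := by
      have h2 : ψ u = ((ps a0 σ u : PowerSeries k) : LaurentSeries k) := rfl
      rw [h2]
      have := LaurentSeries.coeff_coe_powerSeries (ps a0 σ u) 0
      simpa [ps] using this
    have hne : ψ u ≠ 0 := by
      intro h2
      rw [h2] at h0
      exact h1 h0.symm
    apply le_antisymm
    · exact HahnSeries.order_le_of_coeff_ne_zero (by rw [h0]; exact h1)
    · by_contra hlt
      push Not at hlt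
      have := hc _ hlt
      exact hne (HahnSeries.coeff_order_eq_zero.1 this)
  refine ⟨φ, hφc, fun f hf => ?_⟩
  -- `f * t ^ n = u * t ^ m`
  obtain ⟨n, m, hnm⟩ : ∃ n m : ℕ, P.ord f + n = m := by
    rcases le_or_gt 0 (P.ord f) with h1 | h1
    · exact ⟨0, (P.ord f).toNat, by omega⟩
    · exact ⟨(-P.ord f).toNat, 0, by omega⟩
  have htn : t ^ n ≠ 0 := pow_ne_zero n ht0
  have htm : t ^ m ≠ 0 := pow_ne_zero m ht0
  have hu : P.ord (f * t ^ n / t ^ m) = 0 := by
    rw [P.ord_div (mul_ne_zero hf htn) htm, P.ord_mul hf htn, P.ord_pow, P.ord_pow, ht1]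
    omega
  have hu0 : f * t ^ n / t ^ m ≠ 0 := div_ne_zero (mul_ne_zero hf htn) htm
  have h1 := hunit ⟨f * t ^ n / t ^ m, Or.inr hu.ge⟩ hu0 hu
  have h2 : φ f * φ t ^ n = φ (f * t ^ n / t ^ m) * φ t ^ m := by
    rw [← map_pow, ← map_pow, ← map_mul, ← map_mul, div_mul_cancel₀ _ htm]
  have hφf : φ f ≠ 0 := (map_ne_zero φ).2 hf
  have hφtn : φ t ^ n ≠ 0 := pow_ne_zero n ((map_ne_zero φ).2 ht0)
  have hφtm : φ t ^ m ≠ 0 := pow_ne_zero m ((map_ne_zero φ).2 ht0)
  have hφu : φ (f * t ^ n / t ^ m) ≠ 0 := (map_ne_zero φ).2 hu0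
  have h3 := congrArg HahnSeries.order h2
  rw [HahnSeries.order_mul hφf hφtn, HahnSeries.order_mul hφu hφtm, HahnSeries.order_pow,
    HahnSeries.order_pow, hφt, HahnSeries.order_single one_ne_zero] at h3
  have h1' : (φ (f * t ^ n / t ^ m)).order = 0 := h1
  rw [h1'] at h3
  simp only [nsmul_eq_mul, mul_one, zero_add] at h3
  omega

end Pool.Agent.TH443.J4280
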