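import Pool.Agent.TH152.BB.Stm

/-!
# Specialization to a function field in one variable (job 4281)
-/

set_option autoImplicit false

namespace Pool.Agent.TH443.J4281

open FF Pool.Agent.W603.LV Pool.Agent.W603.PV Pool.Agent.TH152.BB
open scoped TensorProduct Polynomial

lemma isFF_ratFunc (k : Type) [Field k] : IsFF k (RatFunc k) := by
  refine IsFF.of_finite (f := (RatFunc.X : RatFunc k)) RatFunc.transcendental_X ?_
  rw [RatFunc.adjoin_X]
  exact Module.Finite.of_surjective
    (Algebra.linearMap (⊤ : IntermediateField k (RatFunc k)) (RatFunc k))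
    fun z => ⟨⟨z, trivial⟩, rfl⟩

lemma spec_gen (k : Type) [Field k] [CharZero k] (A : Type) [CommRing A] [Algebra k A]
    (hA : Algebra.FiniteType k A) (θ : A) (hθ : Transcendental k θ) :
    ∃ (K : Type) (_ : Field K) (_ : Algebra k K) (_ : IsFF k K) (χ : A →ₐ[k] K),
      Transcendental k (χ θ) := by
  let : Algebra k[X] A := (Polynomial.aeval θ : k[X] →ₐ[k] A).toRingHom.toAlgebra
  have halg : ∀ p : k[X], algebraMap k[X] A p = Polynomial.aeval θ p := fun _ => rfl
  have : IsScalarTower k k[X] A := IsScalarTower.of_algebraMap_eq fun c => by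
    rw [halg, Polynomial.algebraMap_eq, Polynomial.aeval_C]
  have : Algebra.FiniteType k[X] A := Algebra.FiniteType.of_restrictScalars_finiteType k k[X] A
  let B : Type := RatFunc k ⊗[k[X]] A
  have : Algebra.FiniteType (RatFunc k) B := Algebra.FiniteType.baseChange (RatFunc k)
  have hinjA : Function.Injective (algebraMap k[X] A) := by
    rw [injective_iff_map_eq_zero]
    intro p hp
    rw [halg] at hp
    by_contra hne
    exact hθ ⟨p, hne, hp⟩
  have : Module.Flat k[X] (RatFunc k) := IsLocalization.flat (RatFunc k) (nonZeroDivisors k[X])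
  have : Nontrivial B := by
    have h1 := Module.Flat.lTensor_preserves_injective_linearMap (M := RatFunc k)
      (Algebra.linearMap k[X] A) hinjA
    have h2 : Function.Injective (TensorProduct.rid k[X] (RatFunc k)).symm :=
      (TensorProduct.rid k[X] (RatFunc k)).symm.injective
    exact (h1.comp h2).nontrivial
  obtain ⟨M, hM⟩ := Ideal.exists_maximal B
  let : Field (B ⧸ M) := Ideal.Quotient.field M
  have : Algebra.FiniteType (RatFunc k) (B ⧸ M) :=
    Algebra.FiniteType.of_surjective (Ideal.Quotient.mkₐ (RatFunc k) M)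
      (Ideal.Quotient.mkₐ_surjective _ _)
  have : Module.Finite (RatFunc k) (B ⧸ M) :=
    finite_of_finite_type_of_isJacobsonRing (RatFunc k) (B ⧸ M)
  have : IsFF k (RatFunc k) := isFF_ratFunc k
  have : IsScalarTower k (RatFunc k) (B ⧸ M) := inferInstance
  have hK : IsFF k (B ⧸ M) := isFF_of_finite (F := RatFunc k)
  let χ0 : A →ₐ[k[X]] B := Algebra.TensorProduct.includeRight
  let χ : A →ₐ[k] B ⧸ M := (Ideal.Quotient.mkₐ k M).comp (χ0.restrictScalars k)
  refine ⟨B ⧸ M, inferInstance, inferInstance, hK, χ, ?_⟩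
  have h1 : χ θ = algebraMap (RatFunc k) (B ⧸ M) RatFunc.X := by
    have h2 : χ0 θ = algebraMap (RatFunc k) B RatFunc.X := by
      have h3 : θ = algebraMap k[X] A Polynomial.X := by rw [halg, Polynomial.aeval_X]
      rw [h3, AlgHom.commutes, ← RatFunc.algebraMap_X, ← IsScalarTower.algebraMap_apply]
    show Ideal.Quotient.mk M (χ0 θ) = _
    rw [h2]
    rfl
  rw [h1]
  exact (transcendental_algebraMap_iff (algebraMap (RatFunc k) (B ⧸ M)).injective).2
    RatFunc.transcendental_X

theorem spec_all : S_SPEC := by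
  intro k _ _ _ A hA θ hθ
  have h1 : Algebra.FiniteType k A := (Subalgebra.fg_iff_finiteType A).1 hA
  refine spec_gen k A h1 θ ?_
  rintro ⟨p, hp, hp0⟩
  have h2 : ∀ m : ℕ, p.eval ((θ : ℕ → k) m) = 0 := by
    intro m
    have h3 : ((Polynomial.aeval θ p : A) : ℕ → k) m = 0 := by rw [hp0]; rfl
    have h4 : ((Polynomial.aeval θ p : A) : ℕ → k) = Polynomial.aeval (θ : ℕ → k) p := by
      exact (Polynomial.aeval_algHom_apply A.val θ p).symm
    rw [h4] at h3
    have h5 := Polynomial.aeval_algHom_apply (Pi.evalAlgHom k (fun _ : ℕ => k) m) (θ : ℕ → k) p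
    have h6 : Polynomial.aeval ((θ : ℕ → k) m) p = 0 := h5.trans h3
    rwa [Polynomial.coe_aeval_eq_eval] at h6
  classical
  apply hθ
  refine (p.roots.toFinset.finite_toSet).subset ?_
  rintro _ ⟨m, rfl⟩
  simp only [Finset.mem_coe, Multiset.mem_toFinset]
  exact (Polynomial.mem_roots hp).2 (h2 m)

end Pool.Agent.TH443.J4281
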