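import Pool.Agent.TH32.H.Fast
import Pool.Agent.TH692.TZH_T3
import Pool.Agent.TH611.TZH_POL

set_option autoImplicit false

namespace Pool.Agent.TH443.TZHd

open Pool.Agent.TH32 Pool.Agent.TH692.TZHT2 Pool.Agent.TH692.TZHT3 Polynomial

theorem pol_append {Λ : ℤ} {L₁ L₂ : List Tm} {l₁ l₂ : List ℤ} (h₁ : PolOK Λ L₁ l₁)
    (h₂ : PolOK Λ L₂ l₂) : PolOK Λ (L₁ ++ L₂) (addF l₁ l₂) := by
  obtain ⟨N₁, D₁, hD₁, H₁⟩ := h₁
  obtain ⟨N₂, D₂, hD₂, H₂⟩ := h₂
  refine ⟨N₁ * D₂ + N₂ * D₁, D₁ * D₂, ?_, fun s hs hreg => ?_⟩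
  · rw [eval_mul]; exact mul_ne_zero hD₁ hD₂
  · obtain ⟨a1, b1⟩ := H₁ s hs fun t ht => hreg t (List.mem_append_left _ ht)
    obtain ⟨a2, b2⟩ := H₂ s hs fun t ht => hreg t (List.mem_append_right _ ht)
    refine ⟨by rw [eval_mul]; exact mul_ne_zero a1 a2, ?_⟩
    rw [List.map_append, List.sum_append, b1, b2, Pool.Agent.TH611.TZHPOL.pval_add, eval_add, eval_mul, eval_mul, eval_mul]
    field_simp
    ring

theorem pol_nil (Λ : ℤ) : PolOK Λ [] [] :=
  ⟨0, 1, by simp, fun s _ _ => ⟨by simp, by simp [pval]⟩⟩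

theorem top_append (u : ℕ) (L₁ L₂ : List Tm) : top u (L₁ ++ L₂) = top u L₁ ++ top u L₂ := by
  simp [top]

theorem goodS_iff {K u : ℕ} {Λ : ℤ} {C : List Fm} {F : Fac} {l : List ℤ} :
    GoodS K u Λ C F l ↔ ∃ L : List Tm, Good1 K C F L ∧ (∀ t ∈ L, t.ds.length ≤ 4 + u) ∧
      PolOK Λ (top u L) l := by
  constructor
  · rintro ⟨L, h1, h2, h3, h4⟩
    exact ⟨L, ⟨h1, h4⟩, h2, h3⟩
  · rintro ⟨L, ⟨h1, h4⟩, h2, h3⟩
    exact ⟨L, h1, h2, h3, h4⟩

theorem goodS_congr {K u : ℕ} {Λ : ℤ} {C : List Fm} {F F' : Fac} {l : List ℤ}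
    (h : ∀ (q x : ℝ) (v : Fin K → ℕ), (∀ c ∈ C, 0 ≤ ev c v) → F.val q x v = F'.val q x v)
    (hg : GoodS K u Λ C F l) : GoodS K u Λ C F' l := by
  rw [goodS_iff] at hg ⊢
  obtain ⟨L, h1, h2, h3⟩ := hg
  exact ⟨L, good1_congr h h1, h2, h3⟩

theorem goodS_split {K u : ℕ} {Λ : ℤ} {C : List Fm} {c : Fm} {a b : Fac} {l₁ l₂ : List ℤ}
    (h₁ : GoodS K u Λ (c :: C) a l₁) (h₂ : GoodS K u Λ (addF [-1] (negF c) :: C) b l₂) :
    GoodS K u Λ C (.it c a b) (addF l₁ l₂) := by
  rw [goodS_iff] at h₁ h₂ ⊢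
  obtain ⟨L₁, a1, a2, a3⟩ := h₁
  obtain ⟨L₂, b1, b2, b3⟩ := h₂
  refine ⟨L₁ ++ L₂, good1_split a1 b1, fun t ht => ?_, ?_⟩
  · rcases List.mem_append.1 ht with ht | ht
    · exact a2 t ht
    · exact b2 t ht
  · rw [top_append]
    exact pol_append a3 b3

theorem goodS_zr (K u : ℕ) (Λ : ℤ) (C : List Fm) : GoodS K u Λ C .zr [] := by
  rw [goodS_iff]
  refine ⟨[], ⟨by simp [okL], fun q x _ _ _ => ⟨by simp [sv], ?_⟩⟩, by simp, pol_nil Λ⟩
  have h0 : sv q x [] = 0 := by simp [sv]
  rw [h0, ENNReal.ofReal_zero, ENNReal.tsum_eq_zero]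
  intro v
  simp [Fac.val]

theorem selF_ev {K : ℕ} (v : Fin K → ℕ) (C : List Fm) (h : ∀ c ∈ C, 0 ≤ ev c v) (m : List ℕ) :
    0 ≤ ev (selF C m) v := by
  induction m with
  | nil => simp [selF, ev]
  | cons i m ih =>
    rw [selF, ev_addF]
    refine add_nonneg ?_ ih
    by_cases hi : i < C.length
    · rw [List.getD_eq_getElem _ _ hi]
      exact h _ (List.getElem_mem hi)
    · rw [List.getD_eq_default _ _ (not_lt.1 hi)]
      simp [ev]

theorem addO_some {x y : Option (List ℤ)} {l : List ℤ} (h : addO x y = some l) :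
    ∃ a b, x = some a ∧ y = some b ∧ l = addF a b := by
  cases x with
  | none => simp [addO] at h
  | some a =>
    cases y with
    | none => simp [addO] at h
    | some b =>
      rw [addO, Option.some.injEq] at h
      exact ⟨a, b, rfl, rfl, h.symm⟩

theorem cons_nonneg {K : ℕ} {v : Fin K → ℕ} {C : List Fm} {c : Fm} (hc : 0 ≤ ev c v)
    (hv : ∀ c ∈ C, 0 ≤ ev c v) : ∀ c' ∈ c :: C, 0 ≤ ev c' v := by
  intro c' hc'
  rcases List.mem_cons.1 hc' with rfl | h
  · exact hc
  · exact hv c' h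

theorem main (hc : FQcStmt) (K u Λ : ℕ) (hΛ : Λ ≠ 0) (F : Fac) : ∀ (p : PT) (C : List Fm)
    (l : List ℤ), run1Q K u Λ F p C = some l → GoodS K u Λ C F l := by
  induction F with
  | zr =>
    intro p C l h
    have : l = [] := by
      cases p <;> · rw [run1Q, Option.some.injEq] at h; exact h.symm
    rw [this]
    exact goodS_zr K u Λ C
  | lf w e f =>
    intro p C l h
    cases p with
    | l t =>
      rw [run1Q] at h
      exact hc K u Λ t C w e f l hΛ h
    | z => simp [run1Q] at h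
    | b x y => simp [run1Q] at h
    | t m x => simp [run1Q] at h
    | f m x => simp [run1Q] at h
  | it c a b iha ihb =>
    intro p C l h
    by_cases h1 : allNN c = true
    · have h' : run1Q K u Λ a p C = some l := by
        cases p <;> simpa [run1Q, h1] using h
      refine goodS_congr (fun q x v _ => ?_) (iha p C l h')
      rw [Fac.val, if_pos (allNN_ev c h1 v)]
    · by_cases h2 : dead c = true
      · have h' : run1Q K u Λ b p C = some l := by
          cases p <;> simpa [run1Q, h1, h2] using h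
        refine goodS_congr (fun q x v _ => ?_) (ihb p C l h')
        rw [Fac.val, if_neg (not_le.2 (dead_ev c h2 v))]
      · cases p with
        | z => simp [run1Q, h1, h2] at h
        | l t => simp [run1Q, h1, h2] at h
        | b x y =>
          have h' : addO (run1Q K u Λ a x (c :: C))
              (run1Q K u Λ b y (addF [-1] (negF c) :: C)) = some l := by
            simpa [run1Q, h1, h2] using h
          obtain ⟨l₁, l₂, e1, e2, rfl⟩ := addO_some h'
          exact goodS_split (iha _ _ _ e1) (ihb _ _ _ e2)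
        | t m x =>
          by_cases h3 : dead (selF (addF [-1] (negF c) :: C) m) = true
          · have h' : run1Q K u Λ a x C = some l := by
              simpa [run1Q, h1, h2, h3] using h
            refine goodS_congr (fun q x v hv => ?_) (iha x C l h')
            rw [Fac.val, if_pos]
            by_contra hneg
            have h4 := selF_ev v (addF [-1] (negF c) :: C)
              (cons_nonneg (by rw [ev_neg1]; omega) hv) m
            have h5 := dead_ev _ h3 v
            omega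
          · simp [run1Q, h1, h2, h3] at h
        | f m x =>
          by_cases h3 : dead (selF (c :: C) m) = true
          · have h' : run1Q K u Λ b x C = some l := by
              simpa [run1Q, h1, h2, h3] using h
            refine goodS_congr (fun q x v hv => ?_) (ihb x C l h')
            rw [Fac.val, if_neg]
            intro hpos
            have h4 := selF_ev v (c :: C) (cons_nonneg hpos hv) m
            have h5 := dead_ev _ h3 v
            omega
          · simp [run1Q, h1, h2, h3] at h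

end Pool.Agent.TH443.TZHd

namespace Pool.Agent.TH443

open Pool.Agent.TH32

theorem fqd : FQdAsm := by
  intro hc K u Λ p F l hΛ h
  exact TZHd.main hc K u Λ hΛ F p [] l h

end Pool.Agent.TH443
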