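import Pool.Agent.TH387.EI.Defs

set_option autoImplicit false
open scoped ComplexOrder InnerProductSpace
noncomputable section

namespace Pool.Agent.TH443.EIC

open scoped ENNReal

universe u v

variable {I : Type v} {K : I → Type v} [∀ i, NormedAddCommGroup (K i)]
  [∀ i, InnerProductSpace ℂ (K i)]

theorem sum_le (T : ∀ i, K i →L[ℂ] K i) {r : ℝ} (hr0 : 0 ≤ r) (hr : ∀ i, ‖T i‖ ≤ r) (f : lp K 2)
    (s : Finset I) :
    ∑ i ∈ s, ‖T i (f i)‖ ^ (2 : ℝ≥0∞).toReal ≤ (r * ‖f‖) ^ (2 : ℝ≥0∞).toReal := by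
  have h2 : 0 < (2 : ℝ≥0∞).toReal := by norm_num
  have h1 := lp.sum_rpow_le_norm_rpow h2 f s
  calc ∑ i ∈ s, ‖T i (f i)‖ ^ (2 : ℝ≥0∞).toReal
      ≤ ∑ i ∈ s, r ^ (2 : ℝ≥0∞).toReal * ‖f i‖ ^ (2 : ℝ≥0∞).toReal := by
        apply Finset.sum_le_sum
        intro i _
        rw [← Real.mul_rpow hr0 (norm_nonneg _)]
        apply Real.rpow_le_rpow (norm_nonneg _) _ h2.le
        exact ((T i).le_opNorm _).trans (mul_le_mul_of_nonneg_right (hr i) (norm_nonneg _))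
    _ = r ^ (2 : ℝ≥0∞).toReal * ∑ i ∈ s, ‖f i‖ ^ (2 : ℝ≥0∞).toReal := by rw [Finset.mul_sum]
    _ ≤ r ^ (2 : ℝ≥0∞).toReal * ‖f‖ ^ (2 : ℝ≥0∞).toReal :=
        mul_le_mul_of_nonneg_left h1 (Real.rpow_nonneg hr0 _)
    _ = (r * ‖f‖) ^ (2 : ℝ≥0∞).toReal := by rw [Real.mul_rpow hr0 (norm_nonneg _)]

/-- diagonal operator, as a linear map -/
def dgL (T : ∀ i, K i →L[ℂ] K i) {r : ℝ} (hr0 : 0 ≤ r) (hr : ∀ i, ‖T i‖ ≤ r) :
    lp K 2 →ₗ[ℂ] lp K 2 where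
  toFun f := ⟨fun i => T i (f i), memℓp_gen' (sum_le T hr0 hr f)⟩
  map_add' f g := by
    apply lp.ext
    funext i
    show T i ((f + g) i) = T i (f i) + T i (g i)
    rw [← map_add]; rfl
  map_smul' c f := by
    apply lp.ext
    funext i
    show T i ((c • f) i) = c • T i (f i)
    rw [← map_smul]; rfl

/-- diagonal operator -/
def dgC (T : ∀ i, K i →L[ℂ] K i) {r : ℝ} (hr0 : 0 ≤ r) (hr : ∀ i, ‖T i‖ ≤ r) :
    lp K 2 →L[ℂ] lp K 2 :=
  (dgL T hr0 hr).mkContinuous r fun f => by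
    have h2 : 0 < (2 : ℝ≥0∞).toReal := by norm_num
    apply lp.norm_le_of_forall_sum_le h2 (mul_nonneg hr0 (norm_nonneg _))
    exact sum_le T hr0 hr f

theorem dgC_apply (T : ∀ i, K i →L[ℂ] K i) {r : ℝ} (hr0 : 0 ≤ r) (hr : ∀ i, ‖T i‖ ≤ r)
    (f : lp K 2) (i : I) : dgC T hr0 hr f i = T i (f i) := rfl

/-- The direct sum of a family of representations. -/
def dsum {A : Type u} [NonUnitalCStarAlgebra A] [∀ i, CompleteSpace (K i)]
    (σ : ∀ i, A →⋆ₙₐ[ℂ] (K i →L[ℂ] K i)) : A →⋆ₙₐ[ℂ] (lp K 2 →L[ℂ] lp K 2) :=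
  have hn : ∀ (a : A) (i : I), ‖σ i a‖ ≤ ‖a‖ := fun a i =>
    NonUnitalStarAlgHom.norm_apply_le (σ i) a
  { toFun := fun a => dgC (fun i => σ i a) (norm_nonneg a) (hn a)
    map_mul' := fun a b => by
      ext f i
      rw [dgC_apply, map_mul]
      rfl
    map_zero' := by
      ext f i
      rw [dgC_apply, map_zero]
      rfl
    map_add' := fun a b => by
      ext f i
      rw [dgC_apply, map_add]
      rfl
    map_smul' := fun c a => by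
      ext f i
      rw [dgC_apply, map_smul]
      rfl
    map_star' := fun a => by
      rw [ContinuousLinearMap.star_eq_adjoint, ContinuousLinearMap.eq_adjoint_iff]
      intro f g
      rw [lp.inner_eq_tsum, lp.inner_eq_tsum]
      apply tsum_congr
      intro i
      rw [dgC_apply, dgC_apply, map_star, ContinuousLinearMap.star_eq_adjoint,
        ContinuousLinearMap.adjoint_inner_left] }

theorem dsum_apply {A : Type u} [NonUnitalCStarAlgebra A] [∀ i, CompleteSpace (K i)]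
    (σ : ∀ i, A →⋆ₙₐ[ℂ] (K i →L[ℂ] K i)) (a : A) (f : lp K 2) (i : I) :
    dsum σ a f i = σ i a (f i) := rfl

theorem dsum_ne {A : Type u} [NonUnitalCStarAlgebra A] [∀ i, CompleteSpace (K i)]
    (σ : ∀ i, A →⋆ₙₐ[ℂ] (K i →L[ℂ] K i)) (a : A) (i : I) (h : σ i a ≠ 0) : dsum σ a ≠ 0 := by
  classical
  intro h0
  apply h
  ext x
  have h1 : dsum σ a (lp.single 2 i x) i = 0 := by
    rw [h0]; rfl
  rwa [dsum_apply, lp.single_apply_self] at h1

theorem dsum_inj {A : Type u} [NonUnitalCStarAlgebra A] [∀ i, CompleteSpace (K i)]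
    (σ : ∀ i, A →⋆ₙₐ[ℂ] (K i →L[ℂ] K i)) (h : ∀ a : A, a ≠ 0 → ∃ i, σ i a ≠ 0) :
    Function.Injective (dsum σ) := by
  intro a b hab
  by_contra hne
  obtain ⟨i, hi⟩ := h (a - b) (sub_ne_zero.2 hne)
  exact dsum_ne σ (a - b) i hi (by rw [map_sub, hab, sub_self])

end Pool.Agent.TH443.EIC

namespace Pool.Agent.TH387.EI
universe u

open Pool.Agent.TH443.EIC

theorem common (A B : Type u) [NonUnitalCStarAlgebra A] [NonUnitalCStarAlgebra B]
    (hirr : ∀ (C : Type u) [NonUnitalCStarAlgebra C] (b : C), b ≠ 0 →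
      ∃ (K : Type u) (_ : NormedAddCommGroup K) (_ : InnerProductSpace ℂ K) (_ : CompleteSpace K)
      (π : C →⋆ₙₐ[ℂ] (K →L[ℂ] K)), π b ≠ 0) :
    ∃ (L : Type u) (_ : NormedAddCommGroup L) (_ : InnerProductSpace ℂ L) (_ : CompleteSpace L)
      (ρA : A →⋆ₙₐ[ℂ] (L →L[ℂ] L)) (ρB : B →⋆ₙₐ[ℂ] (L →L[ℂ] L)), Function.Injective ρA ∧
      Function.Injective ρB ∧ dKK (Set.range ρA) (Set.range ρB) ≤ 1 := by
  have key : ∀ i : {a : A // a ≠ 0} ⊕ {b : B // b ≠ 0},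
      ∃ (K : Type u) (_ : NormedAddCommGroup K) (_ : InnerProductSpace ℂ K) (_ : CompleteSpace K)
      (πA : A →⋆ₙₐ[ℂ] (K →L[ℂ] K)) (πB : B →⋆ₙₐ[ℂ] (K →L[ℂ] K)),
      (∀ a : {a : A // a ≠ 0}, i = Sum.inl a → πA a.1 ≠ 0) ∧
      (∀ b : {b : B // b ≠ 0}, i = Sum.inr b → πB b.1 ≠ 0) := by
    rintro (a | b)
    · obtain ⟨K, n1, n2, n3, π, hπ⟩ := hirr A a.1 a.2
      refine ⟨K, n1, n2, n3, π, 0, ?_, ?_⟩
      · intro a' h
        rw [← Sum.inl_injective h]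
        exact hπ
      · intro b h
        cases h
    · obtain ⟨K, n1, n2, n3, π, hπ⟩ := hirr B b.1 b.2
      refine ⟨K, n1, n2, n3, 0, π, ?_, ?_⟩
      · intro a h
        cases h
      · intro b' h
        rw [← Sum.inr_injective h]
        exact hπ
  choose K n1 n2 n3 πA πB hA hB using key
  refine ⟨lp K 2, inferInstance, inferInstance, inferInstance, dsum πA, dsum πB,
    dsum_inj _ fun a ha => ⟨Sum.inl ⟨a, ha⟩, hA _ ⟨a, ha⟩ rfl⟩,
    dsum_inj _ fun b hb => ⟨Sum.inr ⟨b, hb⟩, hB _ ⟨b, hb⟩ rfl⟩, ?_⟩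
  have aux : ∀ S T : Set (lp K 2 →L[ℂ] lp K 2), (0 : lp K 2 →L[ℂ] lp K 2) ∈ T →
      sSup ((fun a => Metric.infDist a T) '' (S ∩ Metric.closedBall 0 1)) ≤ 1 := by
    intro S T h0
    refine Real.sSup_le ?_ zero_le_one
    rintro _ ⟨a, ⟨_, ha⟩, rfl⟩
    exact (Metric.infDist_le_dist_of_mem h0).trans ha
  exact max_le (aux _ _ ⟨0, map_zero _⟩) (aux _ _ ⟨0, map_zero _⟩)

end Pool.Agent.TH387.EI
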