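import Pool.Agent.TH387.EI.Defs

set_option autoImplicit false
open scoped ComplexOrder InnerProductSpace
noncomputable section

namespace Pool.Agent.TH443.EIF

open Pool.Agent.TH387.EI

universe u

variable {H K : Type u} [NormedAddCommGroup H] [InnerProductSpace ℂ H] [CompleteSpace H]
  [NormedAddCommGroup K] [InnerProductSpace ℂ K] [CompleteSpace K]

theorem dens {V : H → K} {δ : ℝ} (_hδ : 0 < δ) (hδ1 : δ ≤ 1 / 100000) (hV : NW V δ) {k : K} {c : ℝ}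
    (hc : ∀ θ : H, ‖θ‖ ≤ 1 → ‖⟪V θ, k⟫_ℂ‖ ≤ c) : ‖k‖ ≤ 2 * c := by
  have hc0 : 0 ≤ c := (norm_nonneg _).trans (hc 0 (by simp))
  by_cases hk : k = 0
  · rw [hk, norm_zero]; linarith
  have hkn : 0 < ‖k‖ := norm_pos_iff.2 hk
  set k' : K := ((‖k‖⁻¹ : ℝ) : ℂ) • k with hk'
  have hk'n : ‖k'‖ = 1 := by
    rw [hk', norm_smul, Complex.norm_real, norm_inv, norm_norm, inv_mul_cancel₀ hkn.ne']
  obtain ⟨θ, hθ, hθ2⟩ := hV.dense k' hk'n.le
  have h1 : ⟪k', k⟫_ℂ = (‖k‖ : ℂ) := by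
    rw [hk', inner_smul_left, Complex.conj_ofReal, inner_self_eq_norm_sq_to_K]
    push_cast
    field_simp
    simp
  have h2 : ⟪k', k⟫_ℂ = ⟪V θ, k⟫_ℂ - ⟪V θ - k', k⟫_ℂ := by
    rw [inner_sub_left]; ring
  have h3 : ‖k‖ ≤ c + δ * ‖k‖ := by
    calc ‖k‖ = ‖⟪k', k⟫_ℂ‖ := by rw [h1, Complex.norm_real, norm_norm]
      _ ≤ ‖⟪V θ, k⟫_ℂ‖ + ‖⟪V θ - k', k⟫_ℂ‖ := by rw [h2]; exact norm_sub_le _ _
      _ ≤ c + ‖V θ - k'‖ * ‖k‖ := add_le_add (hc θ hθ) (norm_inner_le_norm _ _)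
      _ ≤ c + δ * ‖k‖ := by gcongr
  nlinarith

theorem add_est {V : H → K} {δ : ℝ} (hδ : 0 < δ) (hδ1 : δ ≤ 1 / 100000) (hV : NW V δ)
    {a e s : H} {l : ℂ} (ha : ‖a‖ ≤ 1) (he : ‖e‖ ≤ 1) (hl : ‖l‖ ≤ 1) (hs : ‖s‖ ≤ 1)
    (h : s = a + l • e) : ‖V a + l • V e - V s‖ ≤ 6 * δ := by
  have := dens (c := 3 * δ) hδ hδ1 hV (k := V a + l • V e - V s) (fun θ hθ => by
    have e1 : ⟪V θ, V a + l • V e - V s⟫_ℂ =
        (⟪V θ, V a⟫_ℂ - ⟪θ, a⟫_ℂ) + l * (⟪V θ, V e⟫_ℂ - ⟪θ, e⟫_ℂ) -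
          (⟪V θ, V s⟫_ℂ - ⟪θ, s⟫_ℂ) := by
      rw [h, inner_sub_right, inner_add_right, inner_smul_right, inner_add_right,
        inner_smul_right]
      ring
    rw [e1]
    have h1 := hV.inner θ a hθ ha
    have h2 := hV.inner θ e hθ he
    have h3 := hV.inner θ s hθ hs
    have h4 : ‖l * (⟪V θ, V e⟫_ℂ - ⟪θ, e⟫_ℂ)‖ ≤ δ := by
      rw [norm_mul]
      calc ‖l‖ * ‖⟪V θ, V e⟫_ℂ - ⟪θ, e⟫_ℂ‖ ≤ 1 * δ := by gcongr
        _ = δ := one_mul _
    have h5 := norm_sub_le ((⟪V θ, V a⟫_ℂ - ⟪θ, a⟫_ℂ) + l * (⟪V θ, V e⟫_ℂ - ⟪θ, e⟫_ℂ))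
      (⟪V θ, V s⟫_ℂ - ⟪θ, s⟫_ℂ)
    have h6 := norm_add_le (⟪V θ, V a⟫_ℂ - ⟪θ, a⟫_ℂ) (l * (⟪V θ, V e⟫_ℂ - ⟪θ, e⟫_ℂ))
    linarith)
  linarith

end Pool.Agent.TH443.EIF

namespace Pool.Agent.TH387.EI
universe u

open Pool.Agent.TH443.EIF

variable {H K : Type u} [NormedAddCommGroup H] [InnerProductSpace ℂ H] [CompleteSpace H]
  [NormedAddCommGroup K] [InnerProductSpace ℂ K] [CompleteSpace K]

theorem finite_dim (V : H → K) (δ : ℝ) (hδ : 0 < δ) (hδ1 : δ ≤ 1 / 100000) (hV : NW V δ)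
    (himp : ∀ (P : Submodule ℂ H) [FiniteDimensional ℂ P] (W₀ : P →ₗ[ℂ] K),
      Good V P W₀ (1 / 8) → ∃ W : P →ₗ[ℂ] K, Good V P W (2000 * δ))
    (P : Submodule ℂ H) [FiniteDimensional ℂ P] :
    ∃ W : P →ₗ[ℂ] K, Good V P W (2000 * δ) := by
  induction hn : Module.finrank ℂ P using Nat.strong_induction_on generalizing P with
  | _ n ih =>
    by_cases hP : P = ⊥
    · refine ⟨0, fun η _ => ?_⟩
      have h0 : (η : H) = 0 := by
        have h1 := η.2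
        have h2 : ∀ x : H, x ∈ P → x = 0 := fun x hx => by
          rw [hP] at hx
          exact (Submodule.mem_bot ℂ).1 hx
        exact h2 _ h1
      rw [h0, LinearMap.zero_apply, zero_sub, norm_neg]
      have := dens (c := δ) hδ hδ1 hV (k := V 0) (fun θ hθ => by
        have h1 := hV.inner θ 0 hθ (by simp)
        rwa [inner_zero_right, sub_zero] at h1)
      linarith
    · obtain ⟨e0, he0, hne⟩ := Submodule.exists_mem_ne_zero_of_ne_bot hP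
      have hen : 0 < ‖e0‖ := norm_pos_iff.2 hne
      set e : H := ((‖e0‖⁻¹ : ℝ) : ℂ) • e0 with he
      have heP : e ∈ P := P.smul_mem _ he0
      have he1 : ‖e‖ = 1 := by
        rw [he, norm_smul, Complex.norm_real, norm_inv, norm_norm, inv_mul_cancel₀ hen.ne']
      have hee : ⟪e, e⟫_ℂ = 1 := by
        rw [inner_self_eq_norm_sq_to_K, he1]; simp
      let P1 : Submodule ℂ H := P ⊓ (Submodule.span ℂ {e})ᗮ
      have hP1 : P1 ≤ P := inf_le_left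
      have hmem : ∀ x : H, x ∈ P1 ↔ x ∈ P ∧ ⟪e, x⟫_ℂ = 0 := fun x => by
        rw [Submodule.mem_inf, Submodule.mem_orthogonal_singleton_iff_inner_right]
      have hlt : P1 < P := by
        refine lt_of_le_of_ne hP1 fun h => ?_
        have : e ∈ P1 := by rw [h]; exact heP
        rw [hmem, hee] at this
        exact one_ne_zero this.2
      have : FiniteDimensional ℂ P1 := Submodule.finiteDimensional_of_le hP1
      obtain ⟨W1, hW1⟩ := ih (Module.finrank ℂ P1) (by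
        rw [← hn]; exact Submodule.finrank_lt_finrank_of_lt hlt) P1 rfl
      let p : H →ₗ[ℂ] H := LinearMap.id - ((innerSL ℂ e).smulRight e : H →L[ℂ] H).toLinearMap
      have hp : ∀ x, p x = x - ⟪e, x⟫_ℂ • e := fun x => by
        simp [p]
      have hpP : ∀ x : P, p x ∈ P1 := fun x => by
        rw [hmem, hp]
        refine ⟨P.sub_mem x.2 (P.smul_mem _ heP), ?_⟩
        rw [inner_sub_right, inner_smul_right, hee, mul_one, sub_self]
      let q : P →ₗ[ℂ] P1 := (p.domRestrict P).codRestrict P1 hpP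
      have hq : ∀ x : P, ((q x : P1) : H) = (x : H) - ⟪e, (x : H)⟫_ℂ • e := fun x => hp x
      let W0 : P →ₗ[ℂ] K := W1 ∘ₗ q +
        (((innerSL ℂ e).smulRight (V e) : H →L[ℂ] K).toLinearMap.domRestrict P)
      have hW0 : ∀ x : P, W0 x = W1 (q x) + ⟪e, (x : H)⟫_ℂ • V e := fun x => by
        simp [W0]
      refine himp P W0 fun η hη => ?_
      have hl : ‖⟪e, (η : H)⟫_ℂ‖ ≤ 1 := by
        calc ‖⟪e, (η : H)⟫_ℂ‖ ≤ ‖e‖ * ‖(η : H)‖ := norm_inner_le_norm _ _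
          _ ≤ 1 := by rw [he1, one_mul]; exact hη
      have hq1 : ‖((q η : P1) : H)‖ ≤ 1 := by
        have h1 : (η : H) = ((q η : P1) : H) + ⟪e, (η : H)⟫_ℂ • e := by rw [hq]; abel
        have h2 : ⟪((q η : P1) : H), ⟪e, (η : H)⟫_ℂ • e⟫_ℂ = 0 := by
          have h2' : ⟪((q η : P1) : H), e⟫_ℂ = 0 := by
            rw [← inner_conj_symm, ((hmem _).1 (q η).2).2, map_zero]
          rw [inner_smul_right, h2', mul_zero]
        have h3 := norm_add_sq_eq_norm_sq_add_norm_sq_of_inner_eq_zero _ _ h2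
        rw [← h1] at h3
        have h4 : ‖(η : H)‖ * ‖(η : H)‖ ≤ 1 := by
          have : ‖(η : H)‖ ≤ 1 := hη
          nlinarith [norm_nonneg (η : H)]
        have h5 := mul_self_nonneg ‖⟪e, (η : H)⟫_ℂ • e‖
        nlinarith [norm_nonneg ((q η : P1) : H)]
      have h1 := hW1 (q η) hq1
      have h2 := add_est (s := (η : H)) hδ hδ1 hV hq1 he1.le hl hη (by rw [hq]; abel)
      rw [hW0]
      have h3 : W1 (q η) + ⟪e, (η : H)⟫_ℂ • V e - V η =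
          (W1 (q η) - V ((q η : P1) : H)) +
            (V ((q η : P1) : H) + ⟪e, (η : H)⟫_ℂ • V e - V η) := by abel
      rw [h3]
      have h4 := norm_add_le (W1 (q η) - V ((q η : P1) : H))
        (V ((q η : P1) : H) + ⟪e, (η : H)⟫_ℂ • V e - V η)
      linarith

end Pool.Agent.TH387.EI
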