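import Pool.Agent.TH981.SD.Stm
import Pool.Agent.TH443.SD.Limit

set_option autoImplicit false

open Pool.Agent.TH981.SD
open Finset Set Filter
open scoped BigOperators Topology Classical

namespace Pool.Agent.TH443.J2223

open Pool.Agent.TH443.SD

lemma lam_nonneg (α : ℝ) (d : ℕ) : 0 ≤ lam α d := Real.rpow_nonneg (Nat.cast_nonneg d) α

/-- Picard iteration -/
noncomputable def X (α z : ℝ) : ℕ → ℕ → ℝ → ℝ
  | 0 => fun _ _ => 0
  | (n + 1) => fun d => sol (lam α d) z (fun s => lam α d * (X α z n 1 s * X α z n (d + 1) s))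

section

variable {α z : ℝ}

lemma X_cont (n : ℕ) : ∀ d, Continuous (X α z n d) := by
  induction n with
  | zero => intro d; exact continuous_const
  | succ n ih =>
    intro d
    apply sol_continuous
    have h1 := ih 1
    have h2 := ih (d + 1)
    fun_prop

lemma X_der (n d : ℕ) (t : ℝ) :
    HasDerivAt (X α z (n + 1) d)
      (lam α d * (X α z n 1 t * X α z n (d + 1) t - X α z (n + 1) d t)) t := by
  have h1 := X_cont (α := α) (z := z) n 1
  have h2 := X_cont (α := α) (z := z) n (d + 1)
  have h := sol_hasDerivAt (c := lam α d) (g0 := z)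
    (f := fun s => lam α d * (X α z n 1 s * X α z n (d + 1) s)) (by fun_prop) t
  refine h.congr_deriv ?_
  simp only [X]
  ring

lemma X_init (n d : ℕ) : X α z (n + 1) d 0 = z := by
  simp [X, sol_zero]

lemma X_nonneg (hz : 0 < z) (n : ℕ) : ∀ d t, 0 ≤ t → 0 ≤ X α z n d t := by
  induction n with
  | zero => intro d t _; exact le_refl _
  | succ n ih =>
    intro d t ht
    refine comp1 (c := lam α d) (T := t) (w := fun _ => 0) (E := X α z (n + 1) d)
      (w' := fun _ => 0)
      (E' := fun t => lam α d * (X α z n 1 t * X α z n (d + 1) t - X α z (n + 1) d t))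
      continuousOn_const
      (X_cont _ _).continuousOn (fun s _ => hasDerivWithinAt_const _ _ _)
      (fun s _ => (X_der n d s).hasDerivWithinAt) ?_ ?_ t ⟨ht, le_refl _⟩
    · show (0:ℝ) ≤ _
      rw [X_init]; exact hz.le
    · intro s hs
      have h1 := mul_nonneg (ih 1 s hs.1) (ih (d + 1) s hs.1)
      have h3 := mul_nonneg (lam_nonneg α d) h1
      nlinarith

lemma X_le (hz : 0 < z) (hz1 : z < 1) (n : ℕ) : ∀ d t, 0 ≤ t → X α z n d t ≤ z := by
  induction n with
  | zero => intro d t _; exact hz.le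
  | succ n ih =>
    intro d t ht
    refine comp1 (c := lam α d) (T := t) (w := X α z (n + 1) d) (E := fun _ => z)
      (w' := fun t => lam α d * (X α z n 1 t * X α z n (d + 1) t - X α z (n + 1) d t))
      (E' := fun _ => 0)
      (X_cont _ _).continuousOn continuousOn_const
      (fun s _ => (X_der n d s).hasDerivWithinAt) (fun s _ => hasDerivWithinAt_const _ _ _)
      ?_ ?_ t ⟨ht, le_refl _⟩
    · show _ ≤ z
      rw [X_init]
    · intro s hs
      have h1 : X α z n 1 s * X α z n (d + 1) s ≤ z * 1 :=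
        mul_le_mul (ih 1 s hs.1) ((ih (d + 1) s hs.1).trans hz1.le)
          (X_nonneg hz n (d + 1) s hs.1) hz.le
      have h3 := mul_le_mul_of_nonneg_left h1 (lam_nonneg α d)
      nlinarith

lemma X_mono (hz : 0 < z) (n : ℕ) : ∀ d t, 0 ≤ t → X α z n d t ≤ X α z (n + 1) d t := by
  induction n with
  | zero =>
    intro d t ht
    exact X_nonneg hz 1 d t ht
  | succ n ih =>
    intro d t ht
    refine comp1 (c := lam α d) (T := t) (w := X α z (n + 1) d)
      (E := X α z (n + 2) d)
      (w' := fun t => lam α d * (X α z n 1 t * X α z n (d + 1) t - X α z (n + 1) d t))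
      (E' := fun t => lam α d *
        (X α z (n + 1) 1 t * X α z (n + 1) (d + 1) t - X α z (n + 2) d t))
      (X_cont _ _).continuousOn
      (X_cont _ _).continuousOn (fun s _ => (X_der n d s).hasDerivWithinAt)
      (fun s _ => (X_der (n + 1) d s).hasDerivWithinAt) ?_ ?_ t ⟨ht, le_refl _⟩
    · rw [X_init, X_init]
    · intro s hs
      have h1 := mul_le_mul (ih 1 s hs.1) (ih (d + 1) s hs.1) (X_nonneg hz n (d + 1) s hs.1)
        (X_nonneg hz (n + 1) 1 s hs.1)
      have h3 := mul_le_mul_of_nonneg_left h1 (lam_nonneg α d)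
      nlinarith

end

theorem yex : S_YEX := by
  intro α z h0 h01 hz hz1
  set w := X α z with hw
  have hBA : ∀ d t, 0 ≤ t → BddAbove (Set.range (fun n => w n d t)) := by
    intro d t ht
    exact ⟨z, by rintro _ ⟨n, rfl⟩; exact X_le hz hz1 n d t ht⟩
  set u : ℕ → ℝ → ℝ := fun d t => ⨆ n, w n d t with hudef
  have hlim : ∀ d t, 0 ≤ t → Tendsto (fun n => w n d t) atTop (𝓝 (u d t)) := fun d t ht =>
    tendsto_atTop_ciSup (monotone_nat_of_le_succ fun n => X_mono hz n d t ht) (hBA d t ht)
  have hle : ∀ n d t, 0 ≤ t → w n d t ≤ u d t := fun n d t ht => le_ciSup (hBA d t ht) n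
  have hsol : ∀ d, ContinuousOn (u d) (Ici 0) ∧
      (ContinuousOn (fun s => lam α d * (u 1 s * u (d + 1) s))
        (Ici 0) → ∀ t, 0 ≤ t → HasDerivWithinAt (u d)
          (lam α d * (u 1 t * u (d + 1) t) - lam α d * u d t) (Ici 0) t) := by
    intro d
    refine (lim_sol (c := lam α d) (g0 := z) (F := fun n => w n d)
      (Φ := fun n s => lam α d * (w n 1 s * w n (d + 1) s))
      (f := u d) (φ := fun s => lam α d * (u 1 s * u (d + 1) s)) ?_ ?_ ?_ ?_ ?_).2
    · intro n
      have a1 := X_cont (α := α) (z := z) n 1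
      have a2 := X_cont (α := α) (z := z) n (d + 1)
      rw [hw]
      fun_prop
    · intro n t ht
      rfl
    · exact fun t ht => hlim d t ht
    · intro t ht
      exact (((hlim 1 t ht).mul (hlim (d + 1) t ht))).const_mul (lam α d)
    · intro T hT
      refine ⟨lam α d * (z * z), fun n t ht => ?_⟩
      have b1 := X_le (α := α) hz hz1 n 1 t ht.1
      have b2 := X_le (α := α) hz hz1 n (d + 1) t ht.1
      have b3 := X_nonneg (α := α) hz n 1 t ht.1
      have b4 := X_nonneg (α := α) hz n (d + 1) t ht.1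
      rw [abs_of_nonneg (mul_nonneg (lam_nonneg α d) (mul_nonneg b3 b4))]
      exact mul_le_mul_of_nonneg_left (mul_le_mul b1 b2 b4 hz.le) (lam_nonneg α d)
  refine ⟨u, ?_, ?_, ?_, ?_⟩
  · intro d
    have h2 : Tendsto (fun n => w (n + 1) d 0) atTop (𝓝 (u d 0)) :=
      (tendsto_add_atTop_iff_nat 1).2 (hlim d 0 le_rfl)
    have h3 : (fun n => w (n + 1) d 0) = fun _ => z := by
      funext n
      exact X_init n d
    rw [h3] at h2
    exact tendsto_nhds_unique tendsto_const_nhds h2 |>.symm
  · intro d t ht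
    have h2 := (hsol d).2 (continuousOn_const.mul ((hsol 1).1.mul (hsol (d + 1)).1)) t ht
    refine h2.congr_deriv ?_
    ring
  · intro d t ht
    refine lt_of_lt_of_le ?_ (hle 1 d t ht)
    have : w 1 d t = Real.exp (-(lam α d * t)) * z := by
      simp [hw, X, sol]
    rw [this]
    positivity
  · intro d t ht
    exact ciSup_le fun n => X_le hz hz1 n d t ht

end Pool.Agent.TH443.J2223
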