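import Pool.Agent.TH981.SD.Stm
import Pool.Agent.TH443.SD.Limit

set_option autoImplicit false

open Pool.Agent.TH981.SD
open Finset Set Filter
open scoped BigOperators Topology Classical

namespace Pool.Agent.TH443.J2227

open Pool.Agent.TH443.SD

/-- `lam α d ≤ ε d + C` -/
lemma lam_le {α ε : ℝ} (h0 : 0 < α) (h1 : α < 1) (hε : 0 < ε) :
    ∃ C : ℝ, 0 ≤ C ∧ ∀ d : ℕ, lam α d ≤ ε * d + C := by
  have hε' : 0 ≤ (1 / ε) := by positivity
  refine ⟨(1 / ε) ^ (α / (1 - α)), by positivity, fun d => ?_⟩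
  unfold lam
  by_cases hd : (d : ℝ) ≤ (1 / ε) ^ (1 / (1 - α))
  · have h2 : (d : ℝ) ^ α ≤ ((1 / ε) ^ (1 / (1 - α))) ^ α :=
      Real.rpow_le_rpow (Nat.cast_nonneg d) hd h0.le
    rw [← Real.rpow_mul hε'] at h2
    have e : 1 / (1 - α) * α = α / (1 - α) := by ring
    rw [e] at h2
    have : 0 ≤ ε * (d : ℝ) := by positivity
    linarith
  · push Not at hd
    have hdp : (0 : ℝ) < d := lt_of_le_of_lt (by positivity) hd
    have h3 : ((1 / ε) ^ (1 / (1 - α))) ^ (1 - α) ≤ (d : ℝ) ^ (1 - α) :=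
      Real.rpow_le_rpow (by positivity) hd.le (by linarith)
    rw [← Real.rpow_mul hε', one_div_mul_cancel (by linarith : (1 - α) ≠ 0), Real.rpow_one] at h3
    have h4 : (d : ℝ) ^ α * (d : ℝ) ^ (1 - α) = d := by
      rw [← Real.rpow_add hdp]; simp
    have h5 : 0 ≤ (d : ℝ) ^ α := by positivity
    have h6 : (d : ℝ) ^ α * (1 / ε) ≤ d := by
      calc (d : ℝ) ^ α * (1 / ε) ≤ (d : ℝ) ^ α * (d : ℝ) ^ (1 - α) :=
            mul_le_mul_of_nonneg_left h3 h5
        _ = d := h4
    have h7 : (d : ℝ) ^ α ≤ ε * d := by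
      have := mul_le_mul_of_nonneg_left h6 hε.le
      have e : ε * ((d : ℝ) ^ α * (1 / ε)) = (d : ℝ) ^ α := by field_simp
      linarith
    have : 0 ≤ (1 / ε) ^ (α / (1 - α)) := by positivity
    linarith

lemma lam_nonneg (α : ℝ) (d : ℕ) : 0 ≤ lam α d := Real.rpow_nonneg (Nat.cast_nonneg d) α

lemma lam_mono {α : ℝ} (h0 : 0 < α) (d : ℕ) : lam α d ≤ lam α (d + 1) :=
  Real.rpow_le_rpow (Nat.cast_nonneg d) (by push_cast; linarith) h0.le

/-- iteration: `n` steps -/
noncomputable def W (α : ℝ) (p q : ℝ → ℝ) (g : ℕ → ℝ) : ℕ → ℕ → ℕ → ℝ → ℝ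
  | 0 => fun _ _ _ => 0
  | (n + 1) => fun d r => sol (lam α d) (g r)
      (fun s => lam α d * (p s * W α p q g n (d + 1) r s + q s * W α p q g n (d + 1) (r + 1) s))

section

variable {α : ℝ} {p q : ℝ → ℝ} {g : ℕ → ℝ}

lemma W_cont (hp : Continuous p) (hq : Continuous q) (n : ℕ) :
    ∀ d r, Continuous (W α p q g n d r) := by
  induction n with
  | zero => intro d r; exact continuous_const
  | succ n ih =>
    intro d r
    apply sol_continuous
    have h1 := ih (d + 1) r
    have h2 := ih (d + 1) (r + 1)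
    fun_prop

lemma W_der (hp : Continuous p) (hq : Continuous q) (n d r : ℕ) (t : ℝ) :
    HasDerivAt (W α p q g (n + 1) d r) (lam α d * (p t * W α p q g n (d + 1) r t +
      q t * W α p q g n (d + 1) (r + 1) t - W α p q g (n + 1) d r t)) t := by
  have h1 := W_cont (α := α) (g := g) hp hq n (d + 1) r
  have h2 := W_cont (α := α) (g := g) hp hq n (d + 1) (r + 1)
  have h := sol_hasDerivAt (c := lam α d) (g0 := g r)
    (f := fun s => lam α d * (p s * W α p q g n (d + 1) r s + q s * W α p q g n (d + 1) (r + 1) s))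
    (by fun_prop) t
  refine h.congr_deriv ?_
  simp only [W]
  ring

lemma W_init (n d r : ℕ) : W α p q g (n + 1) d r 0 = g r := by
  simp [W, sol_zero]

lemma W_nonneg (hp : Continuous p) (hq : Continuous q) (hp0 : ∀ t, 0 ≤ t → 0 ≤ p t)
    (hq0 : ∀ t, 0 ≤ t → 0 ≤ q t) (hg0 : ∀ r, 0 ≤ g r) (n : ℕ) :
    ∀ d r t, 0 ≤ t → 0 ≤ W α p q g n d r t := by
  induction n with
  | zero => intro d r t _; exact le_refl _
  | succ n ih =>
    intro d r t ht
    refine comp1 (c := lam α d) (T := t) (w := fun _ => 0) (E := W α p q g (n + 1) d r)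
      (w' := fun _ => 0) (E' := fun t => lam α d * (p t * W α p q g n (d + 1) r t +
      q t * W α p q g n (d + 1) (r + 1) t - W α p q g (n + 1) d r t)) continuousOn_const
      (W_cont hp hq _ _ _).continuousOn (fun s _ => hasDerivWithinAt_const _ _ _)
      (fun s _ => (W_der hp hq n d r s).hasDerivWithinAt) ?_ ?_ t ⟨ht, le_refl _⟩
    · show (0:ℝ) ≤ _
      rw [W_init]; exact hg0 r
    · intro s hs
      have h1 := mul_nonneg (hp0 s hs.1) (ih (d + 1) r s hs.1)
      have h2 := mul_nonneg (hq0 s hs.1) (ih (d + 1) (r + 1) s hs.1)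
      have h3 := mul_nonneg (lam_nonneg α d) (add_nonneg h1 h2)
      nlinarith

lemma W_mono (hp : Continuous p) (hq : Continuous q) (hp0 : ∀ t, 0 ≤ t → 0 ≤ p t)
    (hq0 : ∀ t, 0 ≤ t → 0 ≤ q t) (hg0 : ∀ r, 0 ≤ g r) (n : ℕ) :
    ∀ d r t, 0 ≤ t → W α p q g n d r t ≤ W α p q g (n + 1) d r t := by
  induction n with
  | zero =>
    intro d r t ht
    exact W_nonneg hp hq hp0 hq0 hg0 1 d r t ht
  | succ n ih =>
    intro d r t ht
    refine comp1 (c := lam α d) (T := t) (w := W α p q g (n + 1) d r)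
      (E := W α p q g (n + 2) d r)
      (w' := fun t => lam α d * (p t * W α p q g n (d + 1) r t +
      q t * W α p q g n (d + 1) (r + 1) t - W α p q g (n + 1) d r t))
      (E' := fun t => lam α d * (p t * W α p q g (n + 1) (d + 1) r t +
      q t * W α p q g (n + 1) (d + 1) (r + 1) t - W α p q g (n + 2) d r t))
      (W_cont hp hq _ _ _).continuousOn
      (W_cont hp hq _ _ _).continuousOn (fun s _ => (W_der hp hq n d r s).hasDerivWithinAt)
      (fun s _ => (W_der hp hq (n + 1) d r s).hasDerivWithinAt) ?_ ?_ t ⟨ht, le_refl _⟩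
    · rw [W_init, W_init]
    · intro s hs
      have h1 := mul_le_mul_of_nonneg_left (ih (d + 1) r s hs.1) (hp0 s hs.1)
      have h2 := mul_le_mul_of_nonneg_left (ih (d + 1) (r + 1) s hs.1) (hq0 s hs.1)
      have h3 := mul_le_mul_of_nonneg_left (add_le_add h1 h2) (lam_nonneg α d)
      nlinarith

/-- uniform bound on `[0,T]` -/
lemma W_bdd (h0 : 0 < α) (h1 : α < 1) (hp : Continuous p) (hq : Continuous q)
    (hp0 : ∀ t, 0 ≤ t → 0 ≤ p t)
    (hq0 : ∀ t, 0 ≤ t → 0 ≤ q t) (hg0 : ∀ r, 0 ≤ g r) (hg1 : ∀ r, g r ≤ 1) (T : ℝ) (hT : 0 ≤ T) :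
    ∃ B : ℝ, 0 ≤ B ∧ ∀ n d r t, 0 ≤ t → t ≤ T →
      W α p q g n d r t ≤ B * (Real.exp 1) ^ d := by
  obtain ⟨P, hP⟩ : ∃ P, ∀ t ∈ Icc 0 T, p t + q t ≤ P := by
    obtain ⟨P, hP⟩ := (isCompact_Icc (a := (0:ℝ)) (b := T)).bddAbove_image
      (f := fun t => p t + q t) (by fun_prop)
    exact ⟨P, fun t ht => hP ⟨t, ht, rfl⟩⟩
  have hP0 : 0 ≤ P := (add_nonneg (hp0 0 le_rfl) (hq0 0 le_rfl)).trans (hP 0 ⟨le_rfl, hT⟩)
  set S : ℝ := T + 1 with hS
  have hSp : 0 < S := by linarith
  have hε : 0 < 1 / (S * ((P + 1) * Real.exp 1)) := by positivity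
  obtain ⟨C, hC0, hC⟩ := lam_le h0 h1 hε
  set A : ℝ := (P + 1) * Real.exp 1 * C with hA
  have hA0 : 0 ≤ A := by positivity
  -- supersolution
  set E : ℕ → ℝ → ℝ := fun d t => Real.exp (A * t + d * (t / S)) with hEdef
  have hEd : ∀ d t, HasDerivAt (E d) (E d t * (A + d / S)) t := by
    intro d t
    have := ((((hasDerivAt_id t).const_mul A).add
      (((hasDerivAt_id t).div_const S).const_mul (d : ℝ))).exp)
    simpa [hEdef, div_eq_mul_inv] using this
  have hEc : ∀ d, Continuous (E d) := fun d =>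
    continuous_iff_continuousAt.2 fun t => (hEd d t).continuousAt
  have hstep : ∀ d t, 0 ≤ t → t ≤ T → lam α d * ((P + 1) * E (d + 1) t) ≤ E d t * (A + d / S) := by
    intro d t ht htT
    have e1 : E (d + 1) t = E d t * Real.exp (t / S) := by
      simp only [hEdef]
      rw [← Real.exp_add]
      congr 1
      push_cast
      ring
    have e2 : Real.exp (t / S) ≤ Real.exp 1 := by
      apply Real.exp_le_exp.2
      rw [div_le_one hSp]
      linarith
    have e3 : 0 < E d t := Real.exp_pos _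
    have e4 : lam α d * ((P + 1) * Real.exp 1) ≤ A + d / S := by
      have := mul_le_mul_of_nonneg_right (hC d) (by positivity : 0 ≤ (P + 1) * Real.exp 1)
      have e : (1 / (S * ((P + 1) * Real.exp 1)) * (d:ℝ) + C) * ((P + 1) * Real.exp 1) =
          A + d / S := by
        rw [hA]
        field_simp
        ring
      linarith
    calc lam α d * ((P + 1) * E (d + 1) t) = E d t * (lam α d * ((P + 1) * Real.exp (t / S))) := by
          rw [e1]; ring
      _ ≤ E d t * (lam α d * ((P + 1) * Real.exp 1)) := by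
          have := lam_nonneg α d
          gcongr
      _ ≤ E d t * (A + d / S) := mul_le_mul_of_nonneg_left e4 e3.le
  have key : ∀ n d r t, 0 ≤ t → t ≤ T → W α p q g n d r t ≤ E d t := by
    intro n
    induction n with
    | zero => intro d r t _ _; exact (Real.exp_pos _).le
    | succ n ih =>
      intro d r t ht htT
      refine comp1 (c := lam α d) (T := t) (w := W α p q g (n + 1) d r)
        (E := E d)
        (w' := fun t => lam α d * (p t * W α p q g n (d + 1) r t +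
        q t * W α p q g n (d + 1) (r + 1) t - W α p q g (n + 1) d r t))
        (E' := fun t => E d t * (A + d / S))
        (W_cont hp hq _ _ _).continuousOn
        (hEc d).continuousOn (fun s _ => (W_der hp hq n d r s).hasDerivWithinAt)
        (fun s _ => (hEd d s).hasDerivWithinAt) ?_ ?_ t ⟨ht, le_refl _⟩
      · rw [W_init]
        simpa [hEdef] using hg1 r
      · intro s hs
        have hsT : s ≤ T := hs.2.le.trans htT
        have g1 := mul_le_mul_of_nonneg_left (ih (d + 1) r s hs.1 hsT) (hp0 s hs.1)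
        have g2 := mul_le_mul_of_nonneg_left (ih (d + 1) (r + 1) s hs.1 hsT) (hq0 s hs.1)
        have g3 := mul_le_mul_of_nonneg_left (add_le_add g1 g2) (lam_nonneg α d)
        have g4 : p s * E (d + 1) s + q s * E (d + 1) s ≤ (P + 1) * E (d + 1) s := by
          rw [← add_mul]
          exact mul_le_mul_of_nonneg_right (by linarith [hP s ⟨hs.1, hsT⟩]) (Real.exp_pos _).le
        have g5 := mul_le_mul_of_nonneg_left g4 (lam_nonneg α d)
        have g6 := hstep d s hs.1 hsT
        have g7 : 0 ≤ lam α d * E d s := mul_nonneg (lam_nonneg α d) (Real.exp_pos _).le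
        nlinarith
  refine ⟨Real.exp (A * T), (Real.exp_pos _).le, fun n d r t ht htT => (key n d r t ht htT).trans ?_⟩
  simp only [hEdef]
  rw [← Real.exp_nat_mul, ← Real.exp_add]
  apply Real.exp_le_exp.2
  have : t / S ≤ 1 := by rw [div_le_one hSp]; linarith
  have h2 : (d : ℝ) * (t / S) ≤ d * 1 := mul_le_mul_of_nonneg_left this (Nat.cast_nonneg d)
  have h3 : A * t ≤ A * T := mul_le_mul_of_nonneg_left htT hA0
  linarith

end

/-- uniqueness -/
lemma uniq (h1 : S_POS) {α : ℝ} {p q : ℝ → ℝ} {g : ℕ → ℝ} (h0 : 0 < α) (h01 : α < 1)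
    (hp : ContinuousOn p (Ici 0)) (hq : ContinuousOn q (Ici 0)) (hp0 : ∀ t, 0 ≤ t → 0 ≤ p t)
    (hq0 : ∀ t, 0 ≤ t → 0 ≤ q t) {u u' : ℕ → ℕ → ℝ → ℝ} (hu : IsLin α p q g u)
    (hu' : IsLin α p q g u') : ∀ d r t, 0 ≤ t → u' d r t ≤ u d r t := by
  intro d r t ht
  have hsub : Icc 0 t ⊆ Ici (0:ℝ) := fun s hs => hs.1
  obtain ⟨P, hP⟩ : ∃ P, ∀ s ∈ Icc 0 t, p s ≤ P := by
    obtain ⟨P, hP⟩ := (isCompact_Icc (a := (0:ℝ)) (b := t)).bddAbove_image (hp.mono hsub)
    exact ⟨P, fun t ht => hP ⟨t, ht, rfl⟩⟩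
  obtain ⟨Q, hQ⟩ : ∃ Q, ∀ s ∈ Icc 0 t, q s ≤ Q := by
    obtain ⟨P, hP⟩ := (isCompact_Icc (a := (0:ℝ)) (b := t)).bddAbove_image (hq.mono hsub)
    exact ⟨P, fun t ht => hP ⟨t, ht, rfl⟩⟩
  obtain ⟨B, C, hB0, hC1, hB⟩ := hu.bdd t ht
  obtain ⟨B', C', hB0', hC1', hB'⟩ := hu'.bdd t ht
  have hcont : ∀ {v : ℕ → ℕ → ℝ → ℝ}, IsLin α p q g v → ∀ d r, ContinuousOn (v d r) (Icc 0 t) := by
    intro v hv d r s hs
    exact ((hv.deriv d r s hs.1).continuousWithinAt).mono hsub
  have key := h1 α 0 t (max P Q ⊔ 0) (B + B') (C ⊔ C') h0 h01 ht (le_max_right _ _)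
    (add_nonneg hB0 hB0') (hC1.trans (le_max_left _ _)) (fun d r s => u d r s - u' d r s)
    (fun d r s => lam α d * (p s * u (d + 1) r s + q s * u (d + 1) (r + 1) s - u d r s) -
      lam α d * (p s * u' (d + 1) r s + q s * u' (d + 1) (r + 1) s - u' d r s))
    (fun d r s => lam α d * p s) (fun d r s => lam α d * q s) (fun d r s => lam α d)
    (fun d r => (hcont hu d r).sub (hcont hu' d r))
    (fun d r s hs => (((hu.deriv d r s hs.1).mono (Ici_subset_Ici.2 hs.1)).sub
      ((hu'.deriv d r s hs.1).mono (Ici_subset_Ici.2 hs.1))))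
    (fun d r s hs => le_of_eq (by ring))
    (fun d r s hs => by
      have hs' : s ∈ Icc 0 t := ⟨hs.1, hs.2.le⟩
      have a1 := lam_nonneg α d
      have a2 := lam_mono h0 d
      have a3 : p s ≤ max P Q ⊔ 0 := (hP s hs').trans ((le_max_left _ _).trans (le_max_left _ _))
      have a4 : q s ≤ max P Q ⊔ 0 := (hQ s hs').trans ((le_max_right _ _).trans (le_max_left _ _))
      have a5 := hp0 s hs.1
      have a6 := hq0 s hs.1
      have a7 : (0:ℝ) ≤ max P Q ⊔ 0 := le_max_right _ _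
      refine ⟨mul_nonneg a1 a5, ?_, mul_nonneg a1 a6, ?_, ?_⟩
      · rw [mul_comm]
        exact mul_le_mul a3 a2 a1 a7
      · rw [mul_comm]
        exact mul_le_mul a4 a2 a1 a7
      · linarith)
    (fun d r => by simp [hu.init, hu'.init])
    (fun d r s hs => by
      have b1 := hB d r s hs.1 hs.2
      have b2 := hB' d r s hs.1 hs.2
      have b3 := hu.nonneg d r s hs.1
      have b4 := hu'.nonneg d r s hs.1
      have c0 : 1 ≤ C ⊔ C' := hC1.trans (le_max_left _ _)
      have c1 : C ^ d ≤ (C ⊔ C') ^ (d + r) :=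
        (pow_le_pow_left₀ (by linarith) (le_max_left _ _) d).trans
          (pow_le_pow_right₀ c0 (Nat.le_add_right _ _))
      have c2 : C' ^ d ≤ (C ⊔ C') ^ (d + r) :=
        (pow_le_pow_left₀ (by linarith) (le_max_right _ _) d).trans
          (pow_le_pow_right₀ c0 (Nat.le_add_right _ _))
      have d1 := mul_le_mul_of_nonneg_left c1 hB0
      have d2 := mul_le_mul_of_nonneg_left c2 hB0'
      have e1 : 0 ≤ B * (C ⊔ C') ^ (d + r) := mul_nonneg hB0 (by positivity)
      have e2 : 0 ≤ B' * (C ⊔ C') ^ (d + r) := mul_nonneg hB0' (by positivity)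
      rw [abs_le]
      constructor <;> nlinarith)
    d r t ⟨ht, le_refl _⟩
  linarith

theorem lin (h1 : S_POS) : S_LIN := by
  intro α p0 q0 g h0 h01 hp hq hp0 hq0 hg0 hg1
  have huniq : ∀ u u', IsLin α p0 q0 g u → IsLin α p0 q0 g u' →
      ∀ d r t, 0 ≤ t → u d r t = u' d r t := fun u u' hu hu' d r t ht =>
    le_antisymm (uniq h1 h0 h01 hp hq hp0 hq0 hu' hu d r t ht)
      (uniq h1 h0 h01 hp hq hp0 hq0 hu hu' d r t ht)
  -- extend the coefficients
  set p : ℝ → ℝ := fun t => p0 (max t 0) with hpdef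
  set q : ℝ → ℝ := fun t => q0 (max t 0) with hqdef
  have hpc : Continuous p := hp.comp_continuous (continuous_id.max continuous_const)
    fun s => mem_Ici.2 (le_max_right _ _)
  have hqc : Continuous q := hq.comp_continuous (continuous_id.max continuous_const)
    fun s => mem_Ici.2 (le_max_right _ _)
  have hpe : ∀ t, 0 ≤ t → p t = p0 t := fun t ht => by simp [hpdef, max_eq_left ht]
  have hqe : ∀ t, 0 ≤ t → q t = q0 t := fun t ht => by simp [hqdef, max_eq_left ht]
  have hpn : ∀ t, 0 ≤ t → 0 ≤ p t := fun t ht => by rw [hpe t ht]; exact hp0 t ht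
  have hqn : ∀ t, 0 ≤ t → 0 ≤ q t := fun t ht => by rw [hqe t ht]; exact hq0 t ht
  set w := W α p q g with hw
  have hwmono : ∀ d r t, 0 ≤ t → Monotone (fun n => w n d r t) := fun d r t ht =>
    monotone_nat_of_le_succ fun n => W_mono hpc hqc hpn hqn hg0 n d r t ht
  have hwbdd := W_bdd h0 h01 hpc hqc hpn hqn hg0 hg1
  set u : ℕ → ℕ → ℝ → ℝ := fun d r t => ⨆ n, w n d r t with hudef
  have hBA : ∀ d r t, 0 ≤ t → BddAbove (Set.range (fun n => w n d r t)) := by
    intro d r t ht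
    obtain ⟨B, hB0, hB⟩ := hwbdd t ht
    exact ⟨B * (Real.exp 1) ^ d, by rintro _ ⟨n, rfl⟩; exact hB n d r t ht le_rfl⟩
  have hlim : ∀ d r t, 0 ≤ t → Tendsto (fun n => w n d r t) atTop (𝓝 (u d r t)) := fun d r t ht =>
    tendsto_atTop_ciSup (hwmono d r t ht) (hBA d r t ht)
  have hle : ∀ n d r t, 0 ≤ t → w n d r t ≤ u d r t := fun n d r t ht =>
    le_ciSup (hBA d r t ht) n
  have hwn := W_nonneg (α := α) hpc hqc hpn hqn hg0
  have hub : ∀ T, 0 ≤ T → ∃ B : ℝ, 0 ≤ B ∧ ∀ d r t, 0 ≤ t → t ≤ T →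
      u d r t ≤ B * (Real.exp 1) ^ d := by
    intro T hT
    obtain ⟨B, hB0, hB⟩ := hwbdd T hT
    exact ⟨B, hB0, fun d r t ht htT => ciSup_le fun n => hB n d r t ht htT⟩
  have hsol : ∀ d r, ContinuousOn (u d r) (Ici 0) ∧
      (ContinuousOn (fun s => lam α d * (p s * u (d + 1) r s + q s * u (d + 1) (r + 1) s))
        (Ici 0) → ∀ t, 0 ≤ t → HasDerivWithinAt (u d r)
          (lam α d * (p t * u (d + 1) r t + q t * u (d + 1) (r + 1) t) - lam α d * u d r t)
          (Ici 0) t) := by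
    intro d r
    refine (lim_sol (c := lam α d) (g0 := g r) (F := fun n => w n d r)
      (Φ := fun n s => lam α d * (p s * w n (d + 1) r s + q s * w n (d + 1) (r + 1) s))
      (f := u d r)
      (φ := fun s => lam α d * (p s * u (d + 1) r s + q s * u (d + 1) (r + 1) s))
      ?_ ?_ ?_ ?_ ?_).2
    · intro n
      have a1 := W_cont (α := α) (g := g) hpc hqc n (d + 1) r
      have a2 := W_cont (α := α) (g := g) hpc hqc n (d + 1) (r + 1)
      rw [hw]
      fun_prop
    · intro n t ht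
      rfl
    · exact fun t ht => hlim d r t ht
    · intro t ht
      exact ((((hlim (d + 1) r t ht).const_mul (p t)).add
        ((hlim (d + 1) (r + 1) t ht).const_mul (q t))).const_mul (lam α d))
    · intro T hT
      obtain ⟨B, hB0, hB⟩ := hwbdd T hT
      obtain ⟨P, hP⟩ : ∃ P, ∀ t ∈ Icc 0 T, p t + q t ≤ P := by
        obtain ⟨P, hP⟩ := (isCompact_Icc (a := (0:ℝ)) (b := T)).bddAbove_image
          (f := fun t => p t + q t) (by fun_prop)
        exact ⟨P, fun t ht => hP ⟨t, ht, rfl⟩⟩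
      refine ⟨lam α d * (P * (B * (Real.exp 1) ^ (d + 1))), fun n t ht => ?_⟩
      have b1 := hB n (d + 1) r t ht.1 ht.2
      have b2 := hB n (d + 1) (r + 1) t ht.1 ht.2
      have b3 := hwn n (d + 1) r t ht.1
      have b4 := hwn n (d + 1) (r + 1) t ht.1
      have b5 := hpn t ht.1
      have b6 := hqn t ht.1
      rw [abs_of_nonneg (mul_nonneg (lam_nonneg α d) (add_nonneg (mul_nonneg b5 b3)
        (mul_nonneg b6 b4)))]
      refine mul_le_mul_of_nonneg_left ?_ (lam_nonneg α d)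
      have c1 := mul_le_mul_of_nonneg_left b1 b5
      have c2 := mul_le_mul_of_nonneg_left b2 b6
      have c3 : (p t + q t) * (B * (Real.exp 1) ^ (d + 1)) ≤ P * (B * (Real.exp 1) ^ (d + 1)) :=
        mul_le_mul_of_nonneg_right (hP t ht) (by positivity)
      calc _ ≤ p t * (B * (Real.exp 1) ^ (d + 1)) + q t * (B * (Real.exp 1) ^ (d + 1)) :=
            add_le_add c1 c2
        _ = (p t + q t) * (B * (Real.exp 1) ^ (d + 1)) := by ring
        _ ≤ _ := c3
  have hLin : IsLin α p0 q0 g u := by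
    refine ⟨?_, ?_, ?_, ?_⟩
    · intro d r
      have h2 : Tendsto (fun n => w (n + 1) d r 0) atTop (𝓝 (u d r 0)) :=
        (tendsto_add_atTop_iff_nat 1).2 (hlim d r 0 le_rfl)
      have h3 : (fun n => w (n + 1) d r 0) = fun _ => g r := by
        funext n
        exact W_init n d r
      rw [h3] at h2
      exact tendsto_nhds_unique tendsto_const_nhds h2 |>.symm
    · intro d r t ht
      have h2 := (hsol d r).2 (by
        have a1 := (hsol (d + 1) r).1
        have a2 := (hsol (d + 1) (r + 1)).1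
        exact continuousOn_const.mul ((hpc.continuousOn.mul a1).add (hqc.continuousOn.mul a2))) t ht
      rw [hpe t ht, hqe t ht] at h2
      refine h2.congr_deriv ?_
      ring
    · intro d r t ht
      exact (hwn 0 d r t ht).trans (hle 0 d r t ht)
    · intro T hT
      obtain ⟨B, hB0, hB⟩ := hub T hT
      exact ⟨B, Real.exp 1, hB0, Real.one_le_exp zero_le_one, fun d r t ht htT => hB d r t ht htT⟩
  refine ⟨⟨u, hLin⟩, huniq, fun u' hu' => ?_⟩
  have hue : ∀ d r t, 0 ≤ t → u' d r t = u d r t := huniq u' u hu' hLin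
  refine ⟨fun Δ d r t => w (Δ + 1 - d) d r t, fun Δ => ⟨?_, ?_, ?_, ?_⟩, ?_, ?_⟩
  · intro d r hd
    obtain ⟨k, hk⟩ : ∃ k, Δ + 1 - d = k + 1 := ⟨Δ - d, by omega⟩
    simp only [hk]
    exact W_init k d r
  · intro d r t ht hd
    obtain ⟨k, hk⟩ : ∃ k, Δ + 1 - d = k + 1 := ⟨Δ - d, by omega⟩
    have hk' : Δ + 1 - (d + 1) = k := by omega
    simp only [hk, hk']
    have := (W_der (α := α) (g := g) hpc hqc k d r t).hasDerivWithinAt (s := Ici 0)
    rw [hpe t ht, hqe t ht] at this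
    exact this
  · intro d r t hd
    have : Δ + 1 - d = 0 := by omega
    simp only [this]
    rfl
  · intro d r t ht
    exact hwn _ d r t ht
  · intro Δ d r t ht
    rw [hue d r t ht]
    exact hle _ d r t ht
  · intro d r t ht
    rw [hue d r t ht]
    refine (hlim d r t ht).comp ?_
    refine tendsto_atTop_mono (fun n => ?_) (tendsto_sub_atTop_nat d)
    omega

end Pool.Agent.TH443.J2227
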