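import Pool.Agent.TH981.SD.Stm
import Pool.Agent.TH443.SD.Limit

set_option autoImplicit false

open Pool.Agent.TH981.SD
open Finset Set Filter
open scoped BigOperators Topology Classical

namespace Pool.Agent.TH443.J2229

open Pool.Agent.TH443.SD

lemma lam_nonneg (α : ℝ) (d : ℕ) : 0 ≤ lam α d := Real.rpow_nonneg (Nat.cast_nonneg d) α

lemma lam_mono {α : ℝ} (h0 : 0 < α) (d : ℕ) : lam α d ≤ lam α (d + 1) :=
  Real.rpow_le_rpow (Nat.cast_nonneg d) (by push_cast; linarith) h0.le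

/-- comparison -/
lemma cmp (h1 : S_POS) {α : ℝ} {p q : ℝ → ℝ} {g g' : ℕ → ℝ} (h0 : 0 < α) (h01 : α < 1)
    (hp : ContinuousOn p (Ici 0)) (hq : ContinuousOn q (Ici 0)) (hp0 : ∀ t, 0 ≤ t → 0 ≤ p t)
    (hq0 : ∀ t, 0 ≤ t → 0 ≤ q t) {u u' : ℕ → ℕ → ℝ → ℝ} (hu : IsLin α p q g u)
    (hu' : IsLin α p q g' u') (hgg : ∀ r, g' r ≤ g r) :
    ∀ d r t, 0 ≤ t → u' d r t ≤ u d r t := by
  intro d r t ht
  have hsub : Icc 0 t ⊆ Ici (0:ℝ) := fun s hs => hs.1
  obtain ⟨P, hP⟩ : ∃ P, ∀ s ∈ Icc 0 t, p s ≤ P := by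
    obtain ⟨P, hP⟩ := (isCompact_Icc (a := (0:ℝ)) (b := t)).bddAbove_image (hp.mono hsub)
    exact ⟨P, fun t ht => hP ⟨t, ht, rfl⟩⟩
  obtain ⟨Q, hQ⟩ : ∃ Q, ∀ s ∈ Icc 0 t, q s ≤ Q := by
    obtain ⟨P, hP⟩ := (isCompact_Icc (a := (0:ℝ)) (b := t)).bddAbove_image (hq.mono hsub)
    exact ⟨P, fun t ht => hP ⟨t, ht, rfl⟩⟩
  obtain ⟨B, C, hB0, hC1, hB⟩ := hu.bdd t ht
  obtain ⟨B', C', hB0', hC1', hB'⟩ := hu'.bdd t ht
  have hcont : ∀ {g : ℕ → ℝ} {v : ℕ → ℕ → ℝ → ℝ}, IsLin α p q g v →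
      ∀ d r, ContinuousOn (v d r) (Icc 0 t) := by
    intro g v hv d r s hs
    exact ((hv.deriv d r s hs.1).continuousWithinAt).mono hsub
  have key := h1 α 0 t (max P Q ⊔ 0) (B + B') (C ⊔ C') h0 h01 ht (le_max_right _ _)
    (add_nonneg hB0 hB0') (hC1.trans (le_max_left _ _)) (fun d r s => u d r s - u' d r s)
    (fun d r s => lam α d * (p s * u (d + 1) r s + q s * u (d + 1) (r + 1) s - u d r s) -
      lam α d * (p s * u' (d + 1) r s + q s * u' (d + 1) (r + 1) s - u' d r s))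
    (fun d r s => lam α d * p s) (fun d r s => lam α d * q s) (fun d r s => lam α d)
    (fun d r => (hcont hu d r).sub (hcont hu' d r))
    (fun d r s hs => (((hu.deriv d r s hs.1).mono (Ici_subset_Ici.2 hs.1)).sub
      ((hu'.deriv d r s hs.1).mono (Ici_subset_Ici.2 hs.1))))
    (fun d r s hs => le_of_eq (by ring))
    (fun d r s hs => by
      have hs' : s ∈ Icc 0 t := ⟨hs.1, hs.2.le⟩
      have a1 := lam_nonneg α d
      have a2 := lam_mono h0 d
      have a3 : p s ≤ max P Q ⊔ 0 := (hP s hs').trans ((le_max_left _ _).trans (le_max_left _ _))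
      have a4 : q s ≤ max P Q ⊔ 0 := (hQ s hs').trans ((le_max_right _ _).trans (le_max_left _ _))
      have a5 := hp0 s hs.1
      have a6 := hq0 s hs.1
      have a7 : (0:ℝ) ≤ max P Q ⊔ 0 := le_max_right _ _
      refine ⟨mul_nonneg a1 a5, ?_, mul_nonneg a1 a6, ?_, ?_⟩
      · rw [mul_comm]
        exact mul_le_mul a3 a2 a1 a7
      · rw [mul_comm]
        exact mul_le_mul a4 a2 a1 a7
      · linarith)
    (fun d r => by have := hgg r; simp only [hu.init, hu'.init]; linarith)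
    (fun d r s hs => by
      have b1 := hB d r s hs.1 hs.2
      have b2 := hB' d r s hs.1 hs.2
      have b3 := hu.nonneg d r s hs.1
      have b4 := hu'.nonneg d r s hs.1
      have c0 : 1 ≤ C ⊔ C' := hC1.trans (le_max_left _ _)
      have c1 : C ^ d ≤ (C ⊔ C') ^ (d + r) :=
        (pow_le_pow_left₀ (by linarith) (le_max_left _ _) d).trans
          (pow_le_pow_right₀ c0 (Nat.le_add_right _ _))
      have c2 : C' ^ d ≤ (C ⊔ C') ^ (d + r) :=
        (pow_le_pow_left₀ (by linarith) (le_max_right _ _) d).trans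
          (pow_le_pow_right₀ c0 (Nat.le_add_right _ _))
      have d1 := mul_le_mul_of_nonneg_left c1 hB0
      have d2 := mul_le_mul_of_nonneg_left c2 hB0'
      have e1 : 0 ≤ B * (C ⊔ C') ^ (d + r) := mul_nonneg hB0 (by positivity)
      have e2 : 0 ≤ B' * (C ⊔ C') ^ (d + r) := mul_nonneg hB0' (by positivity)
      rw [abs_le]
      constructor <;> nlinarith)
    d r t ⟨ht, le_refl _⟩
  linarith

theorem vex (h1 : S_LIN) (h2 : S_POS) (h3 : S_YF) : S_VEX := by
  intro α z K Y h0 h01 hz hz1 hK hY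
  have hYc : ∀ d, ContinuousOn (Y d) (Ici 0) := fun d t ht => (hY.deriv d t ht).continuousWithinAt
  have hm1c : ContinuousOn (fun t => K * m1 Y t) (Ici 0) := by
    unfold m1
    exact continuousOn_const.mul ((hYc 1).mul (continuousOn_const.sub (hYc 2)))
  have hm1n : ∀ t, 0 ≤ t → 0 ≤ K * m1 Y t := fun t ht => by
    unfold m1
    have a1 := hY.pos 1 t ht
    have a2 := hY.le 2 t ht
    exact mul_nonneg hK (mul_nonneg a1.le (by linarith))
  have hccc : ContinuousOn (cc Y K) (Ici 0) := (hYc 1).add hm1c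
  have hccn : ∀ t, 0 ≤ t → 0 ≤ cc Y K t := fun t ht => add_nonneg (hY.pos 1 t ht).le (hm1n t ht)
  have hy0 : ∀ t, 0 ≤ t → 0 ≤ Y 1 t := fun t ht => (hY.pos 1 t ht).le
  refine ⟨?_, ?_, ?_⟩
  · obtain ⟨⟨u, hu⟩, -, -⟩ := h1 α (cc Y K) (fun _ => 0) (fun _ => 1) h0 h01 hccc
      continuousOn_const hccn (fun _ _ => le_rfl) (fun _ => zero_le_one) (fun _ => le_rfl)
    refine ⟨fun d => u d 0, fun d => hu.init d 0, ?_, ?_, ?_⟩
    · intro d t ht
      refine (hu.deriv d 0 t ht).congr_deriv ?_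
      ring
    · intro d t ht
      have hE : ∀ t, HasDerivAt (fun t => Real.exp (-(lam α d * t)))
          (-(lam α d) * Real.exp (-(lam α d * t))) t := by
        intro t
        have := ((hasDerivAt_id t).const_mul (lam α d)).neg.exp
        refine this.congr_deriv ?_
        show Real.exp (-(lam α d * t)) * -(lam α d * 1) = _
        ring
      refine lt_of_lt_of_le (Real.exp_pos (-(lam α d * t))) ?_
      refine comp1 (c := lam α d) (T := t) (w := fun t => Real.exp (-(lam α d * t)))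
        (E := u d 0)
        (w' := fun t => -(lam α d) * Real.exp (-(lam α d * t)))
        (E' := fun t => lam α d * (cc Y K t * u (d + 1) 0 t +
          (0:ℝ) * u (d + 1) (0 + 1) t - u d 0 t))
        (by fun_prop)
        (fun s hs => ((hu.deriv d 0 s hs.1).continuousWithinAt).mono (fun s hs => hs.1))
        (fun s hs => (hE s).hasDerivWithinAt)
        (fun s hs => (hu.deriv d 0 s hs.1).mono (Ici_subset_Ici.2 hs.1)) ?_ ?_ t ⟨ht, le_refl _⟩
      · simp [hu.init]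
      · intro s hs
        have a1 := mul_nonneg (lam_nonneg α d)
          (mul_nonneg (hccn s hs.1) (hu.nonneg (d + 1) 0 s hs.1))
        nlinarith
    · intro T hT
      obtain ⟨B, C, hB0, hC1, hB⟩ := hu.bdd T hT
      exact ⟨B, C, hB0, hC1, fun d t ht htT => hB d 0 t ht htT⟩
  · intro V g u hV hg0 hg1 hu d r t ht
    have hV' : IsLin α (Y 1) (fun t => K * m1 Y t) (fun _ => 1) (fun d _ => V d) := by
      refine ⟨fun d _ => hV.init d, ?_, fun d _ t ht => (hV.pos d t ht).le, ?_⟩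
      · intro d r t ht
        refine (hV.deriv d t ht).congr_deriv ?_
        unfold cc
        ring
      · intro T hT
        obtain ⟨B, C, hB0, hC1, hB⟩ := hV.bdd T hT
        exact ⟨B, C, hB0, hC1, fun d _ t ht htT => hB d t ht htT⟩
    exact cmp h2 h0 h01 (hYc 1) hm1c hy0 hm1n hV' hu hg1 d r t ht
  · intro g g' u u' hg0 hgg hg1 hu hu' d r t ht
    exact cmp h2 h0 h01 (hYc 1) hm1c hy0 hm1n hu' hu hgg d r t ht

end Pool.Agent.TH443.J2229
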