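import Pool.Agent.TH981.SD.Stm

set_option autoImplicit false

open Pool.Agent.TH981.SD
open Finset Set Filter
open scoped BigOperators Topology Classical

namespace Pool.Agent.TH443.J2286

theorem hv : S_HV := by
  intro n O a b g r x hx
  unfold hval
  rw [Finset.sum_powerset_insert hx, Finset.mul_sum, Finset.mul_sum]
  congr 1
  · refine Finset.sum_congr rfl fun S hS => ?_
    have hxS : x ∉ S := fun h => hx (Finset.mem_powerset.1 hS h)
    have e : (insert x O) \ S = insert x (O \ S) := Finset.insert_sdiff_of_notMem _ hxS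
    rw [e, Finset.prod_insert (fun h => hx (Finset.mem_sdiff.1 h).1)]
    ring
  · refine Finset.sum_congr rfl fun S hS => ?_
    have hxS : x ∉ S := fun h => hx (Finset.mem_powerset.1 hS h)
    have e : (insert x O) \ (insert x S) = O \ S := by
      ext y
      simp only [Finset.mem_sdiff, Finset.mem_insert, not_or]
      constructor
      · rintro ⟨h1 | h1, h2, h3⟩
        · exact absurd h1 h2
        · exact ⟨h1, h3⟩
      · rintro ⟨h1, h2⟩
        exact ⟨Or.inr h1, fun h => hx (h ▸ h1), h2⟩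
    rw [e, Finset.prod_insert hxS, Finset.card_insert_of_notMem hxS]
    have : r + (S.card + 1) = r + 1 + S.card := by ring
    rw [this]
    ring

lemma lam_nonneg (α : ℝ) (d : ℕ) : 0 ≤ lam α d := Real.rpow_nonneg (Nat.cast_nonneg d) α

/-- product rule -/
lemma mder {f : ℕ → ℝ → ℝ} {f' : ℕ → ℝ} {s : Set ℝ} {t : ℝ}
    (h : ∀ d, HasDerivWithinAt (f d) (f' d) s t) (C : Multiset ℕ) :
    HasDerivWithinAt (fun t => (C.map (fun d => f d t)).prod)
      ((C.map (fun d => f' d * ((C.erase d).map (fun d => f d t)).prod)).sum) s t := by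
  induction C using Multiset.induction_on with
  | empty => simpa using hasDerivWithinAt_const t s (1:ℝ)
  | cons c C ih =>
    have h1 := (h c).mul ih
    simp only [Multiset.map_cons, Multiset.prod_cons, Multiset.sum_cons, Multiset.erase_cons_head]
    refine h1.congr_deriv ?_
    congr 1
    rw [← Multiset.sum_map_mul_left]
    congr 1
    refine Multiset.map_congr rfl fun d hd => ?_
    rw [Multiset.erase_cons_tail_of_mem hd, Multiset.map_cons, Multiset.prod_cons]
    ring

/-- sum rule -/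
lemma sder {f : ℕ → ℝ → ℝ} {f' : ℕ → ℝ} {s : Set ℝ} {t : ℝ}
    (h : ∀ d, HasDerivWithinAt (f d) (f' d) s t) (C : Multiset ℕ) :
    HasDerivWithinAt (fun t => (C.map (fun d => f d t)).sum) ((C.map f').sum) s t := by
  induction C using Multiset.induction_on with
  | empty => simpa using hasDerivWithinAt_const t s (0:ℝ)
  | cons c C ih =>
    have h1 := (h c).add ih
    simp only [Multiset.map_cons, Multiset.sum_cons]
    exact h1

lemma aW_cons (Y : ℕ → ℝ → ℝ) (t : ℝ) (c : ℕ) (C : Multiset ℕ) :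
    aW Y t (c ::ₘ C) = Y c t * aW Y t C := by
  simp [aW]

lemma aW_erase (Y : ℕ → ℝ → ℝ) (t : ℝ) {d : ℕ} {C : Multiset ℕ} (hd : d ∈ C) :
    aW Y t C = Y d t * aW Y t (C.erase d) := by
  rw [← aW_cons, Multiset.cons_erase hd]

lemma aW_der {α z : ℝ} {Y : ℕ → ℝ → ℝ} (hY : IsY α z Y) (C : Multiset ℕ) {t : ℝ} (ht : 0 ≤ t) :
    HasDerivWithinAt (fun t => aW Y t C) (Lop α (aW Y t) C) (Set.Ici 0) t := by
  refine (mder (fun d => hY.deriv d t ht) C).congr_deriv ?_
  unfold Lop
  congr 1
  refine Multiset.map_congr rfl fun d hd => ?_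
  rw [aW_erase Y t hd, aW_cons, aW_cons]
  unfold aW
  ring

lemma aW_pos {α z : ℝ} {Y : ℕ → ℝ → ℝ} (hY : IsY α z Y) {t : ℝ} (ht : 0 ≤ t) (C : Multiset ℕ) :
    0 < aW Y t C := by
  induction C using Multiset.induction_on with
  | empty => simp [aW]
  | cons c C ih => rw [aW_cons]; exact mul_pos (hY.pos c t ht) ih

lemma bW_eq {α z : ℝ} {Y : ℕ → ℝ → ℝ} (hY : IsY α z Y) {t : ℝ} (ht : 0 ≤ t) (C : Multiset ℕ) :
    bW α Y t C = - Lop α (aW Y t) C := by
  unfold bW Lop
  rw [← Multiset.sum_map_mul_left, ← Multiset.sum_map_neg', Multiset.map_map]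
  congr 1
  refine Multiset.map_congr rfl fun d hd => ?_
  simp only [Function.comp]
  rw [aW_erase Y t hd, aW_cons, aW_cons]
  have := (hY.pos d t ht).ne'
  field_simp
  ring

lemma Lop_neg (α : ℝ) (a : Multiset ℕ → ℝ) (C : Multiset ℕ) :
    Lop α (fun C => - a C) C = - Lop α a C := by
  unfold Lop
  rw [← Multiset.sum_map_neg', Multiset.map_map]
  congr 1
  refine Multiset.map_congr rfl fun d hd => ?_
  simp only [Function.comp]
  ring

lemma bW_der {α z : ℝ} {Y : ℕ → ℝ → ℝ} (hY : IsY α z Y) (C : Multiset ℕ) {t : ℝ} (ht : 0 ≤ t) :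
    HasDerivWithinAt (fun t => bW α Y t C) (Lop α (bW α Y t) C) (Set.Ici 0) t := by
  have h1 : HasDerivWithinAt (fun t => Lop α (aW Y t) C) (Lop α (Lop α (aW Y t)) C)
      (Set.Ici 0) t := by
    unfold Lop
    exact sder (f := fun d t => lam α d * (aW Y t ((d + 1) ::ₘ 1 ::ₘ C.erase d) - aW Y t C))
      (fun d => (((aW_der hY ((d + 1) ::ₘ 1 ::ₘ C.erase d) ht).sub
      (aW_der hY C ht)).const_mul (lam α d))) C
  have h2 : (bW α Y t) = fun C => - Lop α (aW Y t) C := by
    funext C; exact bW_eq hY ht C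
  rw [h2, Lop_neg]
  refine h1.neg.congr (fun s hs => bW_eq hY hs C) (bW_eq hY ht C)

theorem ab (h1 : S_YF) : S_AB := by
  intro α z Y h0 h01 hz hz1 hY
  obtain ⟨yf1, yf2, yf3, yf4, yf5, yf6, yf7⟩ := h1 α z Y h0 h01 hz hz1 hY
  have hle1 : ∀ d t, 0 ≤ t → Y d t ≤ 1 := fun d t ht => (hY.le d t ht).trans hz1.le
  have hprod : ∀ d t, 0 ≤ t → Y 1 t * Y (d + 1) t ≤ Y d t := fun d t ht => by
    have a1 := yf1 d t ht
    have a2 := hY.pos (d + 1) t ht
    have a3 := hle1 1 t ht
    nlinarith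
  have hq0 : ∀ d t, 0 ≤ t → 0 ≤ 1 - Y 1 t * Y (d + 1) t / Y d t := fun d t ht => by
    have a1 := hY.pos d t ht
    have := (div_le_one a1).2 (hprod d t ht)
    linarith
  have hq1 : ∀ d t, 0 ≤ t → 1 - Y 1 t * Y (d + 1) t / Y d t ≤ 1 := fun d t ht => by
    have a1 := hY.pos d t ht
    have a2 := hY.pos 1 t ht
    have a3 := hY.pos (d + 1) t ht
    have : 0 ≤ Y 1 t * Y (d + 1) t / Y d t := by positivity
    linarith
  have haW1 : ∀ t, 0 ≤ t → ∀ C : Multiset ℕ, aW Y t C ≤ 1 := by
    intro t ht C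
    induction C using Multiset.induction_on with
    | empty => simp [aW]
    | cons c C ih =>
      rw [aW_cons]
      exact mul_le_one₀ (hle1 c t ht) (aW_pos hY ht C).le ih
  have hYd : ∀ d t, 1 ≤ d → 0 ≤ t → Y d t ≤ Y 1 t := by
    intro d t hd ht
    induction d, hd using Nat.le_induction with
    | base => exact le_rfl
    | succ d hd ih => exact (yf1 d t ht).trans ih
  have hl1 : lam α 1 = 1 := by simp [lam]
  refine ⟨fun C t ht => ⟨aW_der hY C ht, bW_der hY C ht, aW_pos hY ht C, ?_, ?_, ?_, ?_, ?_, ?_⟩,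
    fun C => ⟨?_, ?_⟩⟩
  · unfold bW
    refine mul_nonneg (aW_pos hY ht C).le (Multiset.sum_nonneg ?_)
    intro x hx
    obtain ⟨d, -, rfl⟩ := Multiset.mem_map.1 hx
    exact mul_nonneg (lam_nonneg α d) (hq0 d t ht)
  · unfold bW
    refine mul_le_mul_of_nonneg_left (Multiset.sum_map_le_sum_map _ _ fun d _ => ?_)
      (aW_pos hY ht C).le
    exact mul_le_of_le_one_right (lam_nonneg α d) (hq1 d t ht)
  · intro hC
    induction C using Multiset.induction_on with
    | empty => simp [aW]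
    | cons c C ih =>
      rw [aW_cons, Multiset.card_cons, pow_succ, mul_comm (Y 1 t ^ _)]
      exact mul_le_mul (hYd c t (hC c (Multiset.mem_cons_self _ _)) ht)
        (ih fun d hd => hC d (Multiset.mem_cons_of_mem hd)) (aW_pos hY ht C).le
        (hY.pos 1 t ht).le
  · intro hC
    unfold bW
    rw [← Multiset.sum_map_mul_left, mul_comm (1 + bet α), mul_assoc,
      ← Multiset.sum_map_mul_right]
    refine Multiset.sum_map_le_sum_map _ _ fun d hd => ?_
    have a1 := hY.pos d t ht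
    have a2 := hY.pos (d + 1) t ht
    have a3 := hle1 (d + 1) t ht
    have a4 := hle1 1 t ht
    have a5 := yf2 d t (hC d hd) ht
    have a6 := haW1 t ht (C.erase d)
    have a7 := (aW_pos hY ht (C.erase d)).le
    have a8 := hprod d t ht
    rw [aW_erase Y t hd]
    have e : Y d t * aW Y t (C.erase d) * (lam α d * (1 - Y 1 t * Y (d + 1) t / Y d t)) =
        lam α d * (aW Y t (C.erase d) * (Y d t - Y 1 t * Y (d + 1) t)) := by
      field_simp
    rw [e]
    refine mul_le_mul_of_nonneg_left ?_ (lam_nonneg α d)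
    calc aW Y t (C.erase d) * (Y d t - Y 1 t * Y (d + 1) t)
        ≤ 1 * (Y d t - Y 1 t * Y (d + 1) t) := mul_le_mul_of_nonneg_right a6 (by linarith)
      _ = (Y d t - Y (d + 1) t) + Y (d + 1) t * (1 - Y 1 t) := by ring
      _ ≤ bet α * (1 - Y 1 t) + 1 * (1 - Y 1 t) :=
          add_le_add a5 (mul_le_mul_of_nonneg_right a3 (by linarith))
      _ = (1 + bet α) * (1 - Y 1 t) := by ring
  · simp [aW]
  · have := (hY.pos 1 t ht).ne'
    simp only [bW, aW, Multiset.map_singleton, Multiset.prod_singleton, Multiset.sum_singleton,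
      hl1, m1]
    field_simp
  · simp [aW, hY.init]
  · unfold bW
    have e : aW Y 0 C = z ^ (Multiset.card C) := by simp [aW, hY.init]
    rw [e]
    congr 2
    refine Multiset.map_congr rfl fun d _ => ?_
    rw [hY.init, hY.init, hY.init, mul_div_assoc, div_self hz.ne', mul_one]

end Pool.Agent.TH443.J2286
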