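import Pool.Agent.TH981.SD.Stm

set_option autoImplicit false

open Pool.Agent.TH981.SD
open Finset Set Filter
open scoped BigOperators Topology Classical

namespace Pool.Agent.TH443.J2287

lemma hval_empty {n : ℕ} (a b : Fin n → ℝ) (g : ℕ → ℝ) (r : ℕ) :
    hval ∅ a b g r = g r := by simp [hval]

lemma hval_congr {n : ℕ} (O : Finset (Fin n)) {a a' b b' : Fin n → ℝ} {g g' : ℕ → ℝ} (r : ℕ)
    (ha : ∀ x ∈ O, a x = a' x) (hb : ∀ x ∈ O, b x = b' x) (hg : ∀ r, g r = g' r) :
    hval O a b g r = hval O a' b' g' r := by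
  unfold hval
  refine Finset.sum_congr rfl fun S hS => ?_
  have hS' := Finset.mem_powerset.1 hS
  rw [Finset.prod_congr rfl fun x hx => hb x (hS' hx),
    Finset.prod_congr rfl fun x hx => ha x (Finset.mem_sdiff.1 hx).1, hg]

lemma hval_erase (h5 : S_HV) {n : ℕ} (O : Finset (Fin n)) (a b : Fin n → ℝ) (g : ℕ → ℝ) (r : ℕ)
    {x : Fin n} (hx : x ∈ O) :
    hval O a b g r = a x * hval (O.erase x) a b g r + b x * hval (O.erase x) a b g (r + 1) := by
  conv_lhs => rw [← Finset.insert_erase hx]
  exact h5 n (O.erase x) a b g r x (Finset.notMem_erase x O)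

lemma hval_map (h5 : S_HV) {n m : ℕ} (f : Fin n ↪ Fin m) (a b : Fin m → ℝ) (g : ℕ → ℝ)
    (O : Finset (Fin n)) :
    ∀ r, hval (O.map f) a b g r = hval O (fun x => a (f x)) (fun x => b (f x)) g r := by
  induction O using Finset.induction_on with
  | empty => intro r; simp [hval_empty]
  | insert x O hx ih =>
    intro r
    have hx' : f x ∉ O.map f := by simpa using hx
    rw [Finset.map_insert, h5 m (O.map f) a b g r (f x) hx', h5 n O _ _ g r x hx, ih, ih]

lemma hval_shift {n : ℕ} (O : Finset (Fin n)) (a b : Fin n → ℝ) (g : ℕ → ℝ) :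
    hval O a b (fun r => g (r + 1)) 0 = hval O a b g 1 := by
  unfold hval
  refine Finset.sum_congr rfl fun S _ => ?_
  congr 2
  ring_nf

lemma hval_lin {n : ℕ} (O : Finset (Fin n)) (a b : Fin n → ℝ) (g1 g2 g3 g4 : ℕ → ℝ)
    (c p q : ℝ) (r : ℕ) :
    hval O a b (fun r => g1 r - c * (p * g2 r + q * g3 r - g4 r)) r =
      hval O a b g1 r - c * (p * hval O a b g2 r + q * hval O a b g3 r - hval O a b g4 r) := by
  unfold hval
  simp only [Finset.mul_sum, ← Finset.sum_add_distrib, ← Finset.sum_sub_distrib]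
  refine Finset.sum_congr rfl fun S _ => ?_
  ring

lemma hval_der (h5 : S_HV) {n : ℕ} {S : Set ℝ} {t0 : ℝ} {a b : ℝ → Fin n → ℝ} {g : ℝ → ℕ → ℝ}
    {a' b' : Fin n → ℝ} {g' : ℕ → ℝ}
    (ha : ∀ x, HasDerivWithinAt (fun t => a t x) (a' x) S t0)
    (hb : ∀ x, HasDerivWithinAt (fun t => b t x) (b' x) S t0)
    (hg : ∀ r, HasDerivWithinAt (fun t => g t r) (g' r) S t0) (O : Finset (Fin n)) :
    ∀ r, HasDerivWithinAt (fun t => hval O (a t) (b t) (g t) r)
      (∑ x ∈ O, (a' x * hval (O.erase x) (a t0) (b t0) (g t0) r +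
        b' x * hval (O.erase x) (a t0) (b t0) (g t0) (r + 1)) + hval O (a t0) (b t0) g' r)
      S t0 := by
  induction O using Finset.induction_on with
  | empty =>
    intro r
    simp only [hval_empty, Finset.sum_empty, zero_add]
    exact hg r
  | insert y O hy ih =>
    intro r
    have e : (fun t => hval (insert y O) (a t) (b t) (g t) r) =
        fun t => a t y * hval O (a t) (b t) (g t) r + b t y * hval O (a t) (b t) (g t) (r + 1) := by
      funext t
      exact h5 n O (a t) (b t) (g t) r y hy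
    rw [e]
    refine (((ha y).mul (ih r)).add ((hb y).mul (ih (r + 1)))).congr_deriv ?_
    rw [Finset.sum_insert hy, Finset.erase_insert hy, h5 n O (a t0) (b t0) g' r y hy]
    have e2 : ∀ x ∈ O, (a' x * hval ((insert y O).erase x) (a t0) (b t0) (g t0) r +
        b' x * hval ((insert y O).erase x) (a t0) (b t0) (g t0) (r + 1)) =
        a t0 y * (a' x * hval (O.erase x) (a t0) (b t0) (g t0) r +
          b' x * hval (O.erase x) (a t0) (b t0) (g t0) (r + 1)) +
        b t0 y * (a' x * hval (O.erase x) (a t0) (b t0) (g t0) (r + 1) +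
          b' x * hval (O.erase x) (a t0) (b t0) (g t0) (r + 1 + 1)) := by
      intro x hx
      have hxy : y ≠ x := fun h => hy (h ▸ hx)
      rw [Finset.erase_insert_of_ne hxy]
      have hy' : y ∉ O.erase x := fun h => hy (Finset.mem_of_mem_erase h)
      rw [h5 n (O.erase x) (a t0) (b t0) (g t0) r y hy',
        h5 n (O.erase x) (a t0) (b t0) (g t0) (r + 1) y hy']
      ring
    have e3 : (∑ x ∈ O, (a' x * hval ((insert y O).erase x) (a t0) (b t0) (g t0) r +
        b' x * hval ((insert y O).erase x) (a t0) (b t0) (g t0) (r + 1))) =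
        a t0 y * ∑ x ∈ O, (a' x * hval (O.erase x) (a t0) (b t0) (g t0) r +
          b' x * hval (O.erase x) (a t0) (b t0) (g t0) (r + 1)) +
        b t0 y * ∑ x ∈ O, (a' x * hval (O.erase x) (a t0) (b t0) (g t0) (r + 1) +
          b' x * hval (O.erase x) (a t0) (b t0) (g t0) (r + 1 + 1)) := by
      rw [Finset.sum_congr rfl e2, Finset.sum_add_distrib, ← Finset.mul_sum, ← Finset.mul_sum]
    rw [e3]
    ring

/-! ### attachment -/

lemma miss_lift {j n : ℕ} (J : SimpleGraph (Fin j)) (ψ : Fin j → Option (Fin n)) (i : Fin j) :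
    miss J (liftψ ψ) i = miss J ψ i := by
  unfold miss liftψ
  congr 1
  ext l
  simp [Option.map_eq_none_iff]

lemma mem_img_lift {j n : ℕ} (ψ : Fin j → Option (Fin n)) (c : Fin n) :
    c.castSucc ∈ img (liftψ ψ) ↔ c ∈ img ψ := by
  unfold img liftψ
  simp only [Finset.mem_filter, Finset.mem_univ, true_and, Option.map_eq_some_iff]
  constructor
  · rintro ⟨i, x, hx, hxc⟩
    have := Fin.castSucc_injective _ hxc
    exact ⟨i, this ▸ hx⟩
  · rintro ⟨i, hi⟩
    exact ⟨i, c, hi, rfl⟩

lemma last_notMem_img_lift {j n : ℕ} (ψ : Fin j → Option (Fin n)) :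
    Fin.last n ∉ img (liftψ ψ) := by
  unfold img liftψ
  simp only [Finset.mem_filter, Finset.mem_univ, true_and, Option.map_eq_some_iff]
  rintro ⟨i, x, hx, hxc⟩
  exact absurd hxc (Fin.castSucc_lt_last x).ne

lemma offN_lift (h1 : S_ATT) {j n : ℕ} (G : SimpleGraph (Fin n)) (hG : G.IsTree) (v : Fin n)
    (ψ : Fin j → Option (Fin n)) (h : Fin n) :
    offN (attach G v) (img (liftψ ψ)) h.castSucc =
      if v = h then insert (Fin.last n) ((offN G (img ψ) h).map Fin.castSuccEmb)
      else (offN G (img ψ) h).map Fin.castSuccEmb := by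
  obtain ⟨-, hadj, hlast, -⟩ := h1 n G v hG
  have key : ∀ b, b ∈ offN (attach G v) (img (liftψ ψ)) h.castSucc ↔
      (b = Fin.last n ∧ v = h) ∨ b ∈ (offN G (img ψ) h).map Fin.castSuccEmb := by
    intro b
    refine Fin.lastCases ?_ (fun c => ?_) b
    · simp only [offN, Finset.mem_filter, Finset.mem_univ, true_and, Finset.mem_map,
        Fin.castSuccEmb_apply]
      have h2 : (attach G v).Adj h.castSucc (Fin.last n) ↔ h = v := by
        rw [SimpleGraph.adj_comm]; exact hlast h
      rw [h2]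
      constructor
      · rintro ⟨h3, -⟩
        exact Or.inl h3.symm
      · rintro (h3 | ⟨c, -, hc⟩)
        · exact ⟨h3.symm, last_notMem_img_lift ψ⟩
        · exact absurd hc (Fin.castSucc_lt_last c).ne
    · simp only [offN, Finset.mem_filter, Finset.mem_univ, true_and, Finset.mem_map,
        Fin.castSuccEmb_apply, hadj, mem_img_lift]
      constructor
      · rintro h3
        exact Or.inr ⟨c, h3, rfl⟩
      · rintro (⟨h3, -⟩ | ⟨c', hc', hcc⟩)
        · exact absurd h3 (Fin.castSucc_lt_last c).ne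
        · have := Fin.castSucc_injective _ hcc
          exact this ▸ hc'
  ext b
  rw [key b]
  by_cases hv : v = h
  · simp [hv]
  · simp [hv]

/-- branch data after attachment at `v` -/
noncomputable def brd {n : ℕ} (G : SimpleGraph (Fin n)) (v h x : Fin n) : Multiset ℕ :=
  if v ∈ br G h x then (dg G v + 1) ::ₘ 1 ::ₘ (degs G (br G h x)).erase (dg G v)
  else degs G (br G h x)

lemma brd_eq (h2 : S_BR) {n : ℕ} (G : SimpleGraph (Fin n)) (hG : G.IsTree) (v h x : Fin n)
    (hx : G.Adj h x) :
    degs (attach G v) (br (attach G v) h.castSucc x.castSucc) = brd G v h x := by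
  obtain ⟨b1, b2, -, -⟩ := h2 n G v hG
  unfold brd
  split_ifs with hv
  · exact b1 h x hx hv
  · exact b2 h x hx hv

lemma hubf_ne (h1 : S_ATT) (h2 : S_BR) (h5 : S_HV) {j n : ℕ} (J : SimpleGraph (Fin j))
    (G : SimpleGraph (Fin n)) (hG : G.IsTree) (v : Fin n)
    (ψ : Fin j → Option (Fin n)) (i : Fin j) (h : Fin n) (hv : v ≠ h)
    (a b : Multiset ℕ → ℝ) (Kv : Fin j → ℝ) (Gf : Fin j → ℕ → ℕ → ℕ → ℝ) :
    hubf J (attach G v) a b Kv Gf (liftψ ψ) i h.castSucc =
      hval (offN G (img ψ) h) (fun x => a (brd G v h x)) (fun x => Kv i * b (brd G v h x))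
        (fun r => Gf i (miss J ψ i) (dg G h) r) 0 := by
  have hdeg := (h1 n G v hG).2.2.2.2.2.1 h
  rw [if_neg (Ne.symm hv), add_zero] at hdeg
  unfold hubf
  rw [offN_lift h1 G hG v ψ h, if_neg hv, hval_map h5, miss_lift, hdeg]
  refine hval_congr _ _ (fun x hx => ?_) (fun x hx => ?_) (fun r => rfl)
  · have hadj : G.Adj h x := (Finset.mem_filter.1 hx).2.1
    simp only [Fin.castSuccEmb_apply, brd_eq h2 G hG v h x hadj]
  · have hadj : G.Adj h x := (Finset.mem_filter.1 hx).2.1
    simp only [Fin.castSuccEmb_apply, brd_eq h2 G hG v h x hadj]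

lemma notMem_br_self {n : ℕ} (G : SimpleGraph (Fin n)) (h x : Fin n) : h ∉ br G h x := by
  simp [br]

lemma hubf_self (h1 : S_ATT) (h2 : S_BR) (h5 : S_HV) {j n : ℕ} (J : SimpleGraph (Fin j))
    (G : SimpleGraph (Fin n)) (hG : G.IsTree)
    (ψ : Fin j → Option (Fin n)) (i : Fin j) (h : Fin n)
    (a b : Multiset ℕ → ℝ) (Kv : Fin j → ℝ) (Gf : Fin j → ℕ → ℕ → ℕ → ℝ) :
    hubf J (attach G h) a b Kv Gf (liftψ ψ) i h.castSucc =
      a {1} * hval (offN G (img ψ) h) (fun x => a (degs G (br G h x)))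
        (fun x => Kv i * b (degs G (br G h x))) (fun r => Gf i (miss J ψ i) (dg G h + 1) r) 0 +
      Kv i * b {1} * hval (offN G (img ψ) h) (fun x => a (degs G (br G h x)))
        (fun x => Kv i * b (degs G (br G h x))) (fun r => Gf i (miss J ψ i) (dg G h + 1) r) 1 := by
  have hdeg := (h1 n G h hG).2.2.2.2.2.1 h
  rw [if_pos rfl] at hdeg
  have hlast := (h2 n G h hG).2.2.1
  have hnl : Fin.last n ∉ (offN G (img ψ) h).map Fin.castSuccEmb := by
    simp only [Finset.mem_map, Fin.castSuccEmb_apply]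
    rintro ⟨c, -, hc⟩
    exact absurd hc (Fin.castSucc_lt_last c).ne
  unfold hubf
  rw [offN_lift h1 G hG h ψ h, if_pos rfl, h5 (n + 1) _ _ _ _ _ _ hnl, hval_map h5, hval_map h5,
    miss_lift, hdeg, hlast]
  have hb : ∀ x ∈ offN G (img ψ) h,
      degs (attach G h) (br (attach G h) h.castSucc x.castSucc) = degs G (br G h x) := by
    intro x hx
    have hadj : G.Adj h x := (Finset.mem_filter.1 hx).2.1
    rw [brd_eq h2 G hG h h x hadj, brd, if_neg (notMem_br_self G h x)]
  congr 2
  · refine hval_congr _ _ (fun x hx => ?_) (fun x hx => ?_) (fun r => rfl)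
    · simp only [Fin.castSuccEmb_apply, hb x hx]
    · simp only [Fin.castSuccEmb_apply, hb x hx]
  · refine hval_congr _ _ (fun x hx => ?_) (fun x hx => ?_) (fun r => rfl)
    · simp only [Fin.castSuccEmb_apply, hb x hx]
    · simp only [Fin.castSuccEmb_apply, hb x hx]

/-- unchanged hubs -/
lemma hubf_far (h1 : S_ATT) (h2 : S_BR) (h5 : S_HV) {j n : ℕ} (J : SimpleGraph (Fin j))
    (G : SimpleGraph (Fin n)) (hG : G.IsTree) (v : Fin n)
    (ψ : Fin j → Option (Fin n)) (i : Fin j) (h : Fin n) (hv : v ≠ h)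
    (hb : ∀ x ∈ offN G (img ψ) h, v ∉ br G h x)
    (a b : Multiset ℕ → ℝ) (Kv : Fin j → ℝ) (Gf : Fin j → ℕ → ℕ → ℕ → ℝ) :
    hubf J (attach G v) a b Kv Gf (liftψ ψ) i h.castSucc = hubf J G a b Kv Gf ψ i h := by
  rw [hubf_ne h1 h2 h5 J G hG v ψ i h hv]
  unfold hubf
  refine hval_congr _ _ (fun x hx => ?_) (fun x hx => ?_) (fun r => rfl)
  · simp only [brd, if_neg (hb x hx)]
  · simp only [brd, if_neg (hb x hx)]

/-- `Lop` as a sum over the branch -/
lemma Lop_degs (α : ℝ) {n : ℕ} (G : SimpleGraph (Fin n)) (a : Multiset ℕ → ℝ)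
    (B : Finset (Fin n)) :
    Lop α a (degs G B) = ∑ v ∈ B, lam α (dg G v) *
      (a ((dg G v + 1) ::ₘ 1 ::ₘ (degs G B).erase (dg G v)) - a (degs G B)) := by
  unfold Lop
  conv_lhs => enter [1]; unfold degs
  rw [Multiset.map_map]
  rfl

theorem evh (h1 : S_ATT) (h2 : S_BR) (h3 : S_CELL) (h4 : S_IMG) (h5 : S_HV) : S_EVH := by
  intro α j n J G ψ hJ hG hn hψ
  obtain ⟨hconn, -, -⟩ := h4 j n J G ψ hJ hG hψ
  obtain ⟨cell1, cell2⟩ := h3 n G (img ψ) hG hconn
  have himg : ∀ i h, ψ i = some h → h ∈ img ψ := fun i h hi => by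
    simp only [img, Finset.mem_filter, Finset.mem_univ, true_and]
    exact ⟨i, hi⟩
  refine ⟨?_, ?_⟩
  · intro a b Kv Gf Gf' S t0 ha hb hGf i h hi
    have hI := himg i h hi
    set O := offN G (img ψ) h with hO
    set A : Fin n → ℝ := fun x => a t0 (degs G (br G h x)) with hA
    set B : Fin n → ℝ := fun x => Kv i * b t0 (degs G (br G h x)) with hB
    set g : ℕ → ℝ := fun r => Gf i (miss J ψ i) (dg G h) r t0 with hg
    set g1 : ℕ → ℝ := fun r => Gf i (miss J ψ i) (dg G h + 1) r t0 with hg1
    -- derivative of the hub value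
    have hder := hval_der h5 (a := fun t x => a t (degs G (br G h x)))
      (b := fun t x => Kv i * b t (degs G (br G h x)))
      (g := fun t r => Gf i (miss J ψ i) (dg G h) r t)
      (a' := fun x => Lop α (a t0) (degs G (br G h x)))
      (b' := fun x => Kv i * Lop α (b t0) (degs G (br G h x)))
      (g' := fun r => Gf' i (miss J ψ i) (dg G h) r) (S := S) (t0 := t0)
      (fun x => ha _) (fun x => (hb _).const_mul _) (fun r => hGf i _ _ r) O 0
    refine hder.congr_deriv ?_
    -- the change under attachment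
    have hchange : ∀ v : Fin n, lam α (dg G v) * (hubf J (attach G v) (a t0) (b t0) Kv
          (fun i m d r => Gf i m d r t0) (liftψ ψ) i h.castSucc -
        hubf J G (a t0) (b t0) Kv (fun i m d r => Gf i m d r t0) ψ i h) =
        (∑ x ∈ O, if v ∈ br G h x then
          (lam α (dg G v) * (a t0 ((dg G v + 1) ::ₘ 1 ::ₘ (degs G (br G h x)).erase (dg G v)) -
            a t0 (degs G (br G h x)))) * hval (O.erase x) A B g 0 +
          (Kv i * (lam α (dg G v) * (b t0 ((dg G v + 1) ::ₘ 1 ::ₘ
            (degs G (br G h x)).erase (dg G v)) -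
            b t0 (degs G (br G h x))))) * hval (O.erase x) A B g 1 else 0) +
        (if v = h then lam α (dg G h) * (a t0 {1} * hval O A B g1 0 +
          Kv i * b t0 {1} * hval O A B g1 1 - hval O A B g 0) else 0) := by
      intro v
      by_cases hvh : v = h
      · subst hvh
        rw [if_pos rfl, hubf_self h1 h2 h5 J G hG ψ i v]
        rw [Finset.sum_eq_zero (fun x _ => if_neg (notMem_br_self G v x)), zero_add]
        rfl
      · rw [if_neg hvh, add_zero]
        by_cases hex : ∃ x ∈ O, v ∈ br G h x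
        · obtain ⟨x0, hx0, hvx0⟩ := hex
          have hvI : v ∉ img ψ := fun hvI => cell2 v hvI h hI x0 hx0 hvx0
          have huniq : ∀ x ∈ O, v ∈ br G h x → x = x0 := by
            intro x hx hvx
            obtain ⟨p, hp, hpu⟩ := cell1 v hvI
            have e1 := hpu (h, x) ⟨hI, hx, hvx⟩
            have e2 := hpu (h, x0) ⟨hI, hx0, hvx0⟩
            have e3 := e1.trans e2.symm
            exact (Prod.mk.inj e3).2
          rw [Finset.sum_eq_single x0 (fun x hx hne => if_neg fun hvx => hne (huniq x hx hvx))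
            (fun hx => absurd hx0 hx), if_pos hvx0, hubf_ne h1 h2 h5 J G hG v ψ i h hvh]
          unfold hubf
          rw [← hO]
          rw [hval_erase h5 O (fun x => a t0 (brd G v h x)) _ _ 0 hx0,
            hval_erase h5 O (fun x => a t0 (degs G (br G h x))) _ _ 0 hx0]
          have eq : ∀ r, hval (O.erase x0) (fun x => a t0 (brd G v h x))
              (fun x => Kv i * b t0 (brd G v h x)) (fun r => Gf i (miss J ψ i) (dg G h) r t0) r =
              hval (O.erase x0) A B g r := by
            intro r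
            refine hval_congr _ _ (fun x hx => ?_) (fun x hx => ?_) (fun r => rfl)
            · have hxn : v ∉ br G h x := fun hvx =>
                (Finset.ne_of_mem_erase hx) (huniq x (Finset.mem_of_mem_erase hx) hvx)
              simp only [brd, if_neg hxn, hA]
            · have hxn : v ∉ br G h x := fun hvx =>
                (Finset.ne_of_mem_erase hx) (huniq x (Finset.mem_of_mem_erase hx) hvx)
              simp only [brd, if_neg hxn, hB]
          rw [eq, eq]
          simp only [brd, if_pos hvx0]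
          simp only [zero_add]
          change lam α (dg G v) *
            (a t0 ((dg G v + 1) ::ₘ 1 ::ₘ (degs G (br G h x0)).erase (dg G v)) *
              hval (O.erase x0) A B g 0 +
            Kv i * b t0 ((dg G v + 1) ::ₘ 1 ::ₘ (degs G (br G h x0)).erase (dg G v)) *
              hval (O.erase x0) A B g 1 -
            (a t0 (degs G (br G h x0)) * hval (O.erase x0) A B g 0 +
              Kv i * b t0 (degs G (br G h x0)) * hval (O.erase x0) A B g 1)) = _
          ring
        · push Not at hex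
          rw [hubf_far h1 h2 h5 J G hG v ψ i h hvh hex, sub_self, mul_zero,
            Finset.sum_eq_zero (fun x hx => if_neg (hex x hx))]
    have e3 : ∀ x ∈ O, (∑ v, if v ∈ br G h x then
          (lam α (dg G v) * (a t0 ((dg G v + 1) ::ₘ 1 ::ₘ (degs G (br G h x)).erase (dg G v)) -
            a t0 (degs G (br G h x)))) * hval (O.erase x) A B g 0 +
          (Kv i * (lam α (dg G v) * (b t0 ((dg G v + 1) ::ₘ 1 ::ₘ
            (degs G (br G h x)).erase (dg G v)) -
            b t0 (degs G (br G h x))))) * hval (O.erase x) A B g 1 else 0) =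
        Lop α (a t0) (degs G (br G h x)) * hval (O.erase x) A B g 0 +
        Kv i * Lop α (b t0) (degs G (br G h x)) * hval (O.erase x) A B g 1 := by
      intro x _
      rw [← Finset.sum_filter, Finset.filter_mem_eq_inter, Finset.univ_inter,
        Finset.sum_add_distrib, ← Finset.sum_mul, ← Finset.sum_mul, ← Finset.mul_sum,
        ← Lop_degs, ← Lop_degs]
    have e5 : (∑ v, lam α (dg G v) * (hubf J (attach G v) (a t0) (b t0) Kv
          (fun i m d r => Gf i m d r t0) (liftψ ψ) i h.castSucc -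
        hubf J G (a t0) (b t0) Kv (fun i m d r => Gf i m d r t0) ψ i h)) =
        (∑ x ∈ O, (Lop α (a t0) (degs G (br G h x)) * hval (O.erase x) A B g 0 +
        Kv i * Lop α (b t0) (degs G (br G h x)) * hval (O.erase x) A B g 1)) +
        lam α (dg G h) * (a t0 {1} * hval O A B g1 0 +
          Kv i * b t0 {1} * hval O A B g1 1 - hval O A B g 0) := by
      rw [Finset.sum_congr rfl fun v _ => hchange v, Finset.sum_add_distrib, Finset.sum_comm,
        Finset.sum_ite_eq' Finset.univ h, if_pos (Finset.mem_univ h), Finset.sum_congr rfl e3]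
    have e4 : hubf J G (a t0) (b t0) Kv (fun i m d r => Gf' i m d r - lam α d *
        (a t0 {1} * Gf i m (d + 1) r t0 + Kv i * b t0 {1} * Gf i m (d + 1) (r + 1) t0 -
          Gf i m d r t0)) ψ i h =
        hval O A B (fun r => Gf' i (miss J ψ i) (dg G h) r) 0 - lam α (dg G h) *
        (a t0 {1} * hval O A B g1 0 + Kv i * b t0 {1} * hval O A B g1 1 - hval O A B g 0) := by
      rw [← hval_shift O A B g1]
      exact hval_lin O A B _ _ _ _ _ _ _ 0
    rw [e4, e5]
    simp only [zero_add]
    ring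
  · intro v
    by_cases hvI : v ∈ img ψ
    · obtain ⟨i0, hi0⟩ : ∃ i0, ψ i0 = some v := by
        simpa [img] using hvI
      refine ⟨i0, fun i h hne hi a b Kv Gf => ?_⟩
      refine hubf_far h1 h2 h5 J G hG v ψ i h ?_ ?_ a b Kv Gf
      · rintro rfl
        exact hne (hψ.inj i i0 v hi hi0)
      · intro x hx
        exact cell2 v hvI h (himg i h hi) x hx
    · obtain ⟨⟨h0, x0⟩, ⟨hh0, hx0, hv0⟩, hu⟩ := cell1 v hvI
      obtain ⟨i0, hi0⟩ : ∃ i0, ψ i0 = some h0 := by
        simpa [img] using hh0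
      refine ⟨i0, fun i h hne hi a b Kv Gf => ?_⟩
      refine hubf_far h1 h2 h5 J G hG v ψ i h ?_ ?_ a b Kv Gf
      · rintro rfl
        exact hvI (himg i v hi)
      · intro x hx hvx
        have e := hu (h, x) ⟨himg i h hi, hx, hvx⟩
        have e1 : h = h0 := (Prod.mk.inj e).1
        subst e1
        exact hne (hψ.inj i i0 h hi hi0)

end Pool.Agent.TH443.J2287
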