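import Pool.Agent.TH981.SD.Stm

set_option autoImplicit false

open Pool.Agent.TH981.SD
open Finset Set Filter
open scoped BigOperators Topology Classical

namespace Pool.Agent.TH443.J2288

lemma wt_eq {j n : ℕ} (J : SimpleGraph (Fin j)) (G : SimpleGraph (Fin n)) (a b : Multiset ℕ → ℝ)
    (Kv Z : Fin j → ℝ) (Gf : Fin j → ℕ → ℕ → ℕ → ℝ) (ψ : Fin j → Option (Fin n)) :
    wt J G a b Kv Z Gf ψ = ∏ i, fac J G a b Kv Z Gf ψ i := by
  unfold wt
  refine Finset.prod_congr rfl fun i _ => ?_
  unfold fac
  cases ψ i <;> rfl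

theorem evol (h1 : S_EVH) : S_EVOL := by
  intro α j n J G ψ a b Kv Z Z' Gf Gf' S t0 hJ hG hn hψ ha hb hZ hGf
  obtain ⟨hd, hloc⟩ := h1 α j n J G ψ hJ hG hn hψ
  set F : Fin j → ℝ → ℝ := fun i t => fac J G (a t) (b t) Kv (fun i => Z i t)
    (fun i m d r => Gf i m d r t) ψ i with hF
  set FA : Fin n → Fin j → ℝ := fun v i => fac J (attach G v) (a t0) (b t0) Kv (fun i => Z i t0)
    (fun i m d r => Gf i m d r t0) (liftψ ψ) i with hFA
  set D : Fin j → ℝ := fun i => dfac α J G (a t0) (b t0) Kv Z' (fun i m d r => Gf i m d r t0)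
    Gf' ψ i with hD
  have hFnone : ∀ i, ψ i = none → ∀ t, F i t = Z i t := by
    intro i hi t
    simp only [hF, fac, hi]
  have hFsome : ∀ i h, ψ i = some h → ∀ t, F i t =
      hubf J G (a t) (b t) Kv (fun i m d r => Gf i m d r t) ψ i h := by
    intro i h hi t
    simp only [hF, fac, hi]
  have hFAnone : ∀ v i, ψ i = none → FA v i = Z i t0 := by
    intro v i hi
    simp only [hFA, fac, liftψ, hi, Option.map_none]
  have hFAsome : ∀ v i h, ψ i = some h → FA v i =
      hubf J (attach G v) (a t0) (b t0) Kv (fun i m d r => Gf i m d r t0) (liftψ ψ) i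
        h.castSucc := by
    intro v i h hi
    simp only [hFA, fac]
    have : liftψ ψ i = some h.castSucc := by simp [liftψ, hi]
    rw [this]
  have hder : ∀ i, HasDerivWithinAt (F i)
      (∑ v, lam α (dg G v) * (FA v i - F i t0) + D i) S t0 := by
    intro i
    rcases hi : ψ i with _ | h
    · have e1 : F i = Z i := funext fun t => hFnone i hi t
      rw [e1]
      refine (hZ i).congr_deriv ?_
      have e2 : D i = Z' i := by simp only [hD, dfac, hi]
      rw [e2, Finset.sum_eq_zero, zero_add]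
      intro v _
      rw [hFAnone v i hi, sub_self, mul_zero]
    · have e1 : F i = fun t => hubf J G (a t) (b t) Kv (fun i m d r => Gf i m d r t) ψ i h :=
        funext fun t => hFsome i h hi t
      rw [e1]
      refine (hd a b Kv Gf Gf' S t0 ha hb hGf i h hi).congr_deriv ?_
      have e2 : D i = hubf J G (a t0) (b t0) Kv (fun i m d r => Gf' i m d r - lam α d *
        (a t0 {1} * Gf i m (d + 1) r t0 + Kv i * b t0 {1} * Gf i m (d + 1) (r + 1) t0 -
          Gf i m d r t0)) ψ i h := by
        simp only [hD, dfac, hi]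
      rw [e2]
      congr 1
      refine Finset.sum_congr rfl fun v _ => ?_
      rw [hFAsome v i h hi]
  have hprod := HasDerivWithinAt.fun_finsetProd (u := Finset.univ) (f := F)
    (f' := fun i => ∑ v, lam α (dg G v) * (FA v i - F i t0) + D i) (s := S) (x := t0)
    (fun i _ => hder i)
  have e0 : (fun t => wt J G (a t) (b t) Kv (fun i => Z i t) (fun i m d r => Gf i m d r t) ψ) =
      fun t => ∏ i, F i t := by
    funext t
    exact wt_eq _ _ _ _ _ _ _ _
  rw [e0]
  refine hprod.congr_deriv ?_
  have hv : ∀ v : Fin n, wt J (attach G v) (a t0) (b t0) Kv (fun i => Z i t0)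
        (fun i m d r => Gf i m d r t0) (liftψ ψ) -
      wt J G (a t0) (b t0) Kv (fun i => Z i t0) (fun i m d r => Gf i m d r t0) ψ =
      ∑ i, (FA v i - F i t0) * ∏ i' ∈ Finset.univ.erase i, F i' t0 := by
    intro v
    rw [wt_eq, wt_eq]
    change ∏ i, FA v i - ∏ i, F i t0 = _
    obtain ⟨i0, hi0⟩ := hloc v
    have hsame : ∀ i, i ≠ i0 → FA v i = F i t0 := by
      intro i hne
      rcases hi : ψ i with _ | h
      · rw [hFAnone v i hi, hFnone i hi]
      · rw [hFAsome v i h hi, hFsome i h hi]
        exact hi0 i h hne hi _ _ _ _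
    rw [Finset.sum_eq_single i0 (fun i _ hne => by rw [hsame i hne, sub_self, zero_mul])
      (fun h => absurd (Finset.mem_univ i0) h)]
    rw [← Finset.mul_prod_erase Finset.univ (fun i => FA v i) (Finset.mem_univ i0),
      ← Finset.mul_prod_erase Finset.univ (fun i => F i t0) (Finset.mem_univ i0),
      Finset.prod_congr rfl fun i hi => hsame i (Finset.ne_of_mem_erase hi)]
    ring
  have hsum : (∑ v : Fin n, lam α (dg G v) * (wt J (attach G v) (a t0) (b t0) Kv
        (fun i => Z i t0) (fun i m d r => Gf i m d r t0) (liftψ ψ) -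
      wt J G (a t0) (b t0) Kv (fun i => Z i t0) (fun i m d r => Gf i m d r t0) ψ)) =
      ∑ v : Fin n, lam α (dg G v) *
        ∑ i, (FA v i - F i t0) * ∏ i' ∈ Finset.univ.erase i, F i' t0 :=
    Finset.sum_congr rfl fun v _ => by rw [hv v]
  rw [hsum]
  simp only [smul_eq_mul, mul_add, Finset.sum_add_distrib, Finset.mul_sum]
  congr 1
  · rw [Finset.sum_comm]
    refine Finset.sum_congr rfl fun v _ => Finset.sum_congr rfl fun i _ => ?_
    ring
  · refine Finset.sum_congr rfl fun i _ => ?_
    exact mul_comm _ _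

end Pool.Agent.TH443.J2288
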