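import Pool.Agent.TH279.UP.Defs4

/-!
# Forms of large degree are in the Jacobian ideal of a smooth form (job 3510)
-/

open MvPolynomial Pool.Agent.TH279.UP

namespace Pool.Agent.TH443.J3510

variable {σ : Type*} {R : Type*} [CommRing R]

lemma hc_mul (a b : MvPolynomial σ R) (i n : ℕ) (hb : b.IsHomogeneous i) (h : i ≤ n) :
    homogeneousComponent n (a * b) = homogeneousComponent (n - i) a * b := by
  classical
  let _ := MvPolynomial.gradedAlgebra (σ := σ) (R := R)
  have := DirectSum.coe_decompose_mul_of_right_mem_of_le (𝒜 := homogeneousSubmodule σ R)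
    (a := a) (b := b) (i := i) (n := n) ((mem_homogeneousSubmodule i b).mpr hb) h
  have h2 : ∀ (p : MvPolynomial σ R) (m : ℕ),
      ((DirectSum.decompose (homogeneousSubmodule σ R) p m : homogeneousSubmodule σ R m) :
        MvPolynomial σ R) = homogeneousComponent m p := fun p m =>
    MvPolynomial.decomposition.decompose'_apply p m
  rw [h2, h2] at this
  exact this

lemma mem_of_pow (n N : ℕ) (J : Ideal (MvPolynomial (Fin (n + 1 + 1)) ℂ))
    (hN : ∀ i, (X i : MvPolynomial (Fin (n + 1 + 1)) ℂ) ^ N ∈ J)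
    (D : ℕ) (hD : (n + 2) * N ≤ D) (P : MvPolynomial (Fin (n + 1 + 1)) ℂ)
    (hP : P.IsHomogeneous D) : P ∈ J := by
  classical
  rw [P.as_sum]
  refine J.sum_mem fun m hm => ?_
  have hdeg : m.degree = D := by
    by_contra hne
    exact (mem_support_iff.mp hm) (hP.coeff_eq_zero hne)
  have hex : ∃ i, N ≤ m i := by
    by_contra hcon
    push Not at hcon
    have hlt : m.degree < (n + 2) * N := by
      rw [Finsupp.degree_eq_sum]
      calc ∑ i, m i < ∑ _i : Fin (n + 1 + 1), N :=
            Finset.sum_lt_sum_of_nonempty Finset.univ_nonempty (fun i _ => hcon i)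
        _ = (n + 2) * N := by simp
    omega
  obtain ⟨i, hi⟩ := hex
  have : monomial m (coeff m P) = monomial (m - Finsupp.single i N) (coeff m P) * X i ^ N := by
    rw [X_pow_eq_monomial, monomial_mul, mul_one]
    congr 1
    rw [tsub_add_cancel_of_le]
    exact Finsupp.single_le_iff.mpr hi
  rw [this]
  exact J.mul_mem_left _ (hN i)

theorem NULL : S_NULL := by
  intro n d F hd hF hsm
  classical
  set J : Ideal (MvPolynomial (Fin (n + 1 + 1)) ℂ) :=
    Ideal.span (Set.range fun i => pderiv i F) with hJ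
  have hrad : ∀ i, (X i : MvPolynomial (Fin (n + 1 + 1)) ℂ) ∈ J.radical := by
    intro i
    rw [← vanishingIdeal_zeroLocus_eq_radical (K := ℂ), mem_vanishingIdeal_iff]
    intro x hx
    have hx0 : x = 0 := by
      apply hsm
      intro j
      have := (mem_zeroLocus_iff.mp hx) (pderiv j F) (Ideal.subset_span ⟨j, rfl⟩)
      simpa [aeval_eq_eval] using this
    simp [hx0]
  choose N hN using fun i => Ideal.mem_radical_iff.mp (hrad i)
  have hN' : ∀ i, (X i : MvPolynomial (Fin (n + 1 + 1)) ℂ) ^ (∑ j, N j) ∈ J := by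
    intro i
    have hle : N i ≤ ∑ j, N j := Finset.single_le_sum (f := N) (fun _ _ => Nat.zero_le _)
      (Finset.mem_univ i)
    exact J.pow_mem_of_pow_mem (hN i) hle
  refine ⟨max ((n + 2) * ∑ j, N j) (d - 1), fun D hD P hP => ?_⟩
  have hPJ : P ∈ J := mem_of_pow n _ J hN' D (le_trans (le_max_left _ _) hD) P hP
  rw [hJ] at hPJ
  obtain ⟨a, ha⟩ := (Ideal.mem_span_range_iff_exists_fun).mp hPJ
  refine ⟨fun i => homogeneousComponent (D - (d - 1)) (a i),
    fun i => homogeneousComponent_isHomogeneous _ _, ?_⟩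
  have h1 : homogeneousComponent D P = P := homogeneousComponent_eq_self hP
  rw [← h1, ← ha, map_sum]
  refine Finset.sum_congr rfl fun i _ => ?_
  exact hc_mul _ _ (d - 1) D hF.pderiv (le_trans (le_max_right _ _) hD)

end Pool.Agent.TH443.J3510
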