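import Pool.Agent.TH279.UP.Defs4

/-!
# Leading coefficients of Hilbert functions (job 3514)
-/

open MvPolynomial Pool.Agent.TH279.UP

namespace Pool.Agent.TH443.J3514

lemma lower (n a : ℕ) : ∀ d : ℕ,
    (a + n + 1).choose (n + 1) + d * (a + n).choose n ≤ (a + d + n + 1).choose (n + 1) := by
  intro d
  induction d with
  | zero => simp
  | succ d ih =>
    have h1 : (a + (d + 1) + n + 1).choose (n + 1) =
        (a + d + n + 1).choose n + (a + d + n + 1).choose (n + 1) := by
      rw [show a + (d + 1) + n + 1 = (a + d + n + 1) + 1 by ring, Nat.choose_succ_succ]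
    have h2 : (a + n).choose n ≤ (a + d + n + 1).choose n := Nat.choose_le_choose n (by omega)
    rw [h1, add_mul, one_mul]
    omega

lemma upper (n b : ℕ) : ∀ r : ℕ,
    (b + r + n + 1).choose (n + 1) ≤ (b + n + 1).choose (n + 1) + r * (b + r + n).choose n := by
  intro r
  induction r with
  | zero => simp
  | succ r ih =>
    have h1 : (b + (r + 1) + n + 1).choose (n + 1) =
        (b + r + n + 1).choose n + (b + r + n + 1).choose (n + 1) := by
      rw [show b + (r + 1) + n + 1 = (b + r + n + 1) + 1 by ring, Nat.choose_succ_succ]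
    have h2 : (b + r + n).choose n ≤ (b + r + n + 1).choose n := Nat.choose_le_choose n (by omega)
    have h3 : r * (b + r + n).choose n ≤ r * (b + r + n + 1).choose n := Nat.mul_le_mul_left r h2
    rw [h1, show b + (r + 1) + n = b + r + n + 1 by ring, add_mul, one_mul]
    omega

lemma key (n d r c : ℕ) (hd : 2 ≤ d)
    (h : ∀ k : ℕ, d ≤ (d - 1) * k → r ≤ c + k →
      ((d - 1) * k + n + 1).choose (n + 1) + (c + k - r + n + 1).choose (n + 1) ≤
        ((d - 1) * k - d + n + 1).choose (n + 1) + (c + k + n + 1).choose (n + 1))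
    (k : ℕ) (hk1 : d ≤ (d - 1) * k) (hk2 : r ≤ c + k) :
    d * ((d - 1) * k - d + 1) ^ n ≤ r * (c + k + n) ^ n := by
  have h0 := h k hk1 hk2
  have h1 := lower n ((d - 1) * k - d) d
  rw [show (d - 1) * k - d + d = (d - 1) * k by omega] at h1
  have h2 := upper n (c + k - r) r
  rw [show c + k - r + r = c + k by omega] at h2
  have h3 : d * ((d - 1) * k - d + n).choose n ≤ r * (c + k + n).choose n := by omega
  have h4 : ((d - 1) * k - d + 1) ^ n ≤ n.factorial * ((d - 1) * k - d + n).choose n := by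
    rw [← Nat.descFactorial_eq_factorial_mul_choose]
    have := Nat.pow_sub_le_descFactorial ((d - 1) * k - d + n) n
    rwa [show (d - 1) * k - d + n + 1 - n = (d - 1) * k - d + 1 by omega] at this
  have h5 : n.factorial * (c + k + n).choose n ≤ (c + k + n) ^ n := by
    rw [← Nat.descFactorial_eq_factorial_mul_choose]
    exact Nat.descFactorial_le_pow _ _
  calc d * ((d - 1) * k - d + 1) ^ n
      ≤ d * (n.factorial * ((d - 1) * k - d + n).choose n) := Nat.mul_le_mul_left d h4
    _ = n.factorial * (d * ((d - 1) * k - d + n).choose n) := by ring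
    _ ≤ n.factorial * (r * (c + k + n).choose n) := Nat.mul_le_mul_left _ h3
    _ = r * (n.factorial * (c + k + n).choose n) := by ring
    _ ≤ r * (c + k + n) ^ n := Nat.mul_le_mul_left r h5

theorem NUM : S_NUM := by
  intro n d r c hd h
  have hkey := key n d r c hd h
  have h1 : ∀ j : ℕ, d + r + 1 ≤ j →
      ((d : ℝ) * ((d : ℝ) - 1) ^ n) ≤ (r : ℝ) * (1 + (1 + c + n : ℝ) / (j : ℝ)) ^ n := by
    intro j hj
    have hjpos : (0 : ℝ) < j := by
      have : 0 < j := by omega
      exact_mod_cast this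
    have hd1 : 1 ≤ d - 1 := by omega
    have hk1 : d ≤ (d - 1) * (j + 1) := by nlinarith
    have hk2 : r ≤ c + (j + 1) := by omega
    have h2 := hkey (j + 1) hk1 hk2
    have h3 : (d - 1) * (j + 1) - d + 1 = (d - 1) * j := by
      have : (d - 1) * (j + 1) = (d - 1) * j + (d - 1) := by ring
      omega
    rw [h3] at h2
    have h4 : (d : ℝ) * (((d : ℝ) - 1) * j) ^ n ≤ (r : ℝ) * (c + (j + 1) + n) ^ n := by
      have : ((d - 1 : ℕ) : ℝ) = (d : ℝ) - 1 := by
        rw [Nat.cast_sub (by omega)]; simp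
      rw [← this]
      exact_mod_cast h2
    have h5 : (c + (j + 1) + n : ℝ) = (1 + (1 + c + n : ℝ) / (j : ℝ)) * j := by
      field_simp
      ring
    rw [h5, mul_pow, mul_pow, ← mul_assoc, ← mul_assoc] at h4
    exact le_of_mul_le_mul_right h4 (pow_pos hjpos n)
  have h2 : Filter.Tendsto (fun j : ℕ => (r : ℝ) * (1 + (1 + c + n : ℝ) / (j : ℝ)) ^ n)
      Filter.atTop (nhds ((r : ℝ) * (1 + 0) ^ n)) := by
    apply Filter.Tendsto.const_mul
    apply Filter.Tendsto.pow
    apply Filter.Tendsto.const_add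
    exact tendsto_const_div_atTop_nhds_zero_nat _
  have h3 : ((d : ℝ) * ((d : ℝ) - 1) ^ n) ≤ (r : ℝ) * (1 + 0) ^ n := by
    apply ge_of_tendsto h2
    filter_upwards [Filter.eventually_ge_atTop (d + r + 1)] with j hj
    exact h1 j hj
  have h4 : ((d * (d - 1) ^ n : ℕ) : ℝ) ≤ (r : ℝ) := by
    push_cast
    rw [Nat.cast_sub (by omega)]
    simpa using h3
  exact_mod_cast h4

end Pool.Agent.TH443.J3514
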