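import Pool.Agent.TH614.HS.Base

/-!
# The conic of S has the root S^2 (job 3903)
-/

set_option autoImplicit false

open Polynomial Pool.Agent.TH614.HS

namespace Pool.Agent.TH443.J3903

variable {L : Type} [Field L]

/-- characteristic not 3 -/
lemma alg1 (n th y0 y1 y2 z0 z1 z2 : L) (h2 : (2 : L) ≠ 0) (h3 : (3 : L) ≠ 0) (hn : n ≠ 0)
    (hth : th ^ 2 = 3)
    (f1 : y0 + y1 + y2 = n * (z0 + z1 + z2))
    (r0 : 2 * (n ^ 2 + 1) * y0 - th * n * (y1 - y2) =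
      n * (-2 * n ^ 2 * z0 + (2 * n ^ 2 + 1) * (z1 + z2)))
    (s0 : 2 * n * (1 + n ^ 2) * z0 + th * n ^ 2 * (z1 - z2) + 2 * y0 -
      (2 + n ^ 2) * (y1 + y2) = 0)
    (hI : y0 * z0 + y1 * z1 + y2 * z2 = 0) :
    n ^ 2 * (y0 ^ 2 - z0 ^ 2 - 4 * n ^ 2 * z1 * z2 - 2 * th * (y1 * z1 - y2 * z2)) +
      4 * y1 * y2 = 0 := by
  have hy0 : y0 = n * (z0 + z1 + z2) - y1 - y2 := by linear_combination f1
  subst hy0
  set Dl : L := 2 * (n ^ 2 + 1) * (n * (z0 + z1 + z2) - y1 - y2) + 2 * n ^ 3 * z0 -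
    n * (2 * n ^ 2 + 1) * (z1 + z2) with hDl
  set E : L := (2 + n ^ 2) * (y1 + y2) - 2 * (n * (z0 + z1 + z2) - y1 - y2) -
    2 * n * (1 + n ^ 2) * z0 with hE
  have r0' : th * n * (y1 - y2) = Dl := by
    rw [hDl]; linear_combination -r0
  have s0' : th * n ^ 2 * (z1 - z2) = E := by
    rw [hE]; linear_combination s0
  have e1 : 3 * n ^ 4 * (z1 - z2) ^ 2 = E ^ 2 := by
    rw [← s0']; linear_combination (-(n ^ 4 * (z1 - z2) ^ 2)) * hth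
  have e2 : 3 * n ^ 2 * (y1 - y2) ^ 2 = Dl ^ 2 := by
    rw [← r0']; linear_combination (-(n ^ 2 * (y1 - y2) ^ 2)) * hth
  have e3 : 3 * n ^ 3 * ((y1 - y2) * (z1 - z2)) = Dl * E := by
    rw [← r0', ← s0']; linear_combination (-(n ^ 3 * ((y1 - y2) * (z1 - z2)))) * hth
  have key : (2 * (3 * n ^ 2)) * (n ^ 2 * ((n * (z0 + z1 + z2) - y1 - y2) ^ 2 - z0 ^ 2 - 4 * n ^ 2 * z1 * z2 -
      2 * th * (y1 * z1 - y2 * z2)) + 4 * y1 * y2) = 0 := by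
    rw [hDl] at r0' e2 e3
    rw [hE] at s0' e1 e3
    linear_combination 2 * n ^ 2 * e1 - 2 * e2 - 6 * n ^ 2 * (y1 + y2) * s0'
      - 6 * n ^ 3 * (z1 + z2) * r0' + (n ^ 2 - 1) * e3 - 6 * n ^ 3 * (n ^ 2 - 1) * hI
  rcases mul_eq_zero.mp key with h | h
  · exact absurd h (mul_ne_zero h2 (mul_ne_zero h3 (pow_ne_zero 2 hn)))
  · exact h

/-- characteristic 3 -/
lemma alg2 (n y0 y1 y2 z0 z1 z2 : L) (h3 : (3 : L) = 0) (hn : n ≠ 0)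
    (hn1 : n ^ 2 + 1 ≠ 0)
    (r0 : 2 * (n ^ 2 + 1) * y0 = n * (-2 * n ^ 2 * z0 + (2 * n ^ 2 + 1) * (z1 + z2)))
    (r1 : 2 * (n ^ 2 + 1) * y1 = n * (-2 * n ^ 2 * z1 + (2 * n ^ 2 + 1) * (z2 + z0)))
    (r2 : 2 * (n ^ 2 + 1) * y2 = n * (-2 * n ^ 2 * z2 + (2 * n ^ 2 + 1) * (z0 + z1)))
    (hI : y0 * z0 + y1 * z1 + y2 * z2 = 0) :
    n ^ 2 * (y0 ^ 2 - z0 ^ 2 - 4 * n ^ 2 * z1 * z2) + 4 * y1 * y2 = 0 := by
  obtain ⟨la, hla⟩ : ∃ la : L, la * (n ^ 2 + 1) = 1 - n ^ 2 :=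
    ⟨(1 - n ^ 2) / (n ^ 2 + 1), by field_simp⟩
  set T : L := z0 + z1 + z2 with hT
  have g : ∀ y z : L, 2 * (n ^ 2 + 1) * y = n * (-2 * n ^ 2 * z + (2 * n ^ 2 + 1) * (T - z)) →
      y = n * (z - la * T) := by
    intro y z h
    have : (n ^ 2 + 1) * y = (n ^ 2 + 1) * (n * (z - la * T)) := by
      linear_combination (-1 : L) * h + n * T * hla +
        ((n ^ 2 + 1) * y + n ^ 3 * z - n ^ 3 * T) * h3
    exact mul_left_cancel₀ hn1 this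
  have g0 := g y0 z0 (by rw [hT]; linear_combination r0)
  have g1 := g y1 z1 (by rw [hT]; linear_combination r1)
  have g2 := g y2 z2 (by rw [hT]; linear_combination r2)
  rw [g0, g1, g2] at hI ⊢
  have hI' : z0 ^ 2 + z1 ^ 2 + z2 ^ 2 - la * T ^ 2 = 0 := by
    apply mul_left_cancel₀ hn
    rw [mul_zero]
    rw [hT] at hI ⊢
    linear_combination hI
  clear_value T
  have hT' : T = z0 + z1 + z2 := hT
  have hz0 : z0 = T - z1 - z2 := by rw [hT']; ring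
  clear hT
  subst hz0
  linear_combination n ^ 2 * (-(n ^ 2 - 1) * hI' + (T * (T - z1 - z2) + T ^ 2 + T ^ 2 * la) * hla) +
    (n ^ 2 * T * (z1 + z2) - n ^ 2 * T * la * (z1 + z2) - n ^ 2 * (z1 ^ 2 + z2 ^ 2)
      - n ^ 4 * T * (z1 + z2) + n ^ 4 * T * la * (z1 + z2) + n ^ 4 * (z1 ^ 2 + z2 ^ 2)
      + n ^ 2 * T ^ 2 * la ^ 2 - 2 * n ^ 4 * T ^ 2 * la) * h3

/-- the algebraic core -/
lemma alg (n th y0 y1 y2 z0 z1 z2 : L) (h2 : (2 : L) ≠ 0) (hn : n ≠ 0)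
    (hn1 : n ^ 2 + 1 ≠ 0) (hth : th ^ 2 = 3)
    (r0 : 2 * (n ^ 2 + 1) * y0 - th * n * (y1 - y2) =
      n * (-2 * n ^ 2 * z0 + (2 * n ^ 2 + 1) * (z1 + z2)))
    (r1 : 2 * (n ^ 2 + 1) * y1 - th * n * (y2 - y0) =
      n * (-2 * n ^ 2 * z1 + (2 * n ^ 2 + 1) * (z2 + z0)))
    (r2 : 2 * (n ^ 2 + 1) * y2 - th * n * (y0 - y1) =
      n * (-2 * n ^ 2 * z2 + (2 * n ^ 2 + 1) * (z0 + z1)))
    (s0 : 2 * n * (1 + n ^ 2) * z0 + th * n ^ 2 * (z1 - z2) + 2 * y0 -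
      (2 + n ^ 2) * (y1 + y2) = 0)
    (hI : y0 * z0 + y1 * z1 + y2 * z2 = 0) :
    n ^ 2 * (y0 ^ 2 - z0 ^ 2 - 4 * n ^ 2 * z1 * z2 - 2 * th * (y1 * z1 - y2 * z2)) +
      4 * y1 * y2 = 0 := by
  by_cases h3 : (3 : L) = 0
  · have hth0 : th = 0 := by
      rw [h3] at hth
      exact pow_eq_zero_iff (two_ne_zero) |>.mp hth
    subst hth0
    have := alg2 n y0 y1 y2 z0 z1 z2 h3 hn hn1 (by linear_combination r0)
      (by linear_combination r1) (by linear_combination r2) hI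
    linear_combination this
  · have f1 : y0 + y1 + y2 = n * (z0 + z1 + z2) := by
      apply mul_left_cancel₀ (mul_ne_zero h2 hn1)
      linear_combination r0 + r1 + r2
    exact alg1 n th y0 y1 y2 z0 z1 z2 h2 h3 hn hth f1 r0 s0 hI

variable (D : HD L)

lemma Nm_q2 (S : L) (h6 : S ^ (D.q ^ 6) = S) : (D.Nm S) ^ (D.q ^ 2) = D.Nm S := by
  unfold HD.Nm
  rw [pow_add, pow_add, pow_one, mul_pow, mul_pow, D.pp, D.pp]
  norm_num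
  rw [h6]
  ring

lemma circ_six (S : L) (h : D.circ S) : S ^ (D.q ^ 6) = S := by
  have h1 := h.inv
  have h2 : (S ^ (D.q ^ 3)) ^ (D.q ^ 3) = S := by
    rw [h1, inv_pow, h1, inv_inv]
  rwa [D.pp] at h2

lemma Nm_q3 (S : L) (h : D.circ S) : (D.Nm S) ^ (D.q ^ 3) = (D.Nm S)⁻¹ := by
  unfold HD.Nm
  rw [← pow_mul, mul_comm, pow_mul, h.inv, inv_pow]

lemma Nm_q (S : L) (h : D.circ S) : (D.Nm S) ^ D.q = (D.Nm S)⁻¹ := by
  have h1 := Nm_q3 D S h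
  have h2 := Nm_q2 D S (circ_six D S h)
  rw [← D.pq _ 2, h2] at h1
  exact h1

lemma Nm_sq_ne (S : L) (h : D.circ S) : (D.Nm S) ^ 2 + 1 ≠ 0 := by
  intro h0
  have hne : D.Nm S ≠ 0 := pow_ne_zero _ h.ne
  have hq := Nm_q D S h
  have h1 : (D.Nm S - D.ii) * (D.Nm S + D.ii) = 0 := by
    linear_combination h0 - D.ii2
  have h2 : D.Nm S ^ D.q = D.Nm S := by
    rcases mul_eq_zero.mp h1 with h3 | h3
    · have : D.Nm S = D.ii := by linear_combination h3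
      rw [this, D.iiq]
    · have : D.Nm S = -D.ii := by linear_combination h3
      rw [this, D.neg_q, D.iiq]
  rw [h2] at hq
  have h4 : D.Nm S ^ 2 = 1 := by
    rw [pow_two]
    nth_rewrite 1 [hq]
    exact inv_mul_cancel₀ hne
  have h5 : (2 : L) = 0 := by linear_combination h0 - h4
  exact D.two_ne h5

theorem CR : S_CR := by
  intro L _ _ D x S hx hS hP
  have hS0 : S ≠ 0 := hS.ne
  have hS6 := circ_six D S hS
  have hx6 := hx.p6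
  have hn : D.Nm S ≠ 0 := pow_ne_zero _ hS0
  have hn2 := Nm_q2 D S hS6
  have hn3 := Nm_q3 D S hS
  have hn1 := Nm_sq_ne D S hS
  set y : L := S ^ 2 * x with hy
  have hy6 : y ^ (D.q ^ 6) = y := by
    rw [hy, mul_pow, hx6, ← pow_mul, mul_comm 2, pow_mul, hS6]
  -- the equations
  have r0 : 2 * ((D.Nm S) ^ 2 + 1) * y - D.th * (D.Nm S) * (y ^ (D.q ^ 2) - y ^ (D.q ^ 4)) =
    (D.Nm S) * (-2 * (D.Nm S) ^ 2 * y ^ (D.q ^ 3) +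
      (2 * (D.Nm S) ^ 2 + 1) * (y ^ (D.q ^ 5) + y ^ D.q)) := hP
  have r1 : 2 * ((D.Nm S) ^ 2 + 1) * y ^ (D.q ^ 2) - D.th * (D.Nm S) * (y ^ (D.q ^ 4) - y) =
    (D.Nm S) * (-2 * (D.Nm S) ^ 2 * y ^ (D.q ^ 5) +
      (2 * (D.Nm S) ^ 2 + 1) * (y ^ D.q + y ^ (D.q ^ 3))) := by
    have := congrArg (D.frn 2) r0
    simp only [map_mul, map_add, map_sub, map_pow, map_ofNat, map_one, map_neg, HD.frn_def,
      D.th_q2, hn2, D.pp, D.pq, Nat.reduceAdd, D.p7 hy6, hy6] at this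
    linear_combination this
  have r2 : 2 * ((D.Nm S) ^ 2 + 1) * y ^ (D.q ^ 4) - D.th * (D.Nm S) * (y - y ^ (D.q ^ 2)) =
    (D.Nm S) * (-2 * (D.Nm S) ^ 2 * y ^ D.q +
      (2 * (D.Nm S) ^ 2 + 1) * (y ^ (D.q ^ 3) + y ^ (D.q ^ 5))) := by
    have := congrArg (D.frn 2) r1
    simp only [map_mul, map_add, map_sub, map_pow, map_ofNat, map_one, map_neg, HD.frn_def,
      D.th_q2, hn2, D.pp, D.pq, Nat.reduceAdd, D.p7 hy6, hy6] at this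
    linear_combination this
  have s0 : 2 * (D.Nm S) * (1 + (D.Nm S) ^ 2) * y ^ (D.q ^ 3) +
      D.th * (D.Nm S) ^ 2 * (y ^ (D.q ^ 5) - y ^ D.q) + 2 * y -
      (2 + (D.Nm S) ^ 2) * (y ^ (D.q ^ 2) + y ^ (D.q ^ 4)) = 0 := by
    have := congrArg (D.frn 3) r0
    simp only [map_mul, map_add, map_sub, map_pow, map_ofNat, map_one, map_neg, HD.frn_def,
      D.th_q3, hn3, D.pp, D.pq, Nat.reduceAdd, D.p7 hy6, D.p8 hy6, hy6] at this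
    field_simp at this
    linear_combination this
  have hS5 : S ^ (D.q ^ 5) = (S ^ (D.q ^ 2))⁻¹ := by
    have : (S ^ (D.q ^ 3)) ^ (D.q ^ 2) = (S⁻¹) ^ (D.q ^ 2) := by rw [hS.inv]
    rwa [D.pp, inv_pow] at this
  have hS1 : S ^ D.q = (S ^ (D.q ^ 4))⁻¹ := by
    have : (S ^ (D.q ^ 3)) ^ (D.q ^ 4) = (S⁻¹) ^ (D.q ^ 4) := by rw [hS.inv]
    rw [D.pp, inv_pow, D.p7 hS6] at this
    exact this
  have hb : S ^ (D.q ^ 2) ≠ 0 := pow_ne_zero _ hS0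
  have hc : S ^ (D.q ^ 4) ≠ 0 := pow_ne_zero _ hS0
  have hNm : D.Nm S = S * S ^ (D.q ^ 2) * S ^ (D.q ^ 4) := by
    unfold HD.Nm
    rw [pow_add, pow_add, pow_one]
  have y2 : y ^ (D.q ^ 2) = (S ^ (D.q ^ 2)) ^ 2 * x ^ (D.q ^ 2) := by
    rw [hy, mul_pow, pow_right_comm]
  have y4 : y ^ (D.q ^ 4) = (S ^ (D.q ^ 4)) ^ 2 * x ^ (D.q ^ 4) := by
    rw [hy, mul_pow, pow_right_comm]
  have y3 : y ^ (D.q ^ 3) = (S⁻¹) ^ 2 * x ^ (D.q ^ 3) := by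
    rw [hy, mul_pow, pow_right_comm, hS.inv]
  have y5 : y ^ (D.q ^ 5) = ((S ^ (D.q ^ 2))⁻¹) ^ 2 * x ^ (D.q ^ 5) := by
    rw [hy, mul_pow, pow_right_comm, hS5]
  have y1 : y ^ D.q = ((S ^ (D.q ^ 4))⁻¹) ^ 2 * x ^ D.q := by
    rw [hy, mul_pow, pow_right_comm, hS1]
  have hxI := hx.2.2
  have hI : y * y ^ (D.q ^ 3) + y ^ (D.q ^ 2) * y ^ (D.q ^ 5) + y ^ (D.q ^ 4) * y ^ D.q = 0 := by
    rw [y1, y2, y3, y4, y5, hy]
    field_simp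
    linear_combination hxI
  have key := alg (D.Nm S) D.th y (y ^ (D.q ^ 2)) (y ^ (D.q ^ 4)) (y ^ (D.q ^ 3)) (y ^ (D.q ^ 5))
    (y ^ D.q) D.two_ne hn hn1 D.th2 r0 r1 r2 s0 hI
  have hPhi : (D.Phi x).eval (S ^ 2) = x ^ 2 * S ^ 8 - 4 * x ^ (D.q ^ 5) * x ^ D.q * S ^ 6
      - 2 * D.th * (x ^ (D.q ^ 2) * x ^ (D.q ^ 5) - x ^ (D.q ^ 4) * x ^ D.q) * S ^ 4
      + 4 * x ^ (D.q ^ 2) * x ^ (D.q ^ 4) * S ^ 2 - (x ^ (D.q ^ 3)) ^ 2 := by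
    unfold HD.Phi
    simp only [eval_add, eval_sub, eval_mul, eval_C, eval_pow, eval_X]
    ring
  rw [hPhi]
  apply mul_left_cancel₀ (pow_ne_zero 2 hn)
  rw [mul_zero]
  have key2 : S ^ 4 * ((D.Nm S) ^ 2 * (y ^ 2 - (y ^ (D.q ^ 3)) ^ 2 -
      4 * (D.Nm S) ^ 2 * y ^ (D.q ^ 5) * y ^ D.q -
      2 * D.th * (y ^ (D.q ^ 2) * y ^ (D.q ^ 5) - y ^ (D.q ^ 4) * y ^ D.q)) +
      4 * y ^ (D.q ^ 2) * y ^ (D.q ^ 4)) = 0 := by
    rw [key, mul_zero]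
  rw [← key2, y1, y2, y3, y4, y5, hy, hNm]
  clear key2 key hPhi hI y1 y2 y3 y4 y5 hS1 hS5 s0 r2 r1 r0 hP hy6 hNm hn hn2 hn3 hn1
  generalize S ^ (D.q ^ 2) = b at *
  generalize S ^ (D.q ^ 4) = c at *
  field_simp
  ring

end Pool.Agent.TH443.J3903
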