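import Pool.Agent.TH614.HS.Base

/-!
# Every root is simple with a sign, or ramified (job 3904)
-/

set_option autoImplicit false

open Polynomial Pool.Agent.TH614.HS

namespace Pool.Agent.TH443.J3904

variable {L : Type} [Field L]

lemma simple_root [Infinite L] (p : L[X]) (s x m eta th : L) (hs : s ≠ 0) (hx : x ≠ 0)
    (hm : m ≠ 0) (h4 : (4 : L) ≠ 0) (h0 : p.eval s = 0)
    (h : ∀ w, p.eval (s * (1 + w)) = x ^ 2 * s ^ 4 * w *
      (w ^ 3 + 4 * eta ^ 2 * w ^ 2 + 4 * th * eta * m * w + 4 * m ^ 2)) :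
    p.rootMultiplicity s = 1 := by
  have hid : p.comp (C s * (1 + X)) = C (x ^ 2 * s ^ 4) * X *
      (X ^ 3 + C (4 * eta ^ 2) * X ^ 2 + C (4 * th * eta * m) * X + C (4 * m ^ 2)) := by
    apply Polynomial.funext
    intro w
    rw [eval_comp]
    simp only [eval_mul, eval_add, eval_C, eval_X, eval_one, eval_pow]
    rw [h w]
  have hd := congrArg (fun r : L[X] => r.derivative.eval 0) hid
  simp only [derivative_comp, derivative_mul, derivative_add, derivative_C, derivative_X,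
    derivative_one, derivative_X_pow, eval_mul, eval_add, eval_C, eval_X, eval_one, eval_pow,
    eval_comp, mul_zero, zero_mul, add_zero, zero_add, mul_one] at hd
  have hne : p.derivative.eval s ≠ 0 := by
    intro h1
    rw [h1] at hd
    have : x ^ 2 * s ^ 4 * (4 * m ^ 2) = 0 := by
      simpa using hd.symm
    exact (mul_ne_zero (mul_ne_zero (pow_ne_zero 2 hx) (pow_ne_zero 4 hs))
      (mul_ne_zero h4 (pow_ne_zero 2 hm))) this
  have hp : p ≠ 0 := by
    rintro rfl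
    simp at hne
  have h1 : 0 < p.rootMultiplicity s := (rootMultiplicity_pos hp).mpr h0
  have h2 : ¬ 1 < p.rootMultiplicity s := by
    rw [one_lt_rootMultiplicity_iff_isRoot hp]
    rintro ⟨-, h3⟩
    exact hne h3
  omega

lemma triple_root (p : L[X]) (s x eta : L) (hs : s ≠ 0) (hx : x ≠ 0) (he : eta ≠ 0)
    (h4 : (4 : L) ≠ 0)
    (h : p = C (x ^ 2) * (X - C s) ^ 3 * (X - C (s * (1 - 4 * eta ^ 2)))) :
    p.eval s = 0 ∧ p.rootMultiplicity s = 3 := by
  classical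
  have hx2 : C (x ^ 2) ≠ (0 : L[X]) := by
    rw [Ne, C_eq_zero]; exact pow_ne_zero 2 hx
  have h1 : (X - C s) ^ 3 ≠ (0 : L[X]) := pow_ne_zero 3 (X_sub_C_ne_zero s)
  have h2 : (X - C (s * (1 - 4 * eta ^ 2))) ≠ (0 : L[X]) := X_sub_C_ne_zero _
  constructor
  · rw [h]; simp
  · rw [h, rootMultiplicity_mul (mul_ne_zero (mul_ne_zero hx2 h1) h2),
      rootMultiplicity_mul (mul_ne_zero hx2 h1), rootMultiplicity_C, rootMultiplicity_X_sub_C_pow,
      rootMultiplicity_eq_zero]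
    intro hr
    rw [IsRoot, eval_sub, eval_X, eval_C] at hr
    have : s * (4 * eta ^ 2) = 0 := by linear_combination hr
    exact (mul_ne_zero hs (mul_ne_zero h4 (pow_ne_zero 2 he))) this

theorem DICH : S_RT → S_CUB → S_MT → S_L2 → S_CH1 → S_CH2 → S_CH3 → S_CH4 → S_RAM → S_DICH := by
  intro hRT hCUB hMT hL2 hCH1 hCH2 hCH3 hCH4 hRAM L _ _ D x s hx
  have hx6 := hx.p6
  have hinf : Infinite L := IsAlgClosed.instInfinite
  refine ⟨fun h0 => ?_, fun mu eta e be g rho hSg => ?_, fun mu eta be g ep hR => ?_⟩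
  · obtain ⟨mu, eta, hRD⟩ := (hRT L D x s hx).1 h0
    by_cases hm : mu + D.th * eta = 0
    · right
      obtain ⟨be, g, ep, h⟩ := hRAM L D x s mu eta hx hRD hm
      exact ⟨mu, eta, be, g, ep, h⟩
    · left
      obtain ⟨ht, hRD2⟩ := hMT L D x s mu eta hx hRD
      simp only [D.pp, D.pq, Nat.reduceAdd, D.p7 hx6, D.p8 hx6, D.p9 hx6, hx6] at hRD2
      obtain ⟨hs, hRD1⟩ := hRD
      have hPL := hx.PL
      have hex : ∃ P0 P1 P2 Y, OnL x (x ^ (D.q ^ 2)) (x ^ (D.q ^ 4)) (x ^ (D.q ^ 3))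
          (x ^ (D.q ^ 5)) (x ^ D.q) P0 P1 P2 Y ∧ l2 D.th s (D.nt s) P0 P1 P2 Y ≠ 0 := by
        by_contra hcon
        push Not at hcon
        exact hm (hL2 L D.th _ _ _ _ _ _ s (D.nt s) mu eta _ _ D.two_ne D.th2 hPL hs ht hRD1
          hRD2 hcon).1
      obtain ⟨H, be, g, rho, hU⟩ := hCH1 L D.th _ _ _ _ _ _ s (D.nt s) mu eta _ _ D.two_ne D.th2
        hPL hs ht hRD1 hRD2 hex
      have hD := hCH2 L D.th _ _ _ _ _ _ s (D.nt s) mu eta _ _ H be g rho D.two_ne D.th2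
        hPL hs ht hU
      have hH := hCH3 L D.th _ _ _ _ _ _ s (D.nt s) mu eta _ _ H be g rho D.two_ne D.th2
        hPL hs ht hU hD
      have hB := hCH4 L D.th _ _ _ _ _ _ s (D.nt s) mu eta _ _ H be g rho D.two_ne D.th2
        hPL hs ht hU hD
      exact ⟨mu, eta, H, be, g, rho, ⟨hs, hRD1⟩, hm, hU, hD, hH, hB⟩
  · obtain ⟨hRD, hm, hU, -⟩ := hSg
    have h0 := ((hRT L D x s hx).2 mu eta hRD).1
    refine ⟨hU.1, h0, ?_⟩
    exact simple_root (D.Phi x) s x (mu + D.th * eta) eta D.th hRD.1 hx.ne hm D.four_ne h0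
      (hCUB L D x s mu eta hx hRD)
  · obtain ⟨hRD, hm, he, hci, hNm, hbe, hg, hbg, hEp, -, -, -, hPhi⟩ := hR
    obtain ⟨h1, h2⟩ := triple_root (D.Phi x) s x eta hRD.1 hx.ne he D.four_ne hPhi
    exact ⟨hEp.1, h1, h2⟩

end Pool.Agent.TH443.J3904
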