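import Pool.Agent.TH625.GM.Props

set_option autoImplicit false

open Complex MeasureTheory
open UpperHalfPlane hiding I
open scoped Real MatrixGroups ModularForm

open Pool.Agent.TH625.GM

namespace Pool.Agent.TH443.J703

open DirichletCharacter

noncomputable section

instance fact5 : Fact (Nat.Prime 5) := ⟨by norm_num⟩

/-- the quadratic character modulo `5`, integer valued -/
def X5 : MulChar (ZMod 5) ℤ where
  toFun := chi5
  map_one' := by decide
  map_mul' := by decide
  map_nonunit' := by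
    intro a ha
    have h : a = 0 := by
      by_contra h0
      apply ha
      revert h0 a
      decide
    subst h
    decide

/-- the quadratic character modulo `5`, complex valued -/
def X : DirichletCharacter ℂ 5 := X5.ringHomComp (Int.castRingHom ℂ)

theorem X_apply (a : ZMod 5) : X a = (chi5 a : ℂ) := rfl

theorem X_sq : X ^ 2 = 1 := by
  ext a
  rw [MulChar.pow_apply_coe, X_apply, MulChar.one_apply_coe]
  have : ∀ a : ZMod 5, a ≠ 0 → (chi5 a) ^ 2 = 1 := by decide
  exact_mod_cast this a a.ne_zero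

/-- if `5 ∣ q` and `χ` is a primitive quadratic character modulo `q`, then `25 ∤ q` -/
theorem step1 (q : ℕ) [NeZero q] (χ : DirichletCharacter ℂ q) (hp : χ.IsPrimitive)
    (h2 : χ ^ 2 = 1) (h5 : 5 ∣ q) : ∃ m : ℕ, ¬ 5 ∣ m ∧ q = 5 * m := by
  obtain ⟨k, m, hm, hq⟩ := Nat.exists_eq_pow_mul_and_not_dvd (NeZero.ne q) 5 (by norm_num)
  have hk : k ≠ 0 := by
    rintro rfl
    rw [pow_zero, one_mul] at hq
    rw [hq] at h5
    exact hm h5
  obtain ⟨j, rfl⟩ := Nat.exists_eq_succ_of_ne_zero hk
  have hd : 5 * m ∣ q := by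
    rw [hq, pow_succ, mul_assoc]
    exact Dvd.intro_left _ rfl
  have hF : χ.FactorsThrough (5 * m) := by
    rw [factorsThrough_iff_ker_unitsMap hd]
    intro x hx
    rw [MonoidHom.mem_ker] at hx ⊢
    -- `x ^ 5 ^ j = 1`
    have hz : ((x : ZMod q).val : ZMod (5 * m)) = 1 := by
      have := congrArg Units.val hx
      rwa [ZMod.unitsMap_val, Units.val_one, ← ZMod.natCast_val] at this
    have hz' : ((5 * m : ℕ) : ℤ) ∣ ((x : ZMod q).val : ℤ) - 1 := by
      rw [← ZMod.intCast_zmod_eq_zero_iff_dvd]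
      push_cast
      rw [hz, sub_self]
    have h5' : ((5 : ℕ) : ℤ) ∣ ((x : ZMod q).val : ℤ) - 1 :=
      (Int.natCast_dvd_natCast.2 (Dvd.intro _ rfl)).trans hz'
    have hm' : (m : ℤ) ∣ ((x : ZMod q).val : ℤ) - 1 :=
      (Int.natCast_dvd_natCast.2 (Dvd.intro_left _ rfl)).trans hz'
    have h1 := dvd_sub_pow_of_dvd_sub h5' j
    rw [one_pow] at h1
    have h3 : (m : ℤ) ∣ ((x : ZMod q).val : ℤ) ^ 5 ^ j - 1 := by
      have := (sub_dvd_pow_sub_pow ((x : ZMod q).val : ℤ) 1 (5 ^ j))
      rw [one_pow] at this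
      exact hm'.trans this
    have hcop : IsCoprime (((5 : ℕ) : ℤ) ^ (j + 1)) (m : ℤ) := by
      apply IsCoprime.pow_left
      rw [Nat.isCoprime_iff_coprime]
      exact (Nat.Prime.coprime_iff_not_dvd (by norm_num)).2 hm
    have h4 := hcop.mul_dvd h1 h3
    have h6 : x ^ 5 ^ j = 1 := by
      apply Units.ext
      rw [Units.val_pow_eq_pow_val, Units.val_one]
      have hq' : ((q : ℕ) : ℤ) = ((5 : ℕ) : ℤ) ^ (j + 1) * (m : ℤ) := by
        have := congrArg (fun n : ℕ => (n : ℤ)) hq
        push_cast at this ⊢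
        exact this
      have h7 : (((q : ℕ) : ℤ)) ∣ ((x : ZMod q).val : ℤ) ^ 5 ^ j - 1 := hq' ▸ h4
      rw [← ZMod.intCast_zmod_eq_zero_iff_dvd] at h7
      push_cast at h7
      rw [ZMod.natCast_val, ZMod.cast_id', id_eq, sub_eq_zero] at h7
      exact h7
    have h8 : (χ.toUnitHom x) ^ 2 = 1 := by
      have := congrArg (fun (f : DirichletCharacter ℂ q) => f x) h2
      simp only [MulChar.pow_apply_coe, MulChar.one_apply_coe] at this
      apply Units.ext
      rw [Units.val_pow_eq_pow_val, MulChar.coe_toUnitHom, this, Units.val_one]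
    have h9 : (χ.toUnitHom x) ^ 5 ^ j = 1 := by
      rw [← map_pow, h6, map_one]
    obtain ⟨i, hi⟩ : _root_.Odd (5 ^ j) := _root_.Odd.pow (by decide)
    rw [hi, pow_succ, pow_mul, h8, one_pow, one_mul] at h9
    exact h9
  have hle := conductor_dvd_of_mem_conductorSet χ hF
  rw [(isPrimitive_def χ).1 hp] at hle
  exact ⟨m, hm, Nat.dvd_antisymm hle hd⟩

/-- the kernel of reduction modulo `m` for `q = 5 m` -/
theorem step2 (m : ℕ) [NeZero (5 * m)] (hm : ¬ 5 ∣ m) :
    ∃ w : (ZMod (5 * m))ˣ, ZMod.castHom (Dvd.intro m rfl) (ZMod 5) (w : ZMod (5 * m)) = 2 ∧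
      ∀ x : (ZMod (5 * m))ˣ, ZMod.unitsMap (Dvd.intro_left 5 rfl : m ∣ 5 * m) x = 1 →
        ∃ j : ℕ, x = w ^ j := by
  have hcop : Nat.Coprime 5 m := (Nat.Prime.coprime_iff_not_dvd (by norm_num)).2 hm
  set e := ZMod.chineseRemainder hcop with he
  have e1 : (RingHom.fst _ _).comp (e : ZMod (5 * m) →+* ZMod 5 × ZMod m) =
      ZMod.castHom (Dvd.intro m rfl) (ZMod 5) := Subsingleton.elim _ _
  have e2 : (RingHom.snd _ _).comp (e : ZMod (5 * m) →+* ZMod 5 × ZMod m) =
      ZMod.castHom (Dvd.intro_left 5 rfl) (ZMod m) := Subsingleton.elim _ _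
  have hw : IsUnit (e.symm (2, 1)) := by
    apply IsUnit.map
    rw [Prod.isUnit_iff]
    exact ⟨(show IsUnit (2 : ZMod 5) from by decide), isUnit_one⟩
  obtain ⟨w, hw⟩ := hw
  have hew : e (w : ZMod (5 * m)) = (2, 1) := by rw [hw, RingEquiv.apply_symm_apply]
  refine ⟨w, ?_, ?_⟩
  · rw [← e1]
    simp [hew]
  · intro x hx
    have h2 : (e (x : ZMod (5 * m))).2 = 1 := by
      have := congrArg Units.val hx
      rw [Units.val_one] at this
      have h3 : (e (x : ZMod (5 * m))).2 =
          ZMod.castHom (Dvd.intro_left 5 rfl) (ZMod m) (x : ZMod (5 * m)) := by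
        rw [← e2]; rfl
      rw [h3]
      exact this
    have h1 : (e (x : ZMod (5 * m))).1 ≠ 0 := by
      have hu : IsUnit (e (x : ZMod (5 * m))) := x.isUnit.map e
      rw [Prod.isUnit_iff] at hu
      exact hu.1.ne_zero
    obtain ⟨j, hj⟩ : ∃ j : Fin 4, (e (x : ZMod (5 * m))).1 = 2 ^ (j : ℕ) := by
      revert h1
      generalize (e (x : ZMod (5 * m))).1 = a
      revert a
      decide
    refine ⟨j, Units.ext ?_⟩
    apply e.injective
    rw [Units.val_pow_eq_pow_val, map_pow, hew]
    ext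
    · rw [hj]; rfl
    · rw [h2]; simp

/-- removing the `5`-part -/
theorem step3 (m : ℕ) [NeZero (5 * m)] (hm : ¬ 5 ∣ m) (χ : DirichletCharacter ℂ (5 * m))
    (hp : χ.IsPrimitive) (h2 : χ ^ 2 = 1) :
    (χ * changeLevel (Dvd.intro m rfl) X).FactorsThrough m := by
  obtain ⟨w, hw, hx⟩ := step2 m hm
  have hm0 : 0 < m := by
    rcases Nat.eq_zero_or_pos m with h | h
    · exact absurd (h ▸ (dvd_zero 5)) hm
    · exact h
  have hsq : (χ w) ^ 2 = 1 := by
    have := congrArg (fun (f : DirichletCharacter ℂ (5 * m)) => f w) h2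
    simpa only [MulChar.pow_apply_coe, MulChar.one_apply_coe] using this
  have hne : χ w ≠ 1 := by
    intro h1
    have hF : χ.FactorsThrough m := by
      rw [factorsThrough_iff_ker_unitsMap (Dvd.intro_left 5 rfl)]
      intro x hxk
      rw [MonoidHom.mem_ker] at hxk ⊢
      obtain ⟨j, rfl⟩ := hx x hxk
      apply Units.ext
      rw [map_pow, Units.val_pow_eq_pow_val, MulChar.coe_toUnitHom, h1, one_pow, Units.val_one]
    have h3 := conductor_dvd_of_mem_conductorSet χ hF
    rw [(isPrimitive_def χ).1 hp] at h3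
    have h4 := Nat.le_of_dvd hm0 h3
    omega
  have hm1 : χ w = -1 := (_root_.sq_eq_one_iff.1 hsq).resolve_left hne
  have hX : changeLevel (Dvd.intro m rfl) X (w : ZMod (5 * m)) = -1 := by
    rw [changeLevel_eq_cast_of_dvd, X_apply]
    have : (ZMod.cast (w : ZMod (5 * m)) : ZMod 5) = 2 := hw
    rw [this]
    have : chi5 2 = -1 := by decide
    rw [this]
    norm_num
  rw [factorsThrough_iff_ker_unitsMap (Dvd.intro_left 5 rfl)]
  intro x hxk
  rw [MonoidHom.mem_ker] at hxk ⊢
  obtain ⟨j, rfl⟩ := hx x hxk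
  apply Units.ext
  rw [map_pow, Units.val_pow_eq_pow_val, MulChar.coe_toUnitHom, MulChar.mul_apply, hm1, hX,
    Units.val_one]
  norm_num

theorem split5 : Split5 := by
  intro q hq0 χ hp h2
  by_cases h5 : 5 ∣ q
  · obtain ⟨m, hm, rfl⟩ := step1 q χ hp h2 h5
    have hF := step3 m hm χ hp h2
    have h5d : 5 ∣ 5 * m := Dvd.intro m rfl
    set ψ : DirichletCharacter ℂ (5 * m) := χ * changeLevel h5d X with hψ
    have hX2 : (changeLevel h5d X) ^ 2 = 1 := by
      rw [← map_pow, X_sq, map_one]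
    have hc : ψ.conductor ∣ m := conductor_dvd_of_mem_conductorSet ψ hF
    have hc0 : NeZero ψ.conductor := ⟨conductor_ne_zero ψ⟩
    have hψ2 : ψ ^ 2 = 1 := by rw [hψ, mul_pow, h2, hX2, one_mul]
    have hχ : χ = ψ * changeLevel h5d X := by
      rw [hψ, mul_assoc, ← sq, hX2, mul_one]
    refine ⟨ψ.conductor, hc0, ψ.primitiveCharacter, ?_, primitiveCharacter_isPrimitive ψ, ?_, ?_⟩
    · apply Nat.Coprime.coprime_dvd_left hc
      exact ((Nat.Prime.coprime_iff_not_dvd (by norm_num)).2 hm).symm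
    · apply changeLevel_injective ψ.conductor_dvd_level
      rw [map_pow, changeLevel_primitiveCharacter, hψ2, map_one]
    · intro n hn
      by_cases hnc : IsCoprime (n : ℤ) ((5 * m : ℕ) : ℤ)
      · have h1 := primitiveCharacter_apply_of_isCoprime ψ hnc
        have h3 := changeLevel_eq_cast_of_dvd' X h5d hnc
        have h4 : ψ ((n : ℤ) : ZMod (5 * m)) = χ ((n : ℤ) : ZMod (5 * m)) := by
          rw [hψ, MulChar.mul_apply, h3, X_apply]
          push_cast
          rw [hn]
          simp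
        rw [h4] at h1
        push_cast at h1
        exact h1.symm
      · have h1 : χ ((n : ℤ) : ZMod (5 * m)) = 0 := (apply_eq_zero_iff χ n).2 hnc
        have h3 : ψ.primitiveCharacter ((n : ℤ) : ZMod ψ.conductor) = 0 := by
          rw [apply_eq_zero_iff]
          intro h4
          apply hnc
          have h6 : IsCoprime (n : ℤ) ((5 : ℕ) : ℤ) := by
            rw [Nat.isCoprime_iff_coprime]
            apply Nat.Coprime.symm
            rw [Nat.Prime.coprime_iff_not_dvd (by norm_num)]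
            intro h7
            have h8 : ((n : ℕ) : ZMod 5) = 0 := (ZMod.natCast_eq_zero_iff n 5).2 h7
            rw [h8] at hn
            revert hn
            decide
          have h7 : 5 * m ∣ ψ.conductor * 5 := by
            have h8 := conductor_mul_dvd_lcm_conductor ψ (changeLevel h5d X)
            rw [← hχ, (isPrimitive_def χ).1 hp, conductor_changeLevel] at h8
            refine h8.trans (Nat.lcm_dvd (Dvd.intro _ rfl) ?_)
            exact (conductor_dvd_level X).trans (Dvd.intro_left _ rfl)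
          have h8 : IsCoprime (n : ℤ) ((ψ.conductor * 5 : ℕ) : ℤ) := by
            push_cast
            exact IsCoprime.mul_right h4 h6
          exact IsCoprime.of_isCoprime_of_dvd_right h8 (Int.natCast_dvd_natCast.2 h7)
        push_cast at h1 h3
        rw [h1, h3]
  · refine ⟨q, hq0, χ, ?_, hp, h2, fun n _ => rfl⟩
    exact ((Nat.Prime.coprime_iff_not_dvd (by norm_num)).2 h5).symm

end

end Pool.Agent.TH443.J703
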