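import Pool.Agent.TH580.LM.Fn

set_option autoImplicit false

open MeasureTheory Set
open Pool.Agent.TH580.LM

namespace Pool.Agent.TH443.LI

noncomputable section

/-! ### logarithm bounds -/

lemma log_lower {w : ℝ} (hw : 0 ≤ w) :
    (3 * w ^ 2 + 6 * w) / (w ^ 2 + 6 * w + 6) ≤ Real.log (1 + w) := by
  have key : MonotoneOn (fun w : ℝ => Real.log (1 + w) - (3 * w ^ 2 + 6 * w) / (w ^ 2 + 6 * w + 6))
      (Ici 0) := by
    have hd : ∀ x : ℝ, 0 ≤ x → HasDerivAt
        (fun w : ℝ => Real.log (1 + w) - (3 * w ^ 2 + 6 * w) / (w ^ 2 + 6 * w + 6))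
        (x ^ 4 / ((1 + x) * (x ^ 2 + 6 * x + 6) ^ 2)) x := by
      intro x hx
      have h1 : HasDerivAt (fun w : ℝ => Real.log (1 + w)) (1 / (1 + x)) x :=
        ((hasDerivAt_id x).const_add 1).log (by simp; linarith)
      have h2 : HasDerivAt (fun w : ℝ => 3 * w ^ 2 + 6 * w) (3 * (2 * x) + 6) x := by
        have a1 := (hasDerivAt_pow 2 x).const_mul 3
        have a2 := (hasDerivAt_id x).const_mul 6
        refine (a1.add a2).congr_deriv ?_
        simp
      have h3 : HasDerivAt (fun w : ℝ => w ^ 2 + 6 * w + 6) (2 * x + 6) x := by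
        have a1 := (hasDerivAt_pow 2 x)
        have a2 := (hasDerivAt_id x).const_mul 6
        refine ((a1.add a2).add_const 6).congr_deriv ?_
        simp
      have hne : x ^ 2 + 6 * x + 6 ≠ 0 := by positivity
      have hne1 : 1 + x ≠ 0 := by positivity
      refine (h1.sub (h2.div h3 hne)).congr_deriv ?_
      field_simp
      ring
    refine monotoneOn_of_deriv_nonneg (convex_Ici 0)
      (fun x hx => (hd x hx).continuousAt.continuousWithinAt)
      (fun x hx => (hd x (interior_subset hx)).differentiableAt.differentiableWithinAt) ?_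
    intro x hx
    have hx' : 0 ≤ x := interior_subset hx
    rw [(hd x hx').deriv]
    positivity
  have := key (mem_Ici.2 le_rfl) (mem_Ici.2 hw) hw
  simp at this
  linarith

lemma log_upper {w : ℝ} (hw : 0 ≤ w) :
    Real.log (1 + w) ≤ (w ^ 2 + 6 * w) / (4 * w + 6) := by
  have key : MonotoneOn (fun w : ℝ => (w ^ 2 + 6 * w) / (4 * w + 6) - Real.log (1 + w))
      (Ici 0) := by
    have hd : ∀ x : ℝ, 0 ≤ x → HasDerivAt
        (fun w : ℝ => (w ^ 2 + 6 * w) / (4 * w + 6) - Real.log (1 + w))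
        (4 * x ^ 3 / ((1 + x) * (4 * x + 6) ^ 2)) x := by
      intro x hx
      have h1 : HasDerivAt (fun w : ℝ => Real.log (1 + w)) (1 / (1 + x)) x :=
        ((hasDerivAt_id x).const_add 1).log (by simp; linarith)
      have h2 : HasDerivAt (fun w : ℝ => w ^ 2 + 6 * w) (2 * x + 6) x := by
        have a1 := (hasDerivAt_pow 2 x)
        have a2 := (hasDerivAt_id x).const_mul 6
        refine (a1.add a2).congr_deriv ?_
        simp
      have h3 : HasDerivAt (fun w : ℝ => 4 * w + 6) 4 x := by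
        have a2 := (hasDerivAt_id x).const_mul 4
        refine (a2.add_const 6).congr_deriv ?_
        simp
      have hne : 4 * x + 6 ≠ 0 := by positivity
      have hne1 : 1 + x ≠ 0 := by positivity
      refine ((h2.div h3 hne).sub h1).congr_deriv ?_
      field_simp
      ring
    refine monotoneOn_of_deriv_nonneg (convex_Ici 0)
      (fun x hx => (hd x hx).continuousAt.continuousWithinAt)
      (fun x hx => (hd x (interior_subset hx)).differentiableAt.differentiableWithinAt) ?_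
    intro x hx
    have hx' : 0 ≤ x := interior_subset hx
    rw [(hd x hx').deriv]
    positivity
  have := key (mem_Ici.2 le_rfl) (mem_Ici.2 hw) hw
  simp at this
  linarith

/-! ### the one-variable inequality -/

/-- the difference, `z = 6 y` -/
def DD (y : ℝ) : ℝ :=
  (1 + y) ^ 2 * Real.log (1 + y) - (2 + y) * (y * Real.log y) - y -
    (5 / 4 + 3 * y / 2) * Real.log (1 + 3 * y) + 3 / 2 * (y * Real.log 3 + y * Real.log y) +
    1 / 4 * Real.log (1 + 6 * y)

def DD1 (y : ℝ) : ℝ :=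
  2 * (1 + y) * (Real.log (1 + y) - Real.log y) - 1 / 2 -
    3 / 2 * (Real.log (1 + 3 * y) - Real.log 3 - Real.log y) -
    3 / 2 - 9 / 4 / (1 + 3 * y) + 3 / 2 / (1 + 6 * y)

def DD2 (y : ℝ) : ℝ :=
  2 * (Real.log (1 + y) - Real.log y) - 2 / y + 3 / 2 / (y * (1 + 3 * y)) +
    27 / 4 / (1 + 3 * y) ^ 2 - 9 / (1 + 6 * y) ^ 2

lemma hlog1 (c : ℝ) {y : ℝ} (hc : 0 ≤ c) (hy : 0 < y) :
    HasDerivAt (fun y : ℝ => Real.log (1 + c * y)) (c / (1 + c * y)) y := by
  have h1 : HasDerivAt (fun y : ℝ => 1 + c * y) c y := by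
    have := ((hasDerivAt_id y).const_mul c).const_add 1
    simpa using this
  have hne : 1 + c * y ≠ 0 := by positivity
  exact h1.log hne

lemma hlog1' {y : ℝ} (hy : 0 < y) :
    HasDerivAt (fun y : ℝ => Real.log (1 + y)) (1 / (1 + y)) y := by
  have := hlog1 1 zero_le_one hy
  simpa using this

lemma DD_der {y : ℝ} (hy : 0 < y) : HasDerivAt DD (DD1 y) y := by
  have l1 := hlog1' hy
  have l3 := hlog1 3 (by norm_num) hy
  have l6 := hlog1 6 (by norm_num) hy
  have ly := (Real.hasDerivAt_log hy.ne')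
  have yly : HasDerivAt (fun y : ℝ => y * Real.log y) (Real.log y + 1) y :=
    Real.hasDerivAt_mul_log hy.ne'
  have a1 : HasDerivAt (fun y : ℝ => (1 + y) ^ 2) (2 * (1 + y)) y := by
    have := ((hasDerivAt_id y).const_add 1).fun_pow 2
    simpa using this
  have a2 : HasDerivAt (fun y : ℝ => 2 + y) 1 y := by
    simpa using (hasDerivAt_id y).const_add 2
  have a3 : HasDerivAt (fun y : ℝ => 5 / 4 + 3 * y / 2) (3 / 2) y := by
    have := (((hasDerivAt_id y).const_mul 3).div_const 2).const_add (5 / 4)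
    simpa using this
  have h := ((((a1.mul l1).sub (a2.mul yly)).sub (hasDerivAt_id y)).sub (a3.mul l3)).add
    ((((hasDerivAt_id y).mul_const (Real.log 3)).add yly).const_mul (3 / 2)) |>.add
    (l6.const_mul (1 / 4))
  have hy0 := hy.ne'
  have n1 : (1 + y) ≠ 0 := by positivity
  have n3 : (1 + 3 * y) ≠ 0 := by positivity
  have n6 : (1 + 6 * y) ≠ 0 := by positivity
  refine h.congr_deriv ?_
  simp only [DD1]
  field_simp
  ring

lemma DD1_der {y : ℝ} (hy : 0 < y) : HasDerivAt DD1 (DD2 y) y := by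
  have l1 := hlog1' hy
  have l3 := hlog1 3 (by norm_num) hy
  have ly := (Real.hasDerivAt_log hy.ne')
  have n1 : (1 + y) ≠ 0 := by positivity
  have n3 : (1 + 3 * y) ≠ 0 := by positivity
  have n6 : (1 + 6 * y) ≠ 0 := by positivity
  have hy0 := hy.ne'
  have a1 : HasDerivAt (fun y : ℝ => 2 * (1 + y)) 2 y := by
    have := ((hasDerivAt_id y).const_add 1).const_mul 2
    simpa using this
  have a3 : HasDerivAt (fun y : ℝ => 1 + 3 * y) 3 y := by
    have := (((hasDerivAt_id y).const_mul 3)).const_add 1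
    simpa using this
  have a6 : HasDerivAt (fun y : ℝ => 1 + 6 * y) 6 y := by
    have := (((hasDerivAt_id y).const_mul 6)).const_add 1
    simpa using this
  have b3 := (hasDerivAt_const y (9 / 4 : ℝ)).div a3 n3
  have b6 := (hasDerivAt_const y (3 / 2 : ℝ)).div a6 n6
  have h := (((((a1.mul (l1.sub ly)).sub_const (1 / 2)).sub
    (((l3.sub_const (Real.log 3)).sub ly).const_mul (3 / 2))).sub_const (3 / 2)).sub b3).add b6
  refine h.congr_deriv ?_
  simp only [DD2, Pi.sub_apply]
  field_simp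
  ring

lemma DD2_nonpos {y : ℝ} (hy : 0 < y) (hy1 : y ≤ 3 / 10) : DD2 y ≤ 0 := by
  have h1 : Real.log (1 + y) - Real.log y = Real.log (1 + 1 / y) := by
    rw [← Real.log_div (by positivity) hy.ne']
    congr 1
    field_simp
    ring
  have h2 := log_upper (w := 1 / y) (by positivity)
  have h3 : ((1 / y) ^ 2 + 6 * (1 / y)) / (4 * (1 / y) + 6) = (1 + 6 * y) / (y * (4 + 6 * y)) := by
    field_simp
  rw [h3] at h2
  have hN : 2 * ((1 + 6 * y) / (y * (4 + 6 * y))) - 2 / y + 3 / 2 / (y * (1 + 3 * y)) +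
    27 / 4 / (1 + 3 * y) ^ 2 - 9 / (1 + 6 * y) ^ 2 =
      (-9 * y - 81 / 4 * y ^ 2 + 81 * y ^ 3) /
        (y * ((2 + 3 * y) * (1 + 3 * y) ^ 2 * (1 + 6 * y) ^ 2)) := by
    have n1 : (4 + 6 * y) ≠ 0 := by positivity
    have n2 : (2 + 3 * y) ≠ 0 := by positivity
    have n3 : (1 + 3 * y) ≠ 0 := by positivity
    have n6 : (1 + 6 * y) ≠ 0 := by positivity
    have hy0 := hy.ne'
    field_simp
    ring
  have hneg : (-9 * y - 81 / 4 * y ^ 2 + 81 * y ^ 3) /
        (y * ((2 + 3 * y) * (1 + 3 * y) ^ 2 * (1 + 6 * y) ^ 2)) ≤ 0 := by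
    apply div_nonpos_of_nonpos_of_nonneg
    · have : y ^ 2 ≤ 9 / 100 := by nlinarith
      nlinarith [sq_nonneg y]
    · positivity
  unfold DD2
  rw [h1]
  linarith

lemma log3_le : Real.log 3 ≤ Real.log 2 + 13 / 32 := by
  have h := log_upper (w := 1 / 2) (by norm_num)
  have e : Real.log 3 = Real.log 2 + Real.log (1 + 1 / 2) := by
    rw [← Real.log_mul (by norm_num) (by norm_num)]
    norm_num
  rw [e]
  norm_num at h ⊢
  linarith

lemma DD1_pos_at : 0 ≤ DD1 (3 / 10) := by
  have h1 := log_lower (w := 1 / 12) (by norm_num)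
  have h2 := log_upper (w := 1 / 18) (by norm_num)
  have e1 : Real.log (1 + 3 / 10) - Real.log (3 / 10) = 2 * Real.log 2 + Real.log (1 + 1 / 12) := by
    rw [← Real.log_div (by norm_num) (by norm_num), two_mul, ← Real.log_mul (by norm_num)
      (by norm_num), ← Real.log_mul (by norm_num) (by norm_num)]
    norm_num
  have e2 : Real.log (1 + 3 * (3 / 10)) - Real.log 3 - Real.log (3 / 10) =
      Real.log 2 + Real.log (1 + 1 / 18) := by
    rw [← Real.log_div (by norm_num) (by norm_num), ← Real.log_div (by norm_num) (by norm_num),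
      ← Real.log_mul (by norm_num) (by norm_num)]
    norm_num
  unfold DD1
  rw [e1, e2]
  have := Real.log_two_gt_d9
  have := Real.log_two_lt_d9
  norm_num at h1 h2 ⊢
  linarith

lemma DD_cont : Continuous (fun y : ℝ => (2 + y) * (y * Real.log y)) :=
  (by fun_prop : Continuous (fun y : ℝ => 2 + y)).mul Real.continuous_mul_log

lemma DD_nonneg_small {y : ℝ} (hy : 0 < y) (hy1 : y ≤ 3 / 10) : 0 ≤ DD y := by
  have hanti : AntitoneOn DD1 (Ioc 0 (3 / 10)) := by
    refine antitoneOn_of_deriv_nonpos (convex_Ioc 0 (3 / 10))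
      (fun x hx => (DD1_der hx.1).continuousAt.continuousWithinAt)
      (fun x hx => (DD1_der (interior_subset hx).1).differentiableAt.differentiableWithinAt) ?_
    intro x hx
    have hx' := interior_subset hx
    rw [(DD1_der hx'.1).deriv]
    exact DD2_nonpos hx'.1 hx'.2
  have hcont : ContinuousOn DD (Icc 0 (3 / 10)) := by
    unfold DD
    have c1 : ∀ c : ℝ, 0 ≤ c → ContinuousOn (fun y : ℝ => Real.log (1 + c * y))
        (Icc 0 (3 / 10)) := by
      intro c hc
      refine ContinuousOn.log (by fun_prop) ?_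
      intro x hx
      have := hx.1
      positivity
    have c2 : ContinuousOn (fun y : ℝ => Real.log (1 + y)) (Icc 0 (3 / 10)) := by
      have := c1 1 zero_le_one
      simpa using this
    have c3 := c1 3 (by norm_num)
    have c6 := c1 6 (by norm_num)
    have c4 : Continuous (fun y : ℝ => y * Real.log y) := Real.continuous_mul_log
    have e1 : ContinuousOn (fun y : ℝ => (1 + y) ^ 2 * Real.log (1 + y)) (Icc 0 (3 / 10)) :=
      (by fun_prop : ContinuousOn (fun y : ℝ => (1 + y) ^ 2) _).mul c2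
    have e2 : ContinuousOn (fun y : ℝ => (5 / 4 + 3 * y / 2) * Real.log (1 + 3 * y))
        (Icc 0 (3 / 10)) :=
      (by fun_prop : ContinuousOn (fun y : ℝ => (5 / 4 + 3 * y / 2)) _).mul c3
    have e3 : ContinuousOn (fun y : ℝ => 3 / 2 * (y * Real.log 3 + y * Real.log y))
        (Icc 0 (3 / 10)) :=
      continuousOn_const.mul ((by fun_prop : ContinuousOn (fun y : ℝ => y * Real.log 3) _).add
        c4.continuousOn)
    exact ((((e1.sub DD_cont.continuousOn).sub continuousOn_id).sub e2).add e3).add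
      (continuousOn_const.mul c6)
  have hmono : MonotoneOn DD (Icc 0 (3 / 10)) := by
    refine monotoneOn_of_deriv_nonneg (convex_Icc 0 (3 / 10)) hcont ?_ ?_
    · intro x hx
      rw [interior_Icc] at hx
      exact (DD_der hx.1).differentiableAt.differentiableWithinAt
    · intro x hx
      rw [interior_Icc] at hx
      rw [(DD_der hx.1).deriv]
      exact DD1_pos_at.trans (hanti ⟨hx.1, hx.2.le⟩ ⟨by norm_num, le_rfl⟩ hx.2.le)
  have h := hmono ⟨le_rfl, by norm_num⟩ ⟨hy.le, hy1⟩ hy.le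
  have h0 : DD 0 = 0 := by simp [DD]
  rwa [h0] at h

lemma DD_nonneg_large {y : ℝ} (hy : 3 / 10 ≤ y) : 0 ≤ DD y := by
  have hy0 : 0 < y := by linarith
  obtain ⟨w, hw, rfl⟩ : ∃ w : ℝ, 0 < w ∧ y = 1 / w := ⟨1 / y, by positivity, by field_simp⟩
  have hw1 : w ≤ 10 / 3 := by
    rw [le_div_iff₀ hw] at hy
    linarith
  have b1 := log_lower (w := w) hw.le
  have b3 := log_upper (w := w / 3) (by positivity)
  have b6 := log_lower (w := w / 6) (by positivity)
  have e1 : Real.log (1 + 1 / w) = Real.log (1 + w) - Real.log w := by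
    rw [← Real.log_div (by positivity) hw.ne']
    congr 1
    field_simp
    ring
  have e3 : Real.log (1 + 3 * (1 / w)) = Real.log 3 - Real.log w + Real.log (1 + w / 3) := by
    rw [← Real.log_div (by norm_num) hw.ne', ← Real.log_mul (by positivity) (by positivity)]
    congr 1
    field_simp
    ring
  have e6 : Real.log (1 + 6 * (1 / w)) =
      Real.log 2 + Real.log 3 - Real.log w + Real.log (1 + w / 6) := by
    rw [← Real.log_mul (by norm_num) (by norm_num), ← Real.log_div (by norm_num) hw.ne',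
      ← Real.log_mul (by positivity) (by positivity)]
    congr 1
    field_simp
    ring
  have ew : Real.log (1 / w) = - Real.log w := by rw [one_div, Real.log_inv]
  have hD : DD (1 / w) = (1 + 1 / w) ^ 2 * Real.log (1 + w) - 1 / w -
      (5 / 4 + 3 * (1 / w) / 2) * Real.log (1 + w / 3) + 1 / 4 * Real.log (1 + w / 6) +
      (1 / 4 * Real.log 2 - Real.log 3) := by
    unfold DD
    rw [e1, e3, e6, ew]
    ring
  rw [hD]
  have c0 : -(92615 / 100000) ≤ 1 / 4 * Real.log 2 - Real.log 3 := by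
    have := log3_le
    have := Real.log_two_lt_d9
    linarith
  have d1 : (1 + 1 / w) ^ 2 * ((3 * w ^ 2 + 6 * w) / (w ^ 2 + 6 * w + 6)) ≤
      (1 + 1 / w) ^ 2 * Real.log (1 + w) := mul_le_mul_of_nonneg_left b1 (by positivity)
  have d3 : (5 / 4 + 3 * (1 / w) / 2) * Real.log (1 + w / 3) ≤
      (5 / 4 + 3 * (1 / w) / 2) * (((w / 3) ^ 2 + 6 * (w / 3)) / (4 * (w / 3) + 6)) :=
    mul_le_mul_of_nonneg_left b3 (by positivity)
  have key : 0 ≤ (1 + 1 / w) ^ 2 * ((3 * w ^ 2 + 6 * w) / (w ^ 2 + 6 * w + 6)) - 1 / w -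
      (5 / 4 + 3 * (1 / w) / 2) * (((w / 3) ^ 2 + 6 * (w / 3)) / (4 * (w / 3) + 6)) +
      1 / 4 * ((3 * (w / 6) ^ 2 + 6 * (w / 6)) / ((w / 6) ^ 2 + 6 * (w / 6) + 6)) -
      92615 / 100000 := by
    have hn1 : w ^ 2 + 6 * w + 6 ≠ 0 := by positivity
    have hn2 : 2 * w + 9 ≠ 0 := by positivity
    have hn3 : w ^ 2 + 36 * w + 216 ≠ 0 := by positivity
    have hn4 : 4 * (w / 3) + 6 ≠ 0 := by positivity
    have hn5 : (w / 6) ^ 2 + 6 * (w / 6) + 6 ≠ 0 := by positivity
    have E : (1 + 1 / w) ^ 2 * ((3 * w ^ 2 + 6 * w) / (w ^ 2 + 6 * w + 6)) - 1 / w -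
      (5 / 4 + 3 * (1 / w) / 2) * (((w / 3) ^ 2 + 6 * (w / 3)) / (4 * (w / 3) + 6)) +
      1 / 4 * ((3 * (w / 6) ^ 2 + 6 * (w / 6)) / ((w / 6) ^ 2 + 6 * (w / 6) + 6)) -
      92615 / 100000 = (51683184 / 625 + 4037688 / 25 * w + 46256346 / 625 * w ^ 2 -
        113526 / 625 * w ^ 3 - 3067917 / 625 * w ^ 4 - 426138 / 625 * w ^ 5 - 20 * w ^ 6) /
        ((w ^ 2 + 6 * w + 6) * (24 * (2 * w + 9)) * (4 * (w ^ 2 + 36 * w + 216))) := by
      have f1 : 4 * (w / 3) + 6 = (2 / 3) * (2 * w + 9) := by ring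
      have f2 : (w / 6) ^ 2 + 6 * (w / 6) + 6 = (1 / 36) * (w ^ 2 + 36 * w + 216) := by ring
      rw [f1, f2]
      field_simp
      ring
    rw [E]
    apply div_nonneg _ (by positivity)
    have p3 : w ^ 3 ≤ 10 / 3 * w ^ 2 := by nlinarith [sq_nonneg w]
    have p4 : w ^ 4 ≤ 100 / 9 * w ^ 2 := by nlinarith [sq_nonneg w, mul_pos hw hw]
    have p5 : w ^ 5 ≤ 1000 / 27 * w ^ 2 := by nlinarith [sq_nonneg w, mul_pos hw hw]
    have p6 : w ^ 6 ≤ 10000 / 81 * w ^ 2 := by nlinarith [sq_nonneg w, mul_pos hw hw]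
    nlinarith
  linarith

lemma DD_nonneg {y : ℝ} (hy : 0 < y) : 0 ≤ DD y := by
  rcases le_total y (3 / 10) with h | h
  · exact DD_nonneg_small hy h
  · exact DD_nonneg_large h

end

end Pool.Agent.TH443.LI
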