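import Pool.Agent.TH580.LM.Fn
import Pool.Agent.TH443.LM_LI1

set_option autoImplicit false

open MeasureTheory Set
open Pool.Agent.TH580.LM

namespace Pool.Agent.TH443.LI

noncomputable section

/-- the integrand -/
def G (z y : ℝ) : ℝ := Real.log (1 + z / (2 * y))

lemma conv (a : ℕ) (ha : 1 ≤ a) (z : ℝ) :
    ∫ t, lam (1 / ((a : ℝ) + 1) * z / (1 - t)) ∂(Bt a 1) =
      ∫ t in Ioo (0:ℝ) 1, ((a:ℝ) * t ^ (a - 1)) * G z (((a:ℝ) + 1) * (1 - t)) := by
  unfold Bt
  have hm : Measurable fun t => ENNReal.ofReal (bd a 1 t) := by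
    have : Measurable (bd a 1) := by unfold bd; fun_prop
    exact this.ennreal_ofReal
  rw [integral_withDensity_eq_integral_toReal_smul hm (by simp)]
  refine setIntegral_congr_fun measurableSet_Ioo fun t ht => ?_
  have hbd : bd a 1 t = (a:ℝ) * t ^ (a - 1) := by
    unfold bd
    have h1 : ((a + 1 - 1).factorial : ℝ) = a * ((a - 1).factorial : ℝ) := by
      have := Nat.mul_factorial_pred (n := a) (by omega)
      rw [Nat.add_sub_cancel, ← this]
      push_cast
      ring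
    have h2 : ((a - 1).factorial : ℝ) ≠ 0 := by positivity
    rw [h1]
    simp only [Nat.sub_self, Nat.factorial_zero, Nat.cast_one, mul_one, pow_zero]
    field_simp
  have hpos : 0 ≤ (a:ℝ) * t ^ (a - 1) := by
    have := ht.1.le
    positivity
  simp only [hbd, smul_eq_mul]
  rw [ENNReal.toReal_ofReal hpos]
  congr 1
  unfold lam G
  congr 2
  have h1 : (1 - t) ≠ 0 := by linarith [ht.2]
  field_simp

lemma int_log1 : IntegrableOn (fun t : ℝ => Real.log (1 - t)) (Ioo 0 1) := by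
  have h := (intervalIntegral.intervalIntegrable_log' (a := (0:ℝ)) (b := 1)).comp_sub_left 1
  have h2 : IntervalIntegrable (fun t : ℝ => Real.log (1 - t)) volume 0 1 := by
    have := h.symm
    simpa using this
  exact (intervalIntegrable_iff_integrableOn_Ioo_of_le zero_le_one).1 h2

lemma G_meas (z c : ℝ) : Measurable (fun t : ℝ => G z (c * (1 - t))) := by
  unfold G
  fun_prop

lemma G_nonneg {z y : ℝ} (hz : 0 < z) (hy : 0 < y) : 0 ≤ G z y := by
  unfold G
  apply Real.log_nonneg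
  have : 0 ≤ z / (2 * y) := by positivity
  linarith

lemma G_le {z c t : ℝ} (hz : 0 < z) (hc : 0 < c) (ht : t ∈ Ioo (0:ℝ) 1) :
    G z (c * (1 - t)) ≤ Real.log (1 + z / (2 * c)) - Real.log (1 - t) := by
  have h1 : 0 < 1 - t := by linarith [ht.2]
  unfold G
  rw [← Real.log_div (by positivity) h1.ne']
  apply Real.log_le_log (by positivity)
  rw [le_div_iff₀ h1]
  have : (1 + z / (2 * (c * (1 - t)))) * (1 - t) = (1 - t) + z / (2 * c) := by
    field_simp
  rw [this]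
  linarith [ht.1]

lemma int_wG (a : ℕ) {z c : ℝ} (hz : 0 < z) (hc : 0 < c) :
    IntegrableOn (fun t : ℝ => ((a:ℝ) * t ^ (a - 1)) * G z (c * (1 - t))) (Ioo 0 1) := by
  have hb : IntegrableOn (fun t : ℝ => (a:ℝ) * (Real.log (1 + z / (2 * c)) - Real.log (1 - t)))
      (Ioo 0 1) := by
    refine Integrable.const_mul ?_ _
    refine Integrable.sub ?_ int_log1
    exact integrableOn_const (by simp)
  refine Integrable.mono' hb ?_ ?_
  · have h1 := G_meas z c
    exact (by fun_prop : Measurable (fun t : ℝ =>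
      ((a:ℝ) * t ^ (a - 1)) * G z (c * (1 - t)))).aestronglyMeasurable
  · refine (ae_restrict_mem measurableSet_Ioo).mono fun t ht => ?_
    have h1 : 0 < 1 - t := by linarith [ht.2]
    have h2 := G_nonneg (y := c * (1 - t)) hz (by positivity)
    have h3 : t ^ (a - 1) ≤ 1 := pow_le_one₀ ht.1.le ht.2.le
    have h4 : 0 ≤ t ^ (a - 1) := pow_nonneg ht.1.le _
    have h5 := G_le hz hc ht
    rw [Real.norm_eq_abs, abs_of_nonneg (by positivity), mul_assoc]
    refine mul_le_mul_of_nonneg_left ?_ (Nat.cast_nonneg a)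
    calc t ^ (a - 1) * G z (c * (1 - t)) ≤ 1 * G z (c * (1 - t)) :=
          mul_le_mul_of_nonneg_right h3 h2
      _ ≤ _ := by rw [one_mul]; exact h5

/-! ### substitution -/

lemma img_rpow {p : ℝ} (hp : 0 < p) :
    (fun t : ℝ => t ^ p) '' Ioo (0:ℝ) 1 = Ioo (0:ℝ) 1 := by
  ext x
  constructor
  · rintro ⟨t, ht, rfl⟩
    exact ⟨Real.rpow_pos_of_pos ht.1 _, Real.rpow_lt_one ht.1.le ht.2 hp⟩
  · intro hx
    refine ⟨x ^ (1 / p), ⟨Real.rpow_pos_of_pos hx.1 _, Real.rpow_lt_one hx.1.le hx.2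
      (by positivity)⟩, ?_⟩
    show (x ^ (1 / p)) ^ p = x
    rw [← Real.rpow_mul hx.1.le, one_div_mul_cancel hp.ne', Real.rpow_one]

lemma der_rpow {p : ℝ} : ∀ t ∈ Ioo (0:ℝ) 1,
    HasDerivWithinAt (fun t : ℝ => t ^ p) (p * t ^ (p - 1)) (Ioo 0 1) t := fun t ht =>
  (Real.hasDerivAt_rpow_const (Or.inl ht.1.ne')).hasDerivWithinAt

lemma inj_rpow {p : ℝ} (hp : 0 < p) : InjOn (fun t : ℝ => t ^ p) (Ioo (0:ℝ) 1) := by
  intro s hs t ht h
  exact (Real.rpow_left_inj hs.1.le ht.1.le hp.ne').1 h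

lemma jac (a : ℕ) (ha : 1 ≤ a) (h : ℝ → ℝ) {t : ℝ} (ht : t ∈ Ioo (0:ℝ) 1) :
    |((a:ℝ) / 2) * t ^ ((a:ℝ) / 2 - 1)| • (2 * t ^ ((a:ℝ) / 2) * h (t ^ ((a:ℝ) / 2))) =
      ((a:ℝ) * t ^ (a - 1)) * h (t ^ ((a:ℝ) / 2)) := by
  have h1 : 0 ≤ ((a:ℝ) / 2) * t ^ ((a:ℝ) / 2 - 1) := by
    have := ht.1.le
    positivity
  rw [abs_of_nonneg h1, smul_eq_mul]
  have h2 : t ^ ((a:ℝ) / 2 - 1) * t ^ ((a:ℝ) / 2) = t ^ (a - 1) := by
    rw [← Real.rpow_add ht.1, ← Real.rpow_natCast]
    congr 1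
    rw [Nat.cast_sub ha]
    push_cast
    ring
  linear_combination ((a:ℝ) * h (t ^ ((a:ℝ) / 2))) * h2

lemma subst (a : ℕ) (ha : 1 ≤ a) (h : ℝ → ℝ) :
    ∫ τ in Ioo (0:ℝ) 1, (2 * τ) * h τ =
      ∫ t in Ioo (0:ℝ) 1, ((a:ℝ) * t ^ (a - 1)) * h (t ^ ((a:ℝ) / 2)) := by
  have hp : 0 < (a:ℝ) / 2 := by
    have : (0:ℝ) < a := by exact_mod_cast ha
    positivity
  have e := integral_image_eq_integral_abs_deriv_smul measurableSet_Ioo
    (der_rpow (p := (a:ℝ) / 2)) (inj_rpow hp) (fun τ => (2 * τ) * h τ)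
  rw [img_rpow hp] at e
  rw [e]
  exact setIntegral_congr_fun measurableSet_Ioo fun t ht => jac a ha h ht

lemma subst_int (a : ℕ) (ha : 1 ≤ a) (h : ℝ → ℝ)
    (hi : IntegrableOn (fun τ : ℝ => (2 * τ) * h τ) (Ioo 0 1)) :
    IntegrableOn (fun t : ℝ => ((a:ℝ) * t ^ (a - 1)) * h (t ^ ((a:ℝ) / 2))) (Ioo 0 1) := by
  have hp : 0 < (a:ℝ) / 2 := by
    have : (0:ℝ) < a := by exact_mod_cast ha
    positivity
  have e := (integrableOn_image_iff_integrableOn_abs_deriv_smul measurableSet_Ioo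
    (der_rpow (p := (a:ℝ) / 2)) (inj_rpow hp) (fun τ => (2 * τ) * h τ))
  rw [img_rpow hp] at e
  exact (e.1 hi).congr_fun (fun t ht => jac a ha h ht) measurableSet_Ioo

/-! ### convexity -/

/-- the derivative of `G z` -/
def gp (z y : ℝ) : ℝ := 1 / (y + z / 2) - 1 / y

lemma gp_mono {z x y : ℝ} (hz : 0 < z) (hx : 0 < x) (hxy : x ≤ y) : gp z x ≤ gp z y := by
  have hy : 0 < y := hx.trans_le hxy
  have e : ∀ u : ℝ, 0 < u → gp z u = -(z / 2 / (u * (u + z / 2))) := by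
    intro u hu
    unfold gp
    have : u + z / 2 ≠ 0 := by positivity
    field_simp
    ring
  rw [e x hx, e y hy]
  apply neg_le_neg
  apply div_le_div_of_nonneg_left (by positivity) (by positivity)
  nlinarith

lemma G_tangent {z x x0 : ℝ} (hz : 0 < z) (hx : 0 < x) (hx0 : 0 < x0) :
    G z x0 + gp z x0 * (x - x0) ≤ G z x := by
  set k := z / 2 with hk
  have hk0 : 0 < k := by positivity
  have e : ∀ u : ℝ, 0 < u → G z u = Real.log (u + k) - Real.log u := by
    intro u hu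
    unfold G
    rw [← Real.log_div (by positivity) hu.ne']
    congr 1
    rw [hk]
    field_simp
  rw [e x hx, e x0 hx0]
  set A := x / x0 with hA
  set B := (x + k) / (x0 + k) with hB
  have hA0 : 0 < A := by positivity
  have hB0 : 0 < B := by positivity
  have e1 : Real.log A = Real.log x - Real.log x0 := Real.log_div hx.ne' hx0.ne'
  have e2 : Real.log B = Real.log (x + k) - Real.log (x0 + k) :=
    Real.log_div (by positivity) (by positivity)
  have e3 : gp z x0 * (x - x0) = B - A := by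
    unfold gp
    rw [hA, hB]
    have : x0 + k ≠ 0 := by positivity
    field_simp
    ring
  have h1 : Real.log A - Real.log B ≤ A / B - 1 := by
    rw [← Real.log_div hA0.ne' hB0.ne']
    exact Real.log_le_sub_one_of_pos (by positivity)
  have h2 : A / B - 1 ≤ A - B := by
    have e4 : A / B - 1 = (A - B) / B := by field_simp
    rw [e4, div_le_iff₀ hB0]
    have e5 : A - B = (x - x0) * k / (x0 * (x0 + k)) := by
      rw [hA, hB]; field_simp; ring
    have e6 : B - 1 = (x - x0) / (x0 + k) := by rw [hB]; field_simp; ring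
    have e7 : 0 ≤ (A - B) * (B - 1) := by
      rw [e5, e6]
      have : (x - x0) * k / (x0 * (x0 + k)) * ((x - x0) / (x0 + k)) =
        (x - x0) ^ 2 * (k / (x0 * (x0 + k) ^ 2)) := by field_simp
      rw [this]
      positivity
    linarith
  linarith

/-- the difference of the quantile functions -/
def dd (a : ℕ) (t : ℝ) : ℝ := ((a:ℝ) + 1) * (1 - t) - 3 * (1 - t ^ ((a:ℝ) / 2))

lemma dd_convex (a : ℕ) (ha : 2 ≤ a) : ConvexOn ℝ (Ici 0) (dd a) := by
  have hp : 1 ≤ (a:ℝ) / 2 := by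
    have : (2:ℝ) ≤ a := by exact_mod_cast ha
    linarith
  have h1 := (convexOn_rpow hp).smul (c := (3:ℝ)) (by norm_num)
  have h2 : ConvexOn ℝ (Ici (0:ℝ)) (fun t : ℝ => ((a:ℝ) + 1) * (1 - t) - 3) := by
    refine ⟨convex_Ici 0, fun x _ y _ s r _ _ hsr => le_of_eq ?_⟩
    simp only [smul_eq_mul]
    have : r = 1 - s := by linarith
    subst this
    ring
  refine (h2.add h1).congr fun t _ => ?_
  simp only [dd, Pi.add_apply, smul_eq_mul]
  ring

lemma crossing (a : ℕ) (ha : 2 ≤ a) : ∃ ts : ℝ, 0 ≤ ts ∧ ts < 1 ∧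
    (∀ t ∈ Ioo (0:ℝ) 1, t ≤ ts → 0 ≤ dd a t) ∧ (∀ t ∈ Ioo (0:ℝ) 1, ts ≤ t → dd a t ≤ 0) := by
  have haR : (2:ℝ) ≤ a := by exact_mod_cast ha
  have hp : 1 ≤ (a:ℝ) / 2 := by linarith
  have hconv := dd_convex a ha
  have hd1 : dd a 1 = 0 := by simp [dd]
  have hd0 : 0 ≤ dd a 0 := by
    have : (0:ℝ) ^ ((a:ℝ) / 2) = 0 := Real.zero_rpow (by linarith)
    simp only [dd, this]
    linarith
  set t1 : ℝ := (a:ℝ) / (a + 1) with ht1
  have ht10 : 0 < t1 := by positivity
  have ht11 : t1 < 1 := by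
    rw [ht1, div_lt_one (by positivity)]; linarith
  have hdt1 : dd a t1 ≤ 0 := by
    have h1 : (1 + (a:ℝ) / 2 * (1 / a)) ≤ (1 + 1 / (a:ℝ)) ^ ((a:ℝ) / 2) :=
      one_add_mul_self_le_rpow_one_add (by
        have : (0:ℝ) ≤ 1 / a := by positivity
        linarith) hp
    have h2 : 1 + (a:ℝ) / 2 * (1 / a) = 3 / 2 := by field_simp; norm_num
    rw [h2] at h1
    have h3 : t1 ^ ((a:ℝ) / 2) * (1 + 1 / (a:ℝ)) ^ ((a:ℝ) / 2) = 1 := by
      rw [← Real.mul_rpow ht10.le (by positivity)]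
      have : t1 * (1 + 1 / (a:ℝ)) = 1 := by rw [ht1]; field_simp
      rw [this, Real.one_rpow]
    have h4 : 0 < t1 ^ ((a:ℝ) / 2) := Real.rpow_pos_of_pos ht10 _
    have h5 : t1 ^ ((a:ℝ) / 2) ≤ 2 / 3 := by nlinarith
    have h6 : ((a:ℝ) + 1) * (1 - t1) = 1 := by rw [ht1]; field_simp; ring
    unfold dd
    rw [h6]
    linarith
  have hcont : ContinuousOn (dd a) (Icc 0 t1) := by
    unfold dd
    have : Continuous (fun t : ℝ => t ^ ((a:ℝ) / 2)) :=
      Real.continuous_rpow_const (by linarith)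
    fun_prop
  obtain ⟨ts, hts, hts0⟩ := intermediate_value_Icc' ht10.le hcont ⟨hdt1, hd0⟩
  have hts1 : ts < 1 := hts.2.trans_lt ht11
  refine ⟨ts, hts.1, hts1, ?_, ?_⟩
  · intro t ht htts
    by_contra hneg
    push Not at hneg
    -- ts is between t and 1
    have hlt : t < ts := lt_of_le_of_ne htts (fun h => by rw [h, hts0] at hneg; exact lt_irrefl _ hneg)
    have h1t : 0 < 1 - t := by linarith [ht.2]
    have hc := hconv.2 (mem_Ici.2 ht.1.le) (mem_Ici.2 zero_le_one)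
      (show 0 ≤ (1 - ts) / (1 - t) from div_nonneg (by linarith) h1t.le)
      (show 0 ≤ (ts - t) / (1 - t) from div_nonneg (by linarith) h1t.le)
      (by field_simp; ring)
    simp only [smul_eq_mul, hd1, mul_zero, add_zero] at hc
    have e : (1 - ts) / (1 - t) * t + (ts - t) / (1 - t) * 1 = ts := by field_simp; ring
    rw [e, hts0] at hc
    have : 0 < (1 - ts) / (1 - t) := div_pos (by linarith) h1t
    nlinarith
  · intro t ht htts
    have h1t : 0 < 1 - ts := by linarith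
    have hc := hconv.2 (mem_Ici.2 hts.1) (mem_Ici.2 zero_le_one)
      (show 0 ≤ (1 - t) / (1 - ts) from div_nonneg (by linarith [ht.2]) h1t.le)
      (show 0 ≤ (t - ts) / (1 - ts) from div_nonneg (by linarith) h1t.le)
      (by field_simp; ring)
    simp only [smul_eq_mul, hd1, hts0, mul_zero, add_zero] at hc
    have e : (1 - t) / (1 - ts) * ts + (t - ts) / (1 - ts) * 1 = t := by field_simp; ring
    rwa [e] at hc

lemma int_poly (f : ℝ → ℝ) (hf : Continuous f) : IntegrableOn f (Ioo 0 1) :=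
  (hf.integrableOn_Icc (a := 0) (b := 1)).mono_set Ioo_subset_Icc_self

lemma mean1 (a : ℕ) (ha : 1 ≤ a) :
    ∫ t in Ioo (0:ℝ) 1, ((a:ℝ) * t ^ (a - 1)) * (1 - t) = 1 / ((a:ℝ) + 1) := by
  obtain ⟨m, rfl⟩ : ∃ m, a = m + 1 := ⟨a - 1, by omega⟩
  rw [← integral_Ioc_eq_integral_Ioo, ← intervalIntegral.integral_of_le zero_le_one]
  simp only [Nat.add_sub_cancel]
  have e : (fun t : ℝ => ((m + 1 : ℕ) : ℝ) * t ^ m * (1 - t)) =
      fun t => ((m + 1 : ℕ) : ℝ) * t ^ m - ((m + 1 : ℕ) : ℝ) * t ^ (m + 1) := by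
    funext t; ring
  rw [e, intervalIntegral.integral_sub (by apply Continuous.intervalIntegrable; fun_prop)
    (by apply Continuous.intervalIntegrable; fun_prop), intervalIntegral.integral_const_mul,
    intervalIntegral.integral_const_mul, integral_pow, integral_pow]
  push_cast
  simp
  field_simp
  ring

lemma mean_dd (a : ℕ) (ha : 2 ≤ a) :
    ∫ t in Ioo (0:ℝ) 1, ((a:ℝ) * t ^ (a - 1)) * dd a t = 0 := by
  have haR : (2:ℝ) ≤ a := by exact_mod_cast ha
  have h1 := mean1 a (by omega)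
  have h2 := subst a (by omega) (fun τ => 1 - τ)
  have h3 := mean1 2 (by norm_num)
  have h4 : ∫ τ in Ioo (0:ℝ) 1, (2 * τ) * (1 - τ) = 1 / 3 := by
    have : ∀ τ : ℝ, ((2:ℕ):ℝ) * τ ^ (2 - 1) * (1 - τ) = (2 * τ) * (1 - τ) := by
      intro τ; norm_num
    simp only [this] at h3
    rw [h3]
    norm_num
  have hc : Continuous (fun t : ℝ => t ^ ((a:ℝ) / 2)) :=
    Real.continuous_rpow_const (by linarith)
  have e : (fun t : ℝ => ((a:ℝ) * t ^ (a - 1)) * dd a t) = fun t : ℝ =>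
      ((a:ℝ) + 1) * (((a:ℝ) * t ^ (a - 1)) * (1 - t)) -
        3 * (((a:ℝ) * t ^ (a - 1)) * (1 - t ^ ((a:ℝ) / 2))) := by
    funext t; unfold dd; ring
  rw [e, integral_sub ((int_poly _ (by fun_prop))) ((int_poly _ (by fun_prop))),
    integral_const_mul, integral_const_mul, h1, ← h2, h4]
  field_simp
  ring

/-- Step 1 -/
lemma step1 (a : ℕ) (ha : 2 ≤ a) {z : ℝ} (hz : 0 < z) :
    ∫ τ in Ioo (0:ℝ) 1, (2 * τ) * G z (3 * (1 - τ)) ≤
      ∫ t in Ioo (0:ℝ) 1, ((a:ℝ) * t ^ (a - 1)) * G z (((a:ℝ) + 1) * (1 - t)) := by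
  have haR : (2:ℝ) ≤ a := by exact_mod_cast ha
  have hp : 0 < (a:ℝ) / 2 := by linarith
  obtain ⟨ts, hts0, hts1, hc1, hc2⟩ := crossing a ha
  have hint2 : IntegrableOn (fun τ : ℝ => (2 * τ) * G z (3 * (1 - τ))) (Ioo 0 1) := by
    have := int_wG 2 hz (by norm_num : (0:ℝ) < 3)
    refine this.congr_fun (fun t _ => ?_) measurableSet_Ioo
    norm_num
  have hint2' := subst_int a (by omega) (fun τ => G z (3 * (1 - τ))) hint2
  have hinta := int_wG a hz (by positivity : (0:ℝ) < (a:ℝ) + 1)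
  have hcr : Continuous (fun t : ℝ => t ^ ((a:ℝ) / 2)) :=
    Real.continuous_rpow_const (by linarith)
  have hintd : IntegrableOn (fun t : ℝ => ((a:ℝ) * t ^ (a - 1)) * dd a t) (Ioo 0 1) :=
    int_poly _ (by unfold dd; fun_prop)
  set xs : ℝ := 3 * (1 - ts ^ ((a:ℝ) / 2)) with hxs
  have hxs0 : 0 < xs := by
    have : ts ^ ((a:ℝ) / 2) < 1 := Real.rpow_lt_one hts0 hts1 hp
    rw [hxs]; linarith
  rw [subst a (by omega) (fun τ => G z (3 * (1 - τ)))]
  have e : ∫ t in Ioo (0:ℝ) 1, ((a:ℝ) * t ^ (a - 1)) * G z (3 * (1 - t ^ ((a:ℝ) / 2))) =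
      ∫ t in Ioo (0:ℝ) 1, (((a:ℝ) * t ^ (a - 1)) * G z (3 * (1 - t ^ ((a:ℝ) / 2))) +
        gp z xs * (((a:ℝ) * t ^ (a - 1)) * dd a t)) := by
    rw [integral_add hint2' (hintd.const_mul _), integral_const_mul, mean_dd a ha, mul_zero,
      add_zero]
  rw [e]
  refine setIntegral_mono_on (hint2'.add (hintd.const_mul _)) hinta measurableSet_Ioo ?_
  intro t ht
  have ht1 : t ^ ((a:ℝ) / 2) < 1 := Real.rpow_lt_one ht.1.le ht.2 hp
  set x0 : ℝ := 3 * (1 - t ^ ((a:ℝ) / 2)) with hx0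
  have hx00 : 0 < x0 := by rw [hx0]; linarith
  have h1t : 0 < 1 - t := by linarith [ht.2]
  have hx : 0 < ((a:ℝ) + 1) * (1 - t) := by positivity
  have htan := G_tangent hz hx hx00
  have hdd : ((a:ℝ) + 1) * (1 - t) - x0 = dd a t := by unfold dd; rw [hx0]
  rw [hdd] at htan
  have hkey : gp z xs * dd a t ≤ gp z x0 * dd a t := by
    rcases le_total t ts with h | h
    · have : t ^ ((a:ℝ) / 2) ≤ ts ^ ((a:ℝ) / 2) := Real.rpow_le_rpow ht.1.le h hp.le
      exact mul_le_mul_of_nonneg_right (gp_mono hz hxs0 (by rw [hxs, hx0]; linarith)) (hc1 t ht h)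
    · have : ts ^ ((a:ℝ) / 2) ≤ t ^ ((a:ℝ) / 2) := Real.rpow_le_rpow hts0 h hp.le
      exact mul_le_mul_of_nonpos_right (gp_mono hz hx00 (by rw [hxs, hx0]; linarith)) (hc2 t ht h)
  have hw : 0 ≤ (a:ℝ) * t ^ (a - 1) := by
    have := ht.1.le
    positivity
  calc ((a:ℝ) * t ^ (a - 1)) * G z x0 + gp z xs * (((a:ℝ) * t ^ (a - 1)) * dd a t)
      = ((a:ℝ) * t ^ (a - 1)) * (G z x0 + gp z xs * dd a t) := by ring
    _ ≤ ((a:ℝ) * t ^ (a - 1)) * G z (((a:ℝ) + 1) * (1 - t)) :=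
        mul_le_mul_of_nonneg_left (by linarith) hw

/-- Step 2: closed form for `n = 3` -/
lemma closed {y : ℝ} (hy : 0 < y) :
    ∫ τ in Ioo (0:ℝ) 1, (2 * τ) * G (6 * y) (3 * (1 - τ)) =
      (1 + y) ^ 2 * Real.log (1 + y) - (2 + y) * (y * Real.log y) - y := by
  set Ψ : ℝ → ℝ := fun τ => -((1 + τ) * ((1 - τ) * Real.log (1 - τ + y) -
    (1 - τ) * Real.log (1 - τ)) + y * (2 + y) * Real.log (1 - τ + y) - y * (1 - τ)) with hΨ
  have hcont : ContinuousOn Ψ (Icc 0 1) := by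
    have c1 : ContinuousOn (fun τ : ℝ => Real.log (1 - τ + y)) (Icc 0 1) := by
      refine ContinuousOn.log (by fun_prop) ?_
      intro x hx
      have := hx.2
      have : 0 < 1 - x + y := by linarith
      exact this.ne'
    have c2 : ContinuousOn (fun τ : ℝ => (1 - τ) * Real.log (1 - τ)) (Icc 0 1) :=
      (Real.continuous_mul_log.comp (by fun_prop : Continuous (fun τ : ℝ => 1 - τ))).continuousOn
    have c3 : ContinuousOn (fun τ : ℝ => 1 - τ) (Icc 0 1) := by fun_prop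
    have c4 : ContinuousOn (fun τ : ℝ => 1 + τ) (Icc 0 1) := by fun_prop
    exact (((c4.mul ((c3.mul c1).sub c2)).add (continuousOn_const.mul c1)).sub
      (continuousOn_const.mul c3)).neg
  have hder : ∀ τ ∈ Ioo (0:ℝ) 1, HasDerivAt Ψ
      ((2 * τ) * (Real.log (1 - τ + y) - Real.log (1 - τ))) τ := by
    intro τ hτ
    have h1 : 0 < 1 - τ := by linarith [hτ.2]
    have h2 : 0 < 1 - τ + y := by linarith
    have d0 : HasDerivAt (fun τ : ℝ => 1 - τ) (-1) τ := by
      simpa using (hasDerivAt_id τ).const_sub 1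
    have d00 : HasDerivAt (fun τ : ℝ => 1 - τ + y) (-1) τ := d0.add_const y
    have d1 := d00.log h2.ne'
    have d2 := d0.log h1.ne'
    have d3 : HasDerivAt (fun τ : ℝ => 1 + τ) 1 τ := by
      simpa using (hasDerivAt_id τ).const_add 1
    have h := (((d3.mul ((d0.mul d1).sub (d0.mul d2))).add (d1.const_mul (y * (2 + y)))).sub
      (d0.const_mul y)).neg
    refine h.congr_deriv ?_
    simp only [Pi.sub_apply, Pi.mul_apply]
    field_simp
    ring
  have hpos : ∀ τ ∈ Ioo (0:ℝ) 1, 0 ≤ (2 * τ) * (Real.log (1 - τ + y) - Real.log (1 - τ)) := by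
    intro τ hτ
    have h1 : 0 < 1 - τ := by linarith [hτ.2]
    have : Real.log (1 - τ) ≤ Real.log (1 - τ + y) := Real.log_le_log h1 (by linarith)
    have := hτ.1
    nlinarith
  have hI : IntervalIntegrable (fun τ : ℝ => (2 * τ) * (Real.log (1 - τ + y) -
      Real.log (1 - τ))) volume 0 1 := by
    refine intervalIntegral.intervalIntegrable_deriv_of_nonneg (g := Ψ) ?_ ?_ ?_
    · rw [uIcc_of_le zero_le_one]; exact hcont
    · rw [min_eq_left zero_le_one, max_eq_right zero_le_one]; exact hder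
    · rw [min_eq_left zero_le_one, max_eq_right zero_le_one]; exact hpos
  have hFTC := intervalIntegral.integral_eq_sub_of_hasDerivAt_of_le zero_le_one hcont hder hI
  have e1 : ∫ τ in Ioo (0:ℝ) 1, (2 * τ) * G (6 * y) (3 * (1 - τ)) =
      ∫ τ in (0:ℝ)..1, (2 * τ) * (Real.log (1 - τ + y) - Real.log (1 - τ)) := by
    rw [intervalIntegral.integral_of_le zero_le_one, integral_Ioc_eq_integral_Ioo]
    refine setIntegral_congr_fun measurableSet_Ioo fun τ hτ => ?_
    have h1 : 0 < 1 - τ := by linarith [hτ.2]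
    have h2 : 0 < 1 - τ + y := by linarith
    congr 1
    unfold G
    rw [← Real.log_div h2.ne' h1.ne']
    congr 1
    field_simp
    ring
  rw [e1, hFTC]
  simp only [hΨ]
  norm_num
  ring

theorem thm : S_LI := by
  intro a ha z hz
  rw [conv a (by omega) z]
  refine le_trans ?_ (step1 a ha hz)
  obtain ⟨y, rfl⟩ : ∃ y, z = 6 * y := ⟨z / 6, by ring⟩
  have hy : 0 < y := by linarith
  rw [closed hy]
  have h := DD_nonneg hy
  have e1 : lam (6 * y) = Real.log (1 + 3 * y) := by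
    unfold lam; congr 1; ring
  have e2 : Real.log (2 + 6 * y) = Real.log 2 + Real.log (1 + 3 * y) := by
    rw [← Real.log_mul (by norm_num) (by positivity)]
    congr 1; ring
  have e3 : Real.log (6 * y) = Real.log 2 + Real.log 3 + Real.log y := by
    rw [← Real.log_mul (by norm_num) (by norm_num), ← Real.log_mul (by norm_num) hy.ne']
    congr 1; ring
  have e4 : kap (6 * y) = (2 + 6 * y) * Real.log (1 + 3 * y) -
      6 * y * (Real.log 3 + Real.log y) - Real.log (1 + 6 * y) := by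
    unfold kap
    rw [e2, e3]
    ring
  rw [e1, e4]
  unfold DD at h
  linarith

end

end Pool.Agent.TH443.LI
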